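import Pool.Agent.Work.MP_13b5d9_gt.PI.Defs

set_option autoImplicit false

/-!
# MP_13b5d9_gt, block PI: statements of the items, each with its complete proof

`StX` are the statements of MP_25cd3b_gt/M/Stmts (available hypotheses `(h : StX)`), `PiX` those of
this file.  Notation: `L1 = Lie V g.val`, `L2 = Lie V (Lie V g.val)`, `D` = derivative,
`Dψ_r(x) = fderiv ℝ (ψ r) x`, `v = vel g z`, `B = {z | Hm g z ≤ 1/2}`, `a = g (V, c')`.
Provers may use every earlier statement as a hypothesis.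
-/

open MeasureTheory Set Filter Topology
open scoped ContDiff ENNReal
open Pool.Agent.Work.MP_c9f990_an.Al (IsFlow)

namespace Pool.Agent.PIN

open Pool.Agent.MLS Pool.Agent.STR

/-! ### A. Lie derivatives -/

/-- Elementary properties: the formula is the definition (`simp`), smoothness by
`ContDiff.fderiv_right`, `clm_apply`, `clm_comp` (compare `pull` in M/Defs), symmetry from the formula
(the derivative of `b` is symmetric: apply `fderiv` to `b y u v = b y v u`). -/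
def PiLie : Prop := ∀ (n : ℕ) (V : E n → E n) (b : E n → E n →L[ℝ] E n →L[ℝ] ℝ),
  ContDiff ℝ ∞ V → ContDiff ℝ ∞ b → ContDiff ℝ ∞ (Lie V b) ∧
  (∀ x u v, Lie V b x u v = fderiv ℝ b x (V x) u v + b x (fderiv ℝ V x u) v +
    b x u (fderiv ℝ V x v)) ∧
  ((∀ x u v, b x u v = b x v u) → ∀ x u v, Lie V b x u v = Lie V b x v u)

/-- Pull-back along the flow.  `Ψ (r, y) = ψ r y` is smooth, `Dψ_r(x) u = DΨ(r, x) (0, u)`, so the
first claim.  `∂_r (Dψ_r(x) u) = D²Ψ(r, x) (1, 0) (0, u) = D²Ψ(r, x) (0, u) (1, 0)` (symmetry of the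
second derivative) `= D(y ↦ ∂_r Ψ (r, y))(x) u = D(V ∘ ψ_r)(x) u = DV(ψ_r x) (Dψ_r(x) u)`.  Product
rule and the formula of `PiLie`. -/
def PiFlo : Prop := ∀ (n : ℕ) (V : E n → E n) (b : E n → E n →L[ℝ] E n →L[ℝ] ℝ)
  (ψ : ℝ → E n → E n), ContDiff ℝ ∞ V → ContDiff ℝ ∞ b →
  ContDiff ℝ ∞ (fun p : ℝ × E n => ψ p.1 p.2) →
  (∀ x t, HasDerivAt (fun s => ψ s x) (V (ψ t x)) t) →
  ContDiff ℝ ∞ (fun p : ℝ × E n => fderiv ℝ (ψ p.1) p.2) ∧
  ∀ (x u v : E n) (t : ℝ),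
    HasDerivAt (fun r => b (ψ r x) (fderiv ℝ (ψ r) x u) (fderiv ℝ (ψ r) x v))
      (Lie V b (ψ t x) (fderiv ℝ (ψ t) x u) (fderiv ℝ (ψ t) x v)) t

/-- The forms `L1`, `L2` vanish on `V`.  Differentiate `ψ (t + s) x = ψ t (ψ s x)` (`Axis.add`) in `s`
at `0` (with `ode`, `zero`): `V (ψ t x) = Dψ_t(x) (V x)`.  By `grad` and `height`
`g (V (ψ t x), Dψ_t w) = D(τ ∘ ψ_t)(x) w = Dτ(x) w = g (V x, w)`.  So
`r ↦ g (Dψ_r (V x), Dψ_r w)` is constant, and `PiFlo` (`b = g.val`) at `t = 0` gives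
`L1 (V x, w) = 0` (`Dψ_0 = id`) for all `x`, `w`; then `r ↦ L1 (Dψ_r (V x), Dψ_r w) =
L1 (V (ψ_r x), ..)` is constant `0` and `PiFlo` with `b = L1` gives `L2 (V x, w) = 0`. -/
def PiLV : Prop := ∀ (n : ℕ) (G : Type) [Group G] [MulAction G (E n)] (g : Form n) (z : G) (l : ℝ)
  (V : E n → E n) (τ : E n → ℝ) (ψ : ℝ → E n → E n), Axis n G g z l V τ ψ →
  (∀ (t : ℝ) (x : E n), fderiv ℝ (ψ t) x (V x) = V (ψ t x)) ∧
  (∀ (t : ℝ) (x w : E n),
    g.val (ψ t x) (V (ψ t x)) (fderiv ℝ (ψ t) x w) = g.val x (V x) w) ∧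
  ∀ x w, Lie V g.val x (V x) w = 0 ∧ Lie V (Lie V g.val) x (V x) w = 0

/-- Invariance.  Differentiate `b (a y) (dac a y u) (dac a y v) = b y u v` (`u`, `v` fixed) at `x` in
the direction `V x`; `D(dac a)(x) (V x) u = D²a(x)(V x, u) = D²a(x)(u, V x)` (symmetry of the second
derivative of `y ↦ a • y`), and differentiate `V (a y) = dac a y (V y)` in the direction `u`:
`DV(a x) (dac u) = D²a(x)(u, V x) + dac (DV(x) u)`.  Use the formula of `PiLie`. -/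
def PiInv : Prop := ∀ (n : ℕ) (G : Type) [Group G] [MulAction G (E n)], Cocompact n G →
  ∀ (V : E n → E n) (b : E n → E n →L[ℝ] E n →L[ℝ] ℝ), ContDiff ℝ ∞ V → ContDiff ℝ ∞ b →
  (∀ (a : G) (x : E n), V (a • x) = dac a x (V x)) →
  (∀ (a : G) (x u v : E n), b (a • x) (dac a x u) (dac a x v) = b x u v) →
  ∀ (a : G) (x u v : E n), Lie V b (a • x) (dac a x u) (dac a x v) = Lie V b x u v

/-- Bounds.  Let `w = v - g (V, v) V`; then `g (w, w) = bb` and `b (v, v) = b (w, w)` (symmetry and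
`b (V, .) = 0`).  On a compact `K` with `G K = R^n` the operator norm of `b x` is bounded (continuity)
and `‖w‖ ≤ C nrm g x w` (`StBnd`), so `|b (w, w)| ≤ C' g (w, w)`; both sides are invariant, so the
inequality holds everywhere (for `x` take `a` with `a x ∈ K` and the vector `dac a x v`). -/
def PiBd : Prop := ∀ (n : ℕ) (G : Type) [Group G] [MulAction G (E n)], Cocompact n G →
  ∀ g : Form n, Riem g → Inv G g → ∀ V : E n → E n, ContDiff ℝ ∞ V →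
  (∀ x, g.val x (V x) (V x) = 1) → (∀ (a : G) (x : E n), V (a • x) = dac a x (V x)) →
  (∀ x v, 0 ≤ bb g V x v) ∧ (∀ (a : G) (x v : E n), bb g V (a • x) (dac a x v) = bb g V x v) ∧
  ∀ b : E n → E n →L[ℝ] E n →L[ℝ] ℝ, ContDiff ℝ ∞ b → (∀ x u v, b x u v = b x v u) →
    (∀ (a : G) (x u v : E n), b (a • x) (dac a x u) (dac a x v) = b x u v) →
    (∀ x w, b x (V x) w = 0) → ∃ C, 0 ≤ C ∧ ∀ x v, |b x v v| ≤ C * bb g V x v

/-- If `L1 = 0` then the flow preserves the metric: by `PiFlo` with `b = g.val` the function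
`r ↦ g (Dψ_r u, Dψ_r v)` has derivative `0`, and `ψ 0 = id`. -/
def PiIso : Prop := ∀ (n : ℕ) (G : Type) [Group G] [MulAction G (E n)] (g : Form n) (z : G) (l : ℝ)
  (V : E n → E n) (τ : E n → ℝ) (ψ : ℝ → E n → E n), Axis n G g z l V τ ψ →
  (∀ x, Lie V g.val x = 0) → FlowIso g ψ

/-! ### B. second variation -/

/-- Along a geodesic.  `s ↦ g (c s) (c' s) w` has the derivative `1/2 Dg(w)(c', c')` for fixed `w`
(`IsGeo.el`); write a moving `w s` in the standard basis (or use the product rule for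
`s ↦ (g (c s) (c' s)) (w s)`, a continuous linear map applied to a vector: the derivative of the map
`s ↦ g (c s) (c' s)` is the map `w ↦ 1/2 Dg(w)(c', c')`).  For `w = V (c s)`: derivative
`1/2 Dg(V)(c', c') + g (c', DV c') = 1/2 L1 (c', c')` (`PiLie`).  For `w = c' s` let `X` be the
derivative of `g (c', c')`, `Y = Dg(c')(c', c')`, `Z = g (c', c'')`: `X = 1/2 Y + Z` and, by the direct
product rule, `X = Y + 2 Z`, so `X = 0`. -/
def PiA : Prop := ∀ (n : ℕ) (g : Form n) (V : E n → E n), ContDiff ℝ ∞ V → ∀ c : ℝ → E n,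
  IsGeo g c → (∀ t, HasDerivAt (fun s => g.val (c s) (V (c s)) (deriv c s))
    (1 / 2 * Lie V g.val (c t) (deriv c t) (deriv c t)) t) ∧
  ∀ t, g.val (c t) (deriv c t) (deriv c t) = g.val (c 0) (deriv c 0) (deriv c 0)

/-- The angle with `V` stays positive.  Put `β t = bb g V (c t) (c' t) = 1 - a^2`.  `β ≥ 0`
(`g (w, w) = bb` for `w = v - g (V, v) V`), so `|a| ≤ 1`, and `β' = - 2 a a' = - a L1 (c', c')`
(`PiA`), `|β'| ≤ C β` (replace `C` by `max C 0`).  So `t ↦ β t * exp (C t)` is monotone and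
`t ↦ β t * exp (- C t)` is antitone. -/
def PiPos : Prop := ∀ (n : ℕ) (g : Form n) (V : E n → E n), ContDiff ℝ ∞ V →
  (∀ x, g.val x (V x) (V x) = 1) → ∀ C : ℝ,
  (∀ x v, |Lie V g.val x v v| ≤ C * bb g V x v) → ∀ c : ℝ → E n, IsGeo g c →
  (∀ t, g.val (c t) (deriv c t) (deriv c t) = 1) → ∀ s t : ℝ,
  0 < bb g V (c s) (deriv c s) → 0 < bb g V (c t) (deriv c t)

/-- Taylor's formula with a continuous remainder: `k r t = ∫ θ in 0..1, (1 - θ) h2 (θ r) t`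
(continuous: `intervalIntegral.continuous_parametric_intervalIntegral_of_continuous`).  For fixed
`t`, `r` put `H θ = h (θ r) t`; `H' = r h1`, `H'' = r^2 h2`, integrate `(1 - θ) H''` by parts. -/
def PiTay : Prop := ∀ h h1 h2 : ℝ → ℝ → ℝ, Continuous (fun p : ℝ × ℝ => h2 p.1 p.2) →
  (∀ r t, HasDerivAt (fun r => h r t) (h1 r t) r) →
  (∀ r t, HasDerivAt (fun r => h1 r t) (h2 r t) r) → ∃ k : ℝ → ℝ → ℝ,
  Continuous (fun p : ℝ × ℝ => k p.1 p.2) ∧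
  (∀ r t, h r t = h 0 t + r * h1 0 t + r ^ 2 * k r t) ∧ ∀ t, k 0 t = h2 0 t / 2

/-- Second order condition.  For small `s ≠ 0` let `λ t = 1 + s q t > 0` on `[0, T]` (`q` is bounded
there).  `sqrt X ≤ X / (2 λ) + λ / 2` (from `(sqrt X - λ)^2 ≥ 0`), and with `X = λ^2 + s^2 u` the right
side is `λ + s^2 u / (2 λ)`.  Integrate, use `∫ λ = T`, divide by `s^2 / 2`:
`0 ≤ ∫ t in 0..T, u s t / (1 + s q t)`.  Let `s → 0`: the integrand is continuous in `(s, t)` for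
`|s| ≤ δ`, `t ∈ [0, T]` (to apply the theorem on continuous parametric integrals replace `1 + s q t`
by `max (1 + s q t) (1/2)`). -/
def PiCalc : Prop := ∀ (T : ℝ) (u : ℝ → ℝ → ℝ) (q : ℝ → ℝ), 0 < T →
  Continuous (fun p : ℝ × ℝ => u p.1 p.2) → Continuous q → (∫ t in (0 : ℝ)..T, q t) = 0 →
  (∀ s t, 0 ≤ (1 + s * q t) ^ 2 + s ^ 2 * u s t) →
  (∀ s, T ≤ ∫ t in (0 : ℝ)..T, Real.sqrt ((1 + s * q t) ^ 2 + s ^ 2 * u s t)) →
  0 ≤ ∫ t in (0 : ℝ)..T, u 0 t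

/-- The variation.  `c_s t = ψ (s f t) (c t) = Ψ (s f t, c t)` with `Ψ` smooth, so it is `C^1` with
derivative `s f' V (c_s) + Dψ_(s f)(c) c'` (`Axis.ode`).  By `PiLV` (second part)
`g (V (c_s), Dψ_(s f) c') = g (V (c), c')`, and `g (V, V) = 1`.  Expand. -/
def PiVar : Prop := ∀ (n : ℕ) (G : Type) [Group G] [MulAction G (E n)] (g : Form n) (z : G) (l : ℝ)
  (V : E n → E n) (τ : E n → ℝ) (ψ : ℝ → E n → E n), Axis n G g z l V τ ψ →
  ∀ (c : ℝ → E n) (f : ℝ → ℝ), ContDiff ℝ 1 c → ContDiff ℝ 1 f → ∀ s : ℝ,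
  ContDiff ℝ 1 (fun t => ψ (s * f t) (c t)) ∧
  ∀ t, g.val (ψ (s * f t) (c t)) (deriv (fun t => ψ (s * f t) (c t)) t)
      (deriv (fun t => ψ (s * f t) (c t)) t) =
    (s * deriv f t) ^ 2 + 2 * (s * deriv f t) * g.val (c t) (V (c t)) (deriv c t) +
    g.val (ψ (s * f t) (c t)) (fderiv ℝ (ψ (s * f t)) (c t) (deriv c t))
      (fderiv ℝ (ψ (s * f t)) (c t) (deriv c t))

/-- The index inequality.  Let `h r t = g (Dψ_r c', Dψ_r c')` at `ψ_r (c t)`; by `PiFlo` (twice)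
`h1`, `h2` are the same expressions with `L1`, `L2`; `h 0 t = 1`.  Take `k` from `PiTay`,
`q t = 1/2 L1 (c', c') f + a f'` (the derivative of `a f` by `PiA`, so `∫ 0..T q = 0`) and
`u s t = (f')^2 + f^2 k (s f) t - q^2`.  By `PiVar` and `PiTay`,
`|c_s'|^2 = (s f')^2 + 2 s f' a + 1 + s f L1 + s^2 f^2 k (s f) t = (1 + s q)^2 + s^2 u s t`.
`c_s 0 = c 0`, `c_s T = c T` (`f 0 = f T = 0`, `ψ 0 = id`), so by `Minz` and the last part of `StGd`
`T = gd g (c 0) (c T) ≤ ∫ nrm g (c_s) (c_s')`.  Apply `PiCalc`; `u 0 t` is the integrand below. -/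
def PiIdx : Prop := ∀ (n : ℕ) (G : Type) [Group G] [MulAction G (E n)] (g : Form n) (z : G) (l : ℝ)
  (V : E n → E n) (τ : E n → ℝ) (ψ : ℝ → E n → E n), Minz g → Axis n G g z l V τ ψ →
  ∀ c : ℝ → E n, IsGeo g c → (∀ t, g.val (c t) (deriv c t) (deriv c t) = 1) →
  ∀ T : ℝ, 0 < T → ∀ f : ℝ → ℝ, ContDiff ℝ 1 f → f 0 = 0 → f T = 0 →
  0 ≤ ∫ t in (0 : ℝ)..T, ((deriv f t) ^ 2 +
    1 / 2 * (f t) ^ 2 * Lie V (Lie V g.val) (c t) (deriv c t) (deriv c t) -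
    (1 / 2 * Lie V g.val (c t) (deriv c t) (deriv c t) * f t +
      g.val (c t) (V (c t)) (deriv c t) * deriv f t) ^ 2)

/-- The test function.  `β = bb g V (c) (c') = 1 - a^2 > 0` is `C^1` with `β' = - 2 a a'`,
`a' = 1/2 L1 (c', c')` (`PiA`).  Apply `PiIdx` to `f = η / sqrt β`, `η t = sin (π t / T)`.  With
`b = sqrt β`: `b b' = - a a'`, `f' = η' / b - η b' / b^2`, and
`(f')^2 - (a' f + a f')^2 = (η')^2 - η^2 a'^2 / b^4`; so the integrand is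
`(η')^2 + η^2 (L2 / (2 β) - L1^2 / (4 β^2)) = (η')^2 + η^2 FF`.  `∫ 0..T (η')^2 = π^2 / (2 T)`. -/
def PiTst : Prop := ∀ (n : ℕ) (G : Type) [Group G] [MulAction G (E n)] (g : Form n) (z : G) (l : ℝ)
  (V : E n → E n) (τ : E n → ℝ) (ψ : ℝ → E n → E n), Minz g → Axis n G g z l V τ ψ →
  ∀ c : ℝ → E n, IsGeo g c → (∀ t, g.val (c t) (deriv c t) (deriv c t) = 1) →
  (∀ t, 0 < bb g V (c t) (deriv c t)) → ∀ T : ℝ, 0 < T →
  -(Real.pi ^ 2 / (2 * T)) ≤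
    ∫ t in (0 : ℝ)..T, Real.sin (Real.pi * t / T) ^ 2 * FF g V (c t) (deriv c t)

/-- All geodesics of speed at most one.  `c t = (φ t ζ).1` is a geodesic with `c' = vel g (φ t ζ)`
(`StGeo1`) of constant speed `r`, `r^2 = 2 Hm g ζ ≤ 1` (`StOp`).  If `r = 0` then `FF = 0` along it.
Otherwise `e s = c (s / r)` is a geodesic of unit speed.  If `bb (e', e')` vanishes at some time it
vanishes always (`PiPos`, with `C` from `PiLV`, `PiInv`, `PiLie`, `PiBd`) and `FF = 0` (division by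
zero); otherwise it is positive always.  `FF g V x (r w) = r^2 FF g V x w`.  So the integral is
`r^2 ∫ 0..T sin^2 (π t / T) FF (e (r t), e' (r t)) dt =
r ∫ 0..rT sin^2 (π s / (r T)) FF (e s, e' s) ds ≥ - r π^2 / (2 r T)` (`PiTst` for `r T`). -/
def PiSeg : Prop := ∀ (n : ℕ) (G : Type) [Group G] [MulAction G (E n)], Cocompact n G →
  ∀ g : Form n, Riem g → Inv G g → Minz g → ∀ (z : G) (l : ℝ) (V : E n → E n) (τ : E n → ℝ)
  (ψ : ℝ → E n → E n), Axis n G g z l V τ ψ → ∀ (φ : ℝ → W n → W n)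
  (M : ℝ → W n → W n →L[ℝ] W n), IsFlow (XH (Hm g)) φ M → ∀ ζ : W n, Hm g ζ ≤ 1 / 2 →
  ∀ T : ℝ, 0 < T → -(Real.pi ^ 2 / (2 * T)) ≤
    ∫ t in (0 : ℝ)..T, Real.sin (Real.pi * t / T) ^ 2 * FF g V (φ t ζ).1 (vel g (φ t ζ))

/-! ### C. averages -/

/-- The index density on phase space.  Measurable: `vel g` is continuous (`StOp`), all other
functions are continuous, except for the divisions.  Invariance: `(lft g a ζ).1 = a ζ.1`,
`vel g (lft g a ζ) = dac a ζ.1 (vel g ζ)` (`StLftA`), `PiInv` (twice), `PiBd`, `Inv`.  Bound: with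
`|L1 (v, v)| ≤ C bb`, `|L2 (v, v)| ≤ C bb` (`PiBd`, hypotheses from `PiLie`, `PiInv`, `PiLV`) and
`g (v, v) = 2 Hm` (`StOp`): `|FF| ≤ 2 Hm (C / 2 + C^2 / 4)`. -/
def PiMea : Prop := ∀ (n : ℕ) (G : Type) [Group G] [MulAction G (E n)], Cocompact n G →
  ∀ g : Form n, Riem g → Inv G g → ∀ (z : G) (l : ℝ) (V : E n → E n) (τ : E n → ℝ)
  (ψ : ℝ → E n → E n), Axis n G g z l V τ ψ →
  Measurable (fun ζ : W n => FF g V ζ.1 (vel g ζ)) ∧
  (∀ (a : G) (ζ : W n), FF g V (lft g a ζ).1 (vel g (lft g a ζ)) = FF g V ζ.1 (vel g ζ)) ∧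
  ∃ C, 0 ≤ C ∧ ∀ ζ : W n, |FF g V ζ.1 (vel g ζ)| ≤ C * Hm g ζ

/-- `StAvg` for real functions bounded on `B`: apply `StAvg` to `ofReal` of the positive and of the
negative part of `F` times the indicator of `B` (invariant under `lft`, `StLftA`, and `φ` keeps `Hm`,
`StGeo1`); the integrals are finite because `χ` has compact support and `B` over it is compact
(`StSub`). -/
def PiAvg : Prop := ∀ (n : ℕ) (G : Type) [Group G] [MulAction G (E n)], Cocompact n G →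
  ∀ g : Form n, Riem g → Inv G g → ∀ (φ : ℝ → W n → W n) (M : ℝ → W n → W n →L[ℝ] W n),
  IsFlow (XH (Hm g)) φ M → ∀ χ : E n → ℝ, PU G χ → ∀ F : W n → ℝ, Measurable F →
  (∀ (a : G) (ζ : W n), F (lft g a ζ) = F ζ) → (∃ C, ∀ ζ, Hm g ζ ≤ 1 / 2 → |F ζ| ≤ C) → ∀ t : ℝ,
  ∫ ζ in {ζ : W n | Hm g ζ ≤ 1 / 2}, χ ζ.1 * F (φ t ζ) =
    ∫ ζ in {ζ : W n | Hm g ζ ≤ 1 / 2}, χ ζ.1 * F ζ

/-- The mean of the index density is nonnegative.  Let `Φ` be the left integral below and `m` the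
integral of `χ` over `B` (finite).  Multiply `PiSeg` by `χ ζ.1 ≥ 0`, integrate over `B`, exchange the
integrals (`(t, ζ) ↦ FF (φ t ζ)` is measurable and bounded on `[0, T] x B`: `PiMea`, `IsFlow.cont`,
`Hm` is constant along `φ`; `χ` has compact support, `StSub`) and use `PiAvg`:
`- m π^2 / (2 T) ≤ (∫ 0..T sin^2 (π t / T)) Φ = (T / 2) Φ` for all `T > 0`. -/
def PiFlu : Prop := ∀ (n : ℕ) (G : Type) [Group G] [MulAction G (E n)], Cocompact n G →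
  ∀ g : Form n, Riem g → Inv G g → Minz g → ∀ (z : G) (l : ℝ) (V : E n → E n) (τ : E n → ℝ)
  (ψ : ℝ → E n → E n), Axis n G g z l V τ ψ → ∀ χ : E n → ℝ, PU G χ →
  0 ≤ ∫ ζ in {ζ : W n | Hm g ζ ≤ 1 / 2}, χ ζ.1 * FF g V ζ.1 (vel g ζ)

/-! ### D. integrals over the fibres -/

/-- Moments.  Write `R = ‖ξ‖^2 - ξ_0^2 = ∑_(i > 0) ξ_i^2`, `ω = ‖ξ‖^2`; the functions are bounded
(`|Q| ≤ C R`) and defined for `R > 0`.  The reflection of one coordinate and the exchange of two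
coordinates `i, j > 0` are isometries of `E` which preserve `ω` and `R`.  So
`∫ ω ξ_i ξ_j / R = 0` for `i ≠ j` (both `> 0`) and `∫ ω ξ_i^2 / R` does not depend on `i > 0`, so it
is `cn / m`: first claim (`R = 0` is a null set: it is the line through `ee 0`, and `m > 0`).  For the
second claim all fourth moments with an odd exponent vanish, `p = ∫ ω ξ_i^4 / R^2` and
`r = ∫ ω ξ_i^2 ξ_j^2 / R^2` (`i ≠ j`) do not depend on `i, j > 0`, and the rotation by 45 degrees in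
the plane `(i, j)` gives `p = 3 r` (`ξ_i^4` and `(ξ_i + ξ_j)^4 / 4` have the same mean:
`4 p = 2 p + 6 r`).  `m p + m (m - 1) r = cn`, so `r = cn / (m (m + 2))` (if `m = 1` take this as
definition of `r`, `p = cn = 3 r`).  `∫ ω Q^2 / R^2 = ∑ A_ij A_kl ∫ ω ξ_i ξ_j ξ_k ξ_l / R^2 =
p ∑ A_ii^2 + r ∑_(i ≠ j) (A_ii A_jj + 2 A_ij^2) = r ((tr A)^2 + 2 tr (A^2))`. -/
def PiMom : Prop := ∀ (m : ℕ) (A : Matrix (Fin (m + 1)) (Fin (m + 1)) ℝ), 0 < m →
  (∀ i j, A i j = A j i) → (∀ j, A 0 j = 0) →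
  (∫ ξ in Metric.closedBall (0 : E (m + 1)) 1,
    ‖ξ‖ ^ 2 * ((∑ i, ∑ j, A i j * (ξ i * ξ j)) / (‖ξ‖ ^ 2 - ξ 0 ^ 2))) =
      A.trace / m * cn (m + 1) ∧
  (∫ ξ in Metric.closedBall (0 : E (m + 1)) 1,
    ‖ξ‖ ^ 2 * ((∑ i, ∑ j, A i j * (ξ i * ξ j)) ^ 2 / (‖ξ‖ ^ 2 - ξ 0 ^ 2) ^ 2)) =
      (2 * (A * A).trace + A.trace ^ 2) / (m * (m + 2)) * cn (m + 1)

/-- Adapted frame.  Let `L₁` be a linear bijection with `g (L₁ ξ, L₁ η) = inner ξ η` (Gram-Schmidt,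
or as in the proof of `StFib`, file I_Fib), `u = L₁⁻¹ w` a unit vector, `R` a linear isometry of `E`
with `R (ee 0) = u` (extend `u` to an orthonormal basis, for instance with
`Orthonormal.exists_orthonormalBasis_extension_of_card_eq`); `L₀ = L₁ ∘ R`. -/
def PiFrm : Prop := ∀ (m : ℕ) (g : Form (m + 1)), Riem g → ∀ x w : E (m + 1), g.val x w w = 1 →
  ∃ L₀ : E (m + 1) ≃L[ℝ] E (m + 1), L₀ (ee 0) = w ∧
    ∀ ξ η, g.val x (L₀ ξ) (L₀ η) = inner ℝ ξ η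

/-- Integral over the fibre, as `StFib` (file I_Fib), with the frame `L₀` of `PiFrm`: substitute
`p = op g x (L₀ ξ)`, so `v = L₀ ξ`, `Hm g (x, p) = ‖ξ‖^2 / 2`, the determinant is
`dens g x`.  `g (w, v) = ξ_0`, `g (v, v) = ‖ξ‖^2`, `b_i (v, v) = ∑ A_i jk ξ_j ξ_k` with
`A_i = L₀ᵀ (bm b_i) L₀` symmetric and `A_i 0 j = b_i (w, L₀ e_j) = 0`; `L₀ L₀ᵀ = (gm g x)⁻¹`, so
`tr A_i = tr ((gm g)⁻¹ bm b_i)`, `tr (A_i^2) = tr (((gm g)⁻¹ bm b_i)^2)`.  `PiMom`. -/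
def PiFib : Prop := ∀ (m : ℕ) (g : Form (m + 1)), 0 < m → Riem g → ∀ x w : E (m + 1),
  g.val x w w = 1 → ∀ b1 b2 : E (m + 1) →L[ℝ] E (m + 1) →L[ℝ] ℝ, (∀ u v, b1 u v = b1 v u) →
  (∀ u v, b2 u v = b2 v u) → (∀ v, b1 w v = 0) → (∀ v, b2 w v = 0) →
  ∫ p in {p : E (m + 1) | Hm g (x, p) ≤ 1 / 2},
    g.val x (vel g (x, p)) (vel g (x, p)) *
      (b2 (vel g (x, p)) (vel g (x, p)) / (2 * (g.val x (vel g (x, p)) (vel g (x, p)) -
        (g.val x w (vel g (x, p))) ^ 2)) -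
      (b1 (vel g (x, p)) (vel g (x, p))) ^ 2 / (4 * (g.val x (vel g (x, p)) (vel g (x, p)) -
        (g.val x w (vel g (x, p))) ^ 2) ^ 2)) =
  (((gm g x)⁻¹ * Matrix.of fun i j => b2 (ee i) (ee j)).trace / (2 * m) -
    (2 * (((gm g x)⁻¹ * Matrix.of fun i j => b1 (ee i) (ee j)) *
        ((gm g x)⁻¹ * Matrix.of fun i j => b1 (ee i) (ee j))).trace +
      ((gm g x)⁻¹ * Matrix.of fun i j => b1 (ee i) (ee j)).trace ^ 2) / (4 * m * (m + 2))) *
    (cn (m + 1) * dens g x)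

/-! ### E. divergences -/

/-- Derivative of a trace in the direction `V`.  Let `J k i = (DV(x) e_i)_k`, `M = gm g`,
`N = bm b` (smooth; `M` is invertible, `StDens`; the inverse is smooth).  `D_V M = bm (Lie V g) -
Jᵀ M - M J` and `D_V N = bm (Lie V b) - Jᵀ N - N J` (`PiLie` with `u = e_i`, `v = e_j`, expand `DV e_i`
in the basis).  `D_V tr (M⁻¹ N) = - tr (M⁻¹ (D_V M) M⁻¹ N) + tr (M⁻¹ D_V N)`; the terms with `J` cancel
(`tr (J M⁻¹ N) = tr (M⁻¹ N J)`). -/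
def PiTr : Prop := ∀ (n : ℕ) (g : Form n), Riem g → ∀ V : E n → E n, ContDiff ℝ ∞ V →
  ∀ b : E n → E n →L[ℝ] E n →L[ℝ] ℝ, ContDiff ℝ ∞ b → ContDiff ℝ ∞ (tb g b) ∧
  ContDiff ℝ ∞ (nb g b) ∧ ∀ x, fderiv ℝ (tb g b) x (V x) = tb g (Lie V b) x -
    (((gm g x)⁻¹ * bm (Lie V g.val) x) * ((gm g x)⁻¹ * bm b x)).trace

/-- Divergence.  `dens g = (det M)^(1/2)` is smooth and positive (`StDens`), and by Jacobi's formula
`D_V dens = 1/2 dens tr (M⁻¹ D_V M) = 1/2 dens (tb g (Lie V g.val) - 2 tr J)` (notation of `PiTr`), so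
`∑_j ∂_j (dens u V_j) = dens D_V u + u D_V dens + dens u tr J = dens (D_V u + u dvg)`. -/
def PiDv : Prop := ∀ (n : ℕ) (g : Form n), Riem g → ∀ V : E n → E n, ContDiff ℝ ∞ V →
  ∀ u : E n → ℝ, ContDiff ℝ ∞ u → ∀ x,
  ∑ j, fderiv ℝ (fun y => dens g y * (u y • V y) j) x (ee j) =
    dens g x * (fderiv ℝ u x (V x) + u x * dvg g V x)

/-- Invariance of traces.  With the matrix `D` of `dac a x` (invertible: the inverse is the matrix of
`dac a⁻¹ (a x)`), `gm g x = Dᵀ (gm g (a x)) D` and `bm b x = Dᵀ (bm b (a x)) D`, so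
`(gm g x)⁻¹ bm b x = D⁻¹ ((gm g (a x))⁻¹ bm b (a x)) D`. -/
def PiTbI : Prop := ∀ (n : ℕ) (G : Type) [Group G] [MulAction G (E n)], Cocompact n G →
  ∀ g : Form n, Riem g → Inv G g → ∀ b : E n → E n →L[ℝ] E n →L[ℝ] ℝ,
  (∀ (a : G) (x u v : E n), b (a • x) (dac a x u) (dac a x v) = b x u v) →
  ∀ (a : G) (x : E n), tb g b (a • x) = tb g b x ∧ nb g b (a • x) = nb g b x

/-- The integral of the second derivative.  `StDivZ` with `ρ = dens g` (`StDens`) and `Z = t V`,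
`t = tb g L1` (smooth and invariant: `PiTr`, `PiTbI`, `PiInv`; `Z (a x) = dac a x (Z x)`).  By `PiDv`,
`PiTr` (`b = L1`) and `dvg = t / 2`: `0 = ∫ χ dens (tb g L2 - nb g L1 + t^2 / 2)`. -/
def PiInt : Prop := ∀ (n : ℕ) (G : Type) [Group G] [MulAction G (E n)], Cocompact n G →
  ∀ g : Form n, Riem g → Inv G g → ∀ V : E n → E n, ContDiff ℝ ∞ V →
  (∀ (a : G) (x : E n), V (a • x) = dac a x (V x)) → ∀ χ : E n → ℝ, PU G χ →
  ∫ x, χ x * (tb g (Lie V (Lie V g.val)) x * dens g x) =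
    ∫ x, χ x * ((nb g (Lie V g.val) x - 1 / 2 * tb g (Lie V g.val) x ^ 2) * dens g x)

/-! ### F. the theorem -/

/-- Shear inequality.  `PiFlu`; Fubini: the integral is `∫ χ x (∫ over {p | Hm g (x, p) ≤ 1/2})`
(`FF` is bounded on `B`, `PiMea`); by `PiFib` with `w = V x`, `b1 = L1`, `b2 = L2` (`PiLie`, `PiLV`;
`FF` and `bb` unfold) the inner integral is
`(tb L2 / (2 m) - (2 nb L1 + (tb L1)^2) / (4 m (m + 2))) cn dens`.  By `PiInt` and `cn > 0`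
`0 ≤ ∫ χ dens ((2 m + 2) nb L1 - (m + 3) (tb L1)^2) / (4 m (m + 2))`; `dvg = tb L1 / 2`,
`shr = nb L1 / 4`. -/
def PiMain : Prop := ∀ (m : ℕ) (G : Type) [Group G] [MulAction G (E (m + 1))], 0 < m →
  Cocompact (m + 1) G → ∀ g : Form (m + 1), Riem g → Inv G g → Minz g → ∀ (z : G) (l : ℝ)
  (V : E (m + 1) → E (m + 1)) (τ : E (m + 1) → ℝ) (ψ : ℝ → E (m + 1) → E (m + 1)),
  Axis (m + 1) G g z l V τ ψ → ∀ χ : E (m + 1) → ℝ, PU G χ →
  (m + 3) * (∫ x, χ x * (dvg g V x ^ 2 * dens g x)) ≤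
    (2 * m + 2) * (∫ x, χ x * (shr g V x * dens g x))

/-- Rigidity.  The function `d = (m + 3) dvg^2 - (2 m + 2) shr` is continuous, invariant (`PiTbI`,
`PiInv`) and `≥ 0` by hypothesis, and `∫ χ d dens ≤ 0` by `PiMain`; so `χ d = 0` everywhere and, since
for every `x` some `χ (a x) > 0` (the sum is one), `d = 0`.  The hypothesis gives `L1 = 0`. -/
def PiPin : Prop := ∀ (m : ℕ) (G : Type) [Group G] [MulAction G (E (m + 1))], 0 < m →
  Cocompact (m + 1) G → ∀ g : Form (m + 1), Riem g → Inv G g → Minz g → ∀ (z : G) (l : ℝ)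
  (V : E (m + 1) → E (m + 1)) (τ : E (m + 1) → ℝ) (ψ : ℝ → E (m + 1) → E (m + 1)),
  Axis (m + 1) G g z l V τ ψ →
  (∀ x, Lie V g.val x ≠ 0 → (2 * m + 2) * shr g V x < (m + 3) * dvg g V x ^ 2) →
  ∀ x, Lie V g.val x = 0

/-- The conformal case: if `L1 = λ (g - g (V, .)^2)` then, with a frame `L₀` of `PiFrm` for
`w = V x`, `L₀ᵀ (bm L1) L₀ = λ diag (0, 1, ..., 1)`, so `tb g L1 = m λ`, `nb g L1 = m λ^2` (traces as
in `PiFib`), `(m + 3) dvg^2 - (2 m + 2) shr = m λ^2 (m (m + 3) - (2 m + 2)) / 4 =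
m (m - 1) (m + 2) λ^2 / 4 > 0` for `m ≥ 2`, `λ ≠ 0` (and `L1 ≠ 0` implies `λ ≠ 0`). -/
def PiCnf : Prop := ∀ (m : ℕ) (g : Form (m + 1)), 2 ≤ m → Riem g →
  ∀ V : E (m + 1) → E (m + 1), (∀ x, g.val x (V x) (V x) = 1) → ∀ μ : E (m + 1) → ℝ,
  (∀ x u v, Lie V g.val x u v = μ x * (g.val x u v - g.val x (V x) u * g.val x (V x) v)) →
  ∀ x, Lie V g.val x ≠ 0 → (2 * m + 2) * shr g V x < (m + 3) * dvg g V x ^ 2

/-- The inequality over a fundamental domain: `StPU`, `StFD` for `dvg^2` and `shr` (continuous,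
invariant, `shr ≥ 0`: with a frame as in `PiFib`, `nb = tr (A^2)`, `A` symmetric), `PiMain`. -/
def PiDom : Prop := ∀ (m : ℕ) (G : Type) [Group G] [MulAction G (E (m + 1))], 0 < m →
  Cocompact (m + 1) G → ∀ g : Form (m + 1), Riem g → Inv G g → Minz g → ∀ (z : G) (l : ℝ)
  (V : E (m + 1) → E (m + 1)) (τ : E (m + 1) → ℝ) (ψ : ℝ → E (m + 1) → E (m + 1)),
  Axis (m + 1) G g z l V τ ψ → ∀ D : Set (E (m + 1)), MeasurableSet D →
  (∀ x : E (m + 1), ∃! a : G, a • x ∈ D) →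
  (m + 3) * (∫ x in D, dvg g V x ^ 2 * dens g x) ≤
    (2 * m + 2) * (∫ x in D, shr g V x * dens g x)

/-- THEOREM PI.  `StAx` (block ST), `Minz` from `NoConj` (block NC), `PiDom`, `PiPin`, `PiCnf`,
`PiIso`. -/
def PiTh : Prop := ∀ (m : ℕ) (G : Type) [Group G] [MulAction G (E (m + 1))], 2 ≤ m →
  Cocompact (m + 1) G → ∀ g : Form (m + 1), Riem g → Inv G g → NoConj g → ∀ z : G, z ≠ 1 →
  (∀ a : G, a * z = z * a) →
  (∃ (l : ℝ) (V : E (m + 1) → E (m + 1)) (τ : E (m + 1) → ℝ) (ψ : ℝ → E (m + 1) → E (m + 1)),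
    Axis (m + 1) G g z l V τ ψ) ∧
  ∀ (l : ℝ) (V : E (m + 1) → E (m + 1)) (τ : E (m + 1) → ℝ) (ψ : ℝ → E (m + 1) → E (m + 1)),
    Axis (m + 1) G g z l V τ ψ →
    (∀ D : Set (E (m + 1)), MeasurableSet D → (∀ x : E (m + 1), ∃! a : G, a • x ∈ D) →
      (m + 3) * (∫ x in D, dvg g V x ^ 2 * dens g x) ≤
        (2 * m + 2) * (∫ x in D, shr g V x * dens g x)) ∧
    ((∀ x, Lie V g.val x ≠ 0 → (2 * m + 2) * shr g V x < (m + 3) * dvg g V x ^ 2) →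
      FlowIso g ψ) ∧
    ((∃ μ : E (m + 1) → ℝ, ∀ x u v, Lie V g.val x u v =
      μ x * (g.val x u v - g.val x (V x) u * g.val x (V x) v)) → FlowIso g ψ)

end Pool.Agent.PIN
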