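import Mathlib
import Pool.Agent.Work.MP_13b5d9_gt.PI.Stmts

set_option autoImplicit false

/-!
# Item Lie: elementary properties of the Lie derivative of a field of bilinear forms
-/

open scoped ContDiff

namespace Pool.Agent.PIN

open Pool.Agent.MLS Pool.Agent.STR

namespace ILie

theorem smooth_gen {A B : Type*} [NormedAddCommGroup A] [NormedSpace ℝ A] [NormedAddCommGroup B]
    [NormedSpace ℝ B] (V : A → A) (b : A → B) (hV : ContDiff ℝ ∞ V) (hb : ContDiff ℝ ∞ b) :
    ContDiff ℝ ∞ (fun x => fderiv ℝ b x (V x)) := by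
  have h2 : ContDiff ℝ ∞ (fderiv ℝ b) := hb.fderiv_right (by norm_num)
  exact h2.clm_apply hV

theorem smooth {n : ℕ} (V : E n → E n) (b : E n → E n →L[ℝ] E n →L[ℝ] ℝ)
    (hV : ContDiff ℝ ∞ V) (hb : ContDiff ℝ ∞ b) : ContDiff ℝ ∞ (Lie V b) := by
  have h1 : ContDiff ℝ ∞ (fderiv ℝ V) := hV.fderiv_right (by norm_num)
  exact ((smooth_gen V b hV hb).add (hb.clm_comp h1)).add
    (((ContinuousLinearMap.contDiff _).comp h1).clm_comp hb)

theorem formula {n : ℕ} (V : E n → E n) (b : E n → E n →L[ℝ] E n →L[ℝ] ℝ) (x u v : E n) :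
    Lie V b x u v = fderiv ℝ b x (V x) u v + b x (fderiv ℝ V x u) v +
      b x u (fderiv ℝ V x v) := by
  simp [Lie]

theorem fderiv_apply {n : ℕ} (b : E n → E n →L[ℝ] E n →L[ℝ] ℝ) (hb : ContDiff ℝ ∞ b)
    (x w u v : E n) : fderiv ℝ (fun y => b y u v) x w = fderiv ℝ b x w u v := by
  have hd : DifferentiableAt ℝ b x := (hb.differentiable (by norm_num)) x
  have h1 := (hd.hasFDerivAt.clm_apply (hasFDerivAt_const u x)).clm_apply (hasFDerivAt_const v x)
  rw [h1.fderiv]
  simp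

theorem fderiv_symm {n : ℕ} (b : E n → E n →L[ℝ] E n →L[ℝ] ℝ) (hb : ContDiff ℝ ∞ b)
    (hs : ∀ x u v, b x u v = b x v u) (x w u v : E n) :
    fderiv ℝ b x w u v = fderiv ℝ b x w v u := by
  rw [← fderiv_apply b hb x w u v, ← fderiv_apply b hb x w v u]
  congr 2
  funext y
  exact hs y u v

end ILie

theorem pr_Lie : PiLie := by
  intro n V b hV hb
  refine ⟨ILie.smooth V b hV hb, ILie.formula V b, fun hs x u v => ?_⟩
  rw [ILie.formula, ILie.formula, ILie.fderiv_symm b hb hs x (V x) u v,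
    hs x (fderiv ℝ V x u) v, hs x u (fderiv ℝ V x v)]
  ring

end Pool.Agent.PIN
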