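import Pool.Agent.Work.MP_25cd3b_gt.Mx.Defs

set_option autoImplicit false

/-!
# MP_13b5d9_gt: the canonical field of a central element, its divergence and its shear

Notation and conventions of `MP_25cd3b_gt/Mx/Defs`: metrics of closed manifolds `R^n / G` are given
by their matrices on `R^n`.
-/

open MeasureTheory Set Filter Topology
open scoped ContDiff

namespace Pool.Agent.Mx

/-- The canonical field of a central element `z`: a `G`-invariant unit vector field `V` of `R^n`
whose integral curves `t ↦ ψ t x` are geodesics with `ψ l x = z x`, and a function `τ` with gradient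
`V` which increases with speed one along the integral curves and changes by a constant under every
element of the group.  (So on the quotient all integral curves of `V` are closed geodesics of length
`l`, or of length `l` divided by an integer, and the metric is `dτ^2 + g_τ` on the levels of
`τ`.) -/
structure Axis (n : ℕ) (G : Type) [Group G] [MulAction G (E n)]
    (g : E n → Matrix (Fin n) (Fin n) ℝ) (z : G) (l : ℝ)
    (V : E n → E n) (τ : E n → ℝ) (ψ : ℝ → E n → E n) : Prop where
  pos : 0 < l
  smoothV : ContDiff ℝ ∞ V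
  smoothT : ContDiff ℝ ∞ τ
  smoothF : ContDiff ℝ ∞ (fun p : ℝ × E n => ψ p.1 p.2)
  unit : ∀ x, qf (g x) (V x) (V x) = 1
  grad : ∀ x v, fderiv ℝ τ x v = qf (g x) (V x) v
  inv : ∀ (a : G) (x : E n), V (a • x) = dac a x (V x)
  zero : ∀ x, ψ 0 x = x
  ode : ∀ x t, HasDerivAt (fun s => ψ s x) (V (ψ t x)) t
  add : ∀ s t x, ψ (s + t) x = ψ s (ψ t x)
  geo : ∀ x, IsGeo g (fun t => ψ t x)
  period : ∀ x, ψ l x = z • x
  comm : ∀ (a : G) (t : ℝ) (x : E n), ψ t (a • x) = a • ψ t x
  height : ∀ t x, τ (ψ t x) = τ x + t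
  deck : ∀ a : G, ∃ h : ℝ, ∀ x, τ (a • x) = τ x + h

/-- Lie derivative of the metric: `(L_V g)_ij = D_V g_ij + g (D_i V, e_j) + g (e_i, D_j V)` -/
noncomputable def lie {n : ℕ} (V : E n → E n) (g : E n → Matrix (Fin n) (Fin n) ℝ) (x : E n) :
    Matrix (Fin n) (Fin n) ℝ :=
  Matrix.of fun i j => fderiv ℝ (fun y => g y i j) x (V x) +
    qf (g x) (fderiv ℝ V x (EuclideanSpace.single i 1)) (EuclideanSpace.single j 1) +
    qf (g x) (EuclideanSpace.single i 1) (fderiv ℝ V x (EuclideanSpace.single j 1))

/-- Divergence of `V`: the trace with respect to `g` of `S = (L_V g) / 2`.  If the form `g (V, .)` is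
closed (as it is for the canonical field) `S` is the covariant derivative of `V`. -/
noncomputable def dvg {n : ℕ} (g : E n → Matrix (Fin n) (Fin n) ℝ) (V : E n → E n) (x : E n) : ℝ :=
  1 / 2 * tr g (lie V g) x

/-- square of the norm of `S = (L_V g) / 2` -/
noncomputable def shr {n : ℕ} (g : E n → Matrix (Fin n) (Fin n) ℝ) (V : E n → E n) (x : E n) : ℝ :=
  1 / 4 * (((g x)⁻¹ * lie V g x) * ((g x)⁻¹ * lie V g x)).trace

/-- The universal covering splits along `V`: the map `(x, t) ↦ ψ t x` from the Riemannian product of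
a level of `τ` and the line to the universal covering preserves the metric.  (At `(x, t)` its
derivative sends `(u, s)`, with `u` tangent to the level, to `Dψ_t u + s V`.) -/
def Splits {n : ℕ} (g : E n → Matrix (Fin n) (Fin n) ℝ) (V : E n → E n) (τ : E n → ℝ)
    (ψ : ℝ → E n → E n) : Prop :=
  ∀ (t s : ℝ) (x u : E n), fderiv ℝ τ x u = 0 →
    qf (g (ψ t x)) (fderiv ℝ (ψ t) x u + s • V (ψ t x)) (fderiv ℝ (ψ t) x u + s • V (ψ t x)) =
      qf (g x) u u + s ^ 2

end Pool.Agent.Mx
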