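import Pool.Agent.Work.MP_25cd3b_gt.Mx.Bridge
import Pool.Agent.Work.MP_13b5d9_gt.PI.MxDefs
import Pool.Agent.Work.MP_13b5d9_gt.PI.I_Lie

set_option autoImplicit false
set_option synthInstance.maxHeartbeats 400000

/-!
# The notions of PI/MxDefs.lean are the notions of ST/Defs.lean and PI/Defs.lean
-/

open MeasureTheory Set Filter Topology
open scoped ContDiff

namespace Pool.Agent.Mx

variable {n : ℕ}

theorem axis_iff (G : Type) [Group G] [MulAction G (E n)] (g : E n → Matrix (Fin n) (Fin n) ℝ)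
    (hg : Met g) (z : G) (l : ℝ) (V : E n → E n) (τ : E n → ℝ) (ψ : ℝ → E n → E n) :
    STR.Axis n G (frm g hg) z l V τ ψ ↔ Axis n G g z l V τ ψ := by
  constructor
  · intro h
    exact ⟨h.pos, h.smoothV, h.smoothT, h.smoothF, fun x => by rw [← frm_val g hg]; exact h.unit x,
      fun x v => by rw [← frm_val g hg]; exact h.grad x v, h.inv, h.zero, h.ode, h.add,
      fun x => (geo_iff g hg _).1 (h.geo x), h.period, h.comm, h.height, h.deck⟩
  · intro h
    exact ⟨h.pos, h.smoothV, h.smoothT, h.smoothF, fun x => by rw [frm_val g hg]; exact h.unit x,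
      fun x v => by rw [frm_val g hg]; exact h.grad x v, h.inv, h.zero, h.ode, h.add,
      fun x => (geo_iff g hg _).2 (h.geo x), h.period, h.comm, h.height, h.deck⟩

theorem qf_single (A : Matrix (Fin n) (Fin n) ℝ) (i j : Fin n) :
    qf A (EuclideanSpace.single i 1) (EuclideanSpace.single j 1) = A i j := by
  simp only [qf]
  rw [Finset.sum_eq_single i, Finset.sum_eq_single j]
  · simp
  · intro b _ hb
    simp [hb]
  · simp
  · intro b _ hb
    simp [hb]
  · simp

theorem lie_eq (g : E n → Matrix (Fin n) (Fin n) ℝ) (hg : Met g) (V : E n → E n) (x : E n) :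
    STR.bm (STR.Lie V (frm g hg).val) x = lie V g x := by
  ext i j
  have h1 : STR.Lie V (frm g hg).val x (MLS.ee i) (MLS.ee j) =
      fderiv ℝ (frm g hg).val x (V x) (MLS.ee i) (MLS.ee j) +
        (frm g hg).val x (fderiv ℝ V x (MLS.ee i)) (MLS.ee j) +
        (frm g hg).val x (MLS.ee i) (fderiv ℝ V x (MLS.ee j)) := rfl
  simp only [STR.bm, lie, Matrix.of_apply, h1, fderiv_val, frm_val]
  have h2 : (fun y => qf (g y) (MLS.ee i) (MLS.ee j)) = fun y => g y i j := by
    funext y
    exact qf_single (g y) i j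
  rw [h2]
  rfl

theorem dvg_eq (g : E n → Matrix (Fin n) (Fin n) ℝ) (hg : Met g) (V : E n → E n) (x : E n) :
    STR.dvg (frm g hg) V x = dvg g V x := by
  rw [STR.dvg, lie_eq, gm_eq, dvg, tr]

theorem shr_eq (g : E n → Matrix (Fin n) (Fin n) ℝ) (hg : Met g) (V : E n → E n) (x : E n) :
    STR.shr (frm g hg) V x = shr g V x := by
  rw [STR.shr, lie_eq, gm_eq, shr]

theorem qf_comm {g : E n → Matrix (Fin n) (Fin n) ℝ} (hg : Met g) (x u v : E n) :
    qf (g x) u v = qf (g x) v u := by
  rw [← frm_val g hg, ← frm_val g hg]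
  exact (frm g hg).symm x u v

theorem splits_of (G : Type) [Group G] [MulAction G (E n)] (g : E n → Matrix (Fin n) (Fin n) ℝ)
    (hg : Met g) (z : G) (l : ℝ) (V : E n → E n) (τ : E n → ℝ) (ψ : ℝ → E n → E n)
    (hA : Axis n G g z l V τ ψ) (h : PIN.FlowIso (frm g hg) ψ) : Splits g V τ ψ := by
  intro t s x u hu
  have h1 : qf (g (ψ t x)) (fderiv ℝ (ψ t) x u) (fderiv ℝ (ψ t) x u) = qf (g x) u u := by
    have h2 := h t x u u
    rwa [frm_val, frm_val] at h2
  have hsm : ContDiff ℝ ∞ (ψ t) := hA.smoothF.comp (contDiff_const.prodMk contDiff_id)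
  have hd : DifferentiableAt ℝ (ψ t) x := hsm.differentiable (by simp) x
  have hτ : DifferentiableAt ℝ τ (ψ t x) := hA.smoothT.differentiable (by simp) _
  have h3 : qf (g (ψ t x)) (V (ψ t x)) (fderiv ℝ (ψ t) x u) = 0 := by
    rw [← hA.grad]
    have h4 : fderiv ℝ (fun y => τ (ψ t y)) x u =
        fderiv ℝ τ (ψ t x) (fderiv ℝ (ψ t) x u) := by
      have h5 : fderiv ℝ (τ ∘ ψ t) x = (fderiv ℝ τ (ψ t x)).comp (fderiv ℝ (ψ t) x) :=
        fderiv_comp x hτ hd
      have h6 := congrArg (fun L : E n →L[ℝ] ℝ => L u) h5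
      exact h6
    rw [← h4]
    have h7 : (fun y => τ (ψ t y)) = fun y => τ y + t := by
      funext y
      exact hA.height t y
    rw [h7, fderiv_add_const]
    exact hu
  rw [qf_add_left, qf_add_right, qf_add_right, qf_smul_left, qf_smul_left, qf_smul_right,
    qf_smul_right, h1, h3, qf_comm hg (ψ t x) (fderiv ℝ (ψ t) x u) (V (ψ t x)), h3, hA.unit]
  ring

/-- a bilinear form is zero if its matrix is zero -/
theorem lie_ne (g : E n → Matrix (Fin n) (Fin n) ℝ) (hg : Met g) (V : E n → E n) (x : E n) :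
    STR.Lie V (frm g hg).val x ≠ 0 ↔ lie V g x ≠ 0 := by
  rw [← lie_eq g hg]
  refine not_congr ⟨fun h => ?_, fun h => ?_⟩
  · ext i j
    simp only [STR.bm, Matrix.of_apply, h]
    rfl
  · have h1 : ∀ w : E n, w = ∑ i, w i • MLS.ee i := by
      intro w
      ext k
      simp [MLS.ee, Pi.single_apply]
    have h2 : ∀ i j, STR.Lie V (frm g hg).val x (MLS.ee i) (MLS.ee j) = 0 := fun i j => by
      have h3 : STR.bm (STR.Lie V (frm g hg).val) x i j = 0 := by rw [h]; rfl
      exact h3
    ext u v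
    conv_lhs => rw [h1 u, h1 v]
    simp only [map_sum, map_smul, _root_.sum_apply, _root_.smul_apply, h2, smul_zero,
      Finset.sum_const_zero]
    rfl

end Pool.Agent.Mx
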