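import Pool.Agent.Work.MP_25cd3b_gt.Mx.Defs

set_option autoImplicit false

/-!
# Levi-Civita connection, curvature, Jacobi fields and conjugate points for a metric given by its
matrix
-/

open MeasureTheory Set Filter Topology
open scoped ContDiff

namespace Pool.Agent.Mx

/-- Christoffel symbols: the `k`-th component of `Ga g x u v` is
`1/2 ∑ l, g^{kl} (D_u g (v, e_l) + D_v g (u, e_l) - D_l g (u, v))` -/
noncomputable def Ga {n : ℕ} (g : E n → Matrix (Fin n) (Fin n) ℝ) (x u v : E n) : E n :=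
  WithLp.toLp 2 fun k => ∑ l, (g x)⁻¹ k l * (1 / 2 *
    (fderiv ℝ (fun y => qf (g y) v (EuclideanSpace.single l 1)) x u +
      fderiv ℝ (fun y => qf (g y) u (EuclideanSpace.single l 1)) x v -
      fderiv ℝ (fun y => qf (g y) u v) x (EuclideanSpace.single l 1)))

/-- covariant derivative along the curve `c` of the vector field `X` -/
noncomputable def cov {n : ℕ} (g : E n → Matrix (Fin n) (Fin n) ℝ) (c X : ℝ → E n) (t : ℝ) : E n :=
  deriv X t + Ga g (c t) (deriv c t) (X t)

/-- curvature tensor `R(u, v) w` -/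
noncomputable def Rm {n : ℕ} (g : E n → Matrix (Fin n) (Fin n) ℝ) (x u v w : E n) : E n :=
  fderiv ℝ (fun y => Ga g y v w) x u - fderiv ℝ (fun y => Ga g y u w) x v +
    Ga g x u (Ga g x v w) - Ga g x v (Ga g x u w)

/-- Jacobi fields along `c`: `D^2 J + R(J, c') c' = 0` -/
structure IsJac {n : ℕ} (g : E n → Matrix (Fin n) (Fin n) ℝ) (c J : ℝ → E n) : Prop where
  smooth : ContDiff ℝ 2 J
  jac : ∀ t, cov g c (cov g c J) t + Rm g (c t) (J t) (deriv c t) (deriv c t) = 0

/-- no conjugate points: a Jacobi field along a geodesic which vanishes at two different points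
vanishes identically -/
def NoConj {n : ℕ} (g : E n → Matrix (Fin n) (Fin n) ℝ) : Prop :=
  ∀ c : ℝ → E n, IsGeo g c → ∀ J : ℝ → E n, IsJac g c J →
    ∀ a b : ℝ, a ≠ b → J a = 0 → J b = 0 → ∀ t, J t = 0

end Pool.Agent.Mx
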