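import Pool.Agent.Work.MP_25cd3b_gt.Mx.Bridge
import Pool.Agent.Work.MP_13b5d9_gt.PI.MxNoConj
import Pool.Agent.Work.MP_25cd3b_gt.NC.Stmts

set_option autoImplicit false
set_option synthInstance.maxHeartbeats 400000

/-!
# The notions of PI/MxNoConj.lean are the notions of MP_25cd3b_gt/NC/Defs.lean
-/

open MeasureTheory Set Filter Topology
open scoped ContDiff

namespace Pool.Agent.Mx

variable {n : ℕ}

theorem ga_eq (h : MLS.NcGa) (g : E n → Matrix (Fin n) (Fin n) ℝ) (hg : Met g) (x u v : E n) :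
    MLS.Ga (frm g hg) x u v = Ga g x u v := by
  obtain ⟨-, -, -, h4⟩ := h n (frm g hg) (frm_riem g hg)
  have h5 : ∀ l, qf (g x) (MLS.Ga (frm g hg) x u v) (EuclideanSpace.single l 1) = 1 / 2 *
      (fderiv ℝ (fun y => qf (g y) v (EuclideanSpace.single l 1)) x u +
      fderiv ℝ (fun y => qf (g y) u (EuclideanSpace.single l 1)) x v -
      fderiv ℝ (fun y => qf (g y) u v) x (EuclideanSpace.single l 1)) := by
    intro l
    have h6 := h4 x u v (EuclideanSpace.single l 1)
    simpa only [fderiv_val, frm_val] using h6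
  have hdet : IsUnit (g x).det := by
    have hpd : (g x).PosDef := by
      refine Matrix.PosDef.of_dotProduct_mulVec_pos ?_ ?_
      · ext i j
        simp [Matrix.conjTranspose_apply, hg.symm x j i]
      · intro w hw
        have hw' : (WithLp.toLp 2 w : E n) ≠ 0 := by
          intro h0
          apply hw
          have := congrArg (fun p : E n => p.ofLp) h0
          simpa using this
        have h7 := hg.pos x (WithLp.toLp 2 w) hw'
        have h8 : qf (g x) (WithLp.toLp 2 w) (WithLp.toLp 2 w) =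
            dotProduct (star w) ((g x).mulVec w) := by
          simp only [qf, dotProduct, Matrix.mulVec, Finset.mul_sum]
          refine Finset.sum_congr rfl fun i _ => Finset.sum_congr rfl fun j _ => ?_
          simp
          ring
        rw [← h8]
        exact h7
    exact (Matrix.isUnit_iff_isUnit_det _).1 hpd.isUnit
  ext k
  simp only [Ga]
  have h9 : ∀ l, qf (g x) (MLS.Ga (frm g hg) x u v) (EuclideanSpace.single l 1) =
      ((g x).mulVec (MLS.Ga (frm g hg) x u v).ofLp) l := by
    intro l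
    simp only [qf, Matrix.mulVec, dotProduct]
    refine Finset.sum_congr rfl fun i _ => ?_
    rw [Finset.sum_eq_single l]
    · simp [hg.symm x i l]
    · intro b _ hb
      simp [hb]
    · simp
  have h10 : (∑ l, (g x)⁻¹ k l * ((g x).mulVec (MLS.Ga (frm g hg) x u v).ofLp) l) =
      (MLS.Ga (frm g hg) x u v).ofLp k := by
    have h11 : ((g x)⁻¹).mulVec ((g x).mulVec (MLS.Ga (frm g hg) x u v).ofLp) =
        (MLS.Ga (frm g hg) x u v).ofLp := by
      rw [Matrix.mulVec_mulVec, Matrix.nonsing_inv_mul _ hdet, Matrix.one_mulVec]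
    exact congrFun h11 k
  rw [← h10]
  exact Finset.sum_congr rfl fun l _ => by rw [← h9, h5]

theorem cov_eq (h : MLS.NcGa) (g : E n → Matrix (Fin n) (Fin n) ℝ) (hg : Met g) (c X : ℝ → E n) :
    MLS.cov (frm g hg) c X = cov g c X := by
  funext t
  rw [MLS.cov, cov, ga_eq h]

theorem rm_eq (h : MLS.NcGa) (g : E n → Matrix (Fin n) (Fin n) ℝ) (hg : Met g)
    (x u v w : E n) : MLS.Rm (frm g hg) x u v w = Rm g x u v w := by
  obtain ⟨h1, -, -, -⟩ := h n (frm g hg) (frm_riem g hg)
  have h2 : ∀ a b c : E n, fderiv ℝ (MLS.Ga (frm g hg)) x a b c =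
      fderiv ℝ (fun y => Ga g y b c) x a := by
    intro a b c
    have h3 : DifferentiableAt ℝ (MLS.Ga (frm g hg)) x := h1.differentiable (by simp) x
    have h4 : HasFDerivAt (fun y => MLS.Ga (frm g hg) y b)
        ((fderiv ℝ (MLS.Ga (frm g hg)) x).flip b) x := by
      simpa using h3.hasFDerivAt.clm_apply (hasFDerivAt_const b x)
    have h5 : HasFDerivAt (fun y => MLS.Ga (frm g hg) y b c)
        (((fderiv ℝ (MLS.Ga (frm g hg)) x).flip b).flip c) x := by
      simpa using h4.clm_apply (hasFDerivAt_const c x)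
    have h6 : (fun y => MLS.Ga (frm g hg) y b c) = fun y => Ga g y b c := by
      funext y
      exact ga_eq h g hg y b c
    rw [← h6, h5.fderiv]
    rfl
  rw [MLS.Rm, Rm, h2, h2, ga_eq h, ga_eq h, ga_eq h, ga_eq h]

theorem jac_iff (h : MLS.NcGa) (g : E n → Matrix (Fin n) (Fin n) ℝ) (hg : Met g)
    (c J : ℝ → E n) : MLS.IsJac (frm g hg) c J ↔ IsJac g c J := by
  constructor
  · intro hJ
    refine ⟨hJ.smooth, fun t => ?_⟩
    have h1 := hJ.jac t
    rwa [cov_eq h, cov_eq h, rm_eq h] at h1
  · intro hJ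
    refine ⟨hJ.smooth, fun t => ?_⟩
    rw [cov_eq h, cov_eq h, rm_eq h]
    exact hJ.jac t

theorem noConj_iff (h : MLS.NcGa) (g : E n → Matrix (Fin n) (Fin n) ℝ) (hg : Met g) :
    MLS.NoConj (frm g hg) ↔ NoConj g := by
  simp only [MLS.NoConj, NoConj, geo_iff, jac_iff h]

end Pool.Agent.Mx
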