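import Mathlib
import Pool.Agent.Work.MP_13b5d9_gt.PI.Stmts

set_option autoImplicit false

/-!
# MP_13b5d9_gt, block PI, item Var: the variation along the canonical flow
-/

open MeasureTheory Set Filter Topology
open scoped ContDiff ENNReal

namespace Pool.Agent.PIN

open Pool.Agent.MLS Pool.Agent.STR

namespace IVar

variable {n : ℕ} {V : E n → E n} {ψ : ℝ → E n → E n}

theorem hasF (hF : ContDiff ℝ ∞ (fun p : ℝ × E n => ψ p.1 p.2)) (p : ℝ × E n) :
    HasFDerivAt (fun p : ℝ × E n => ψ p.1 p.2)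
      (fderiv ℝ (fun p : ℝ × E n => ψ p.1 p.2) p) p :=
  (hF.differentiable (by simp) _).hasFDerivAt

theorem slice (hF : ContDiff ℝ ∞ (fun p : ℝ × E n => ψ p.1 p.2)) (t : ℝ) (x : E n) :
    HasFDerivAt (ψ t) ((fderiv ℝ (fun p : ℝ × E n => ψ p.1 p.2) (t, x)).comp
      (ContinuousLinearMap.inr ℝ ℝ (E n))) x := by
  have h2 : HasFDerivAt (fun y : E n => ((t, y) : ℝ × E n))
      (ContinuousLinearMap.inr ℝ ℝ (E n)) x := hasFDerivAt_prodMk_right t x
  exact (hasF hF (t, x)).comp x h2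

theorem fderiv_slice (hF : ContDiff ℝ ∞ (fun p : ℝ × E n => ψ p.1 p.2)) (t : ℝ) (x u : E n) :
    fderiv ℝ (fun p : ℝ × E n => ψ p.1 p.2) (t, x) (0, u) = fderiv ℝ (ψ t) x u := by
  rw [(slice hF t x).fderiv]
  rfl

theorem fderiv_time (hF : ContDiff ℝ ∞ (fun p : ℝ × E n => ψ p.1 p.2))
    (hode : ∀ x t, HasDerivAt (fun s => ψ s x) (V (ψ t x)) t) (t : ℝ) (x : E n) :
    fderiv ℝ (fun p : ℝ × E n => ψ p.1 p.2) (t, x) (1, 0) = V (ψ t x) := by
  have h2 : HasDerivAt (fun s : ℝ => ((s, x) : ℝ × E n)) ((1 : ℝ), (0 : E n)) t :=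
    (hasDerivAt_id t).prodMk (hasDerivAt_const t x)
  have h3 : HasDerivAt (fun s => ψ s x)
      (fderiv ℝ (fun p : ℝ × E n => ψ p.1 p.2) (t, x) (1, 0)) t := by
    have := HasFDerivAt.comp_hasDerivAt (f := fun s : ℝ => ((s, x) : ℝ × E n)) t
      (l := fun p : ℝ × E n => ψ p.1 p.2)
      (l' := fderiv ℝ (fun p : ℝ × E n => ψ p.1 p.2) (t, x)) (hasF hF (t, x)) h2
    exact this
  exact h3.unique (hode x t)

/-- derivative of the displaced curve -/
theorem deriv_var (hF : ContDiff ℝ ∞ (fun p : ℝ × E n => ψ p.1 p.2))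
    (hode : ∀ x t, HasDerivAt (fun s => ψ s x) (V (ψ t x)) t) {c : ℝ → E n} {f : ℝ → ℝ}
    (hc : ContDiff ℝ 1 c) (hf : ContDiff ℝ 1 f) (s t : ℝ) :
    HasDerivAt (fun t => ψ (s * f t) (c t))
      ((s * deriv f t) • V (ψ (s * f t) (c t)) +
        fderiv ℝ (ψ (s * f t)) (c t) (deriv c t)) t := by
  have h1 : HasDerivAt (fun t => s * f t) (s * deriv f t) t :=
    ((hf.differentiable (by simp) t).hasDerivAt).const_mul s
  have h2 : HasDerivAt c (deriv c t) t := (hc.differentiable (by simp) t).hasDerivAt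
  have h3 : HasDerivAt (fun t => ((s * f t, c t) : ℝ × E n)) (s * deriv f t, deriv c t) t :=
    h1.prodMk h2
  have h4 := HasFDerivAt.comp_hasDerivAt (f := fun t : ℝ => ((s * f t, c t) : ℝ × E n)) t
      (l := fun p : ℝ × E n => ψ p.1 p.2)
      (l' := fderiv ℝ (fun p : ℝ × E n => ψ p.1 p.2) (s * f t, c t))
      (hasF hF (s * f t, c t)) h3
  have h5 : ((s * deriv f t, deriv c t) : ℝ × E n) =
      (s * deriv f t) • ((1 : ℝ), (0 : E n)) + ((0 : ℝ), deriv c t) := by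
    ext <;> simp
  rw [h5, map_add, map_smul, fderiv_time hF hode, fderiv_slice hF] at h4
  exact h4

end IVar

theorem pr_Var (h : PiLV) : PiVar := by
  intro n G _ _ g z l V τ ψ hA c f hc hf s
  refine ⟨?_, fun t => ?_⟩
  · have h1 : ContDiff ℝ 1 (fun p : ℝ × E n => ψ p.1 p.2) := hA.smoothF.of_le (by norm_cast)
    have h2 : ContDiff ℝ 1 (fun t : ℝ => ((s * f t, c t) : ℝ × E n)) :=
      (contDiff_const.mul hf).prodMk hc
    exact h1.comp h2
  · rw [(IVar.deriv_var hA.smoothF hA.ode hc hf s t).deriv]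
    obtain ⟨-, hV, -⟩ := h n G g z l V τ ψ hA
    have h3 := hV (s * f t) (c t) (deriv c t)
    have h4 := hA.unit (ψ (s * f t) (c t))
    have h5 := g.symm (ψ (s * f t) (c t)) (fderiv ℝ (ψ (s * f t)) (c t) (deriv c t))
      (V (ψ (s * f t) (c t)))
    simp only [map_add, map_smul, ContinuousLinearMap.add_apply, ContinuousLinearMap.smul_apply,
      smul_eq_mul]
    rw [h5, h3, h4]
    ring

end Pool.Agent.PIN
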