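import Pool.Agent.Work.MP_13b5d9_gt.PI.Stmts

set_option autoImplicit false

/-!
# MP_13b5d9_gt, block PI, item A: the product of a field with the velocity of a geodesic
-/

open MeasureTheory Set Filter Topology
open scoped ContDiff ENNReal
open Pool.Agent.Work.MP_c9f990_an.Al (IsFlow)

namespace Pool.Agent.PIN

open Pool.Agent.MLS Pool.Agent.STR

namespace IA

variable {n : ℕ}

theorem d1 {g : Form n} {c : ℝ → E n} (hc : IsGeo g c) (t : ℝ) : HasDerivAt c (deriv c t) t :=
  ((hc.smooth.differentiable (by norm_num)) t).hasDerivAt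

theorem d2 {g : Form n} {c : ℝ → E n} (hc : IsGeo g c) (t : ℝ) :
    HasDerivAt (deriv c) (deriv (deriv c) t) t := by
  have h : ContDiff ℝ (1 + 1) c := by
    have := hc.smooth
    norm_num
    exact this
  exact (((contDiff_succ_iff_deriv.1 h).2.2.differentiable (by norm_num)) t).hasDerivAt

/-- the momentum as a functional -/
theorem dA {g : Form n} {c : ℝ → E n} (hc : IsGeo g c) (t : ℝ) :
    HasDerivAt (fun s => g.val (c s) (deriv c s))
      (fderiv ℝ g.val (c t) (deriv c t) (deriv c t) + g.val (c t) (deriv (deriv c) t)) t := by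
  have h1 : HasDerivAt (fun s => g.val (c s)) (fderiv ℝ g.val (c t) (deriv c t)) t :=
    ((g.smooth.differentiable (by norm_num)) (c t)).hasFDerivAt.comp_hasDerivAt t (d1 hc t)
  exact h1.clm_apply (d2 hc t)

/-- the Euler-Lagrange equation for this functional -/
theorem dAw {g : Form n} {c : ℝ → E n} (hc : IsGeo g c) (t : ℝ) (w : E n) :
    fderiv ℝ g.val (c t) (deriv c t) (deriv c t) w + g.val (c t) (deriv (deriv c) t) w =
      1 / 2 * fderiv ℝ g.val (c t) w (deriv c t) (deriv c t) := by
  have h1 : HasDerivAt (fun s => g.val (c s) (deriv c s) w)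
      ((fderiv ℝ g.val (c t) (deriv c t) (deriv c t) + g.val (c t) (deriv (deriv c) t)) w) t := by
    have := (dA hc t).clm_apply (hasDerivAt_const t w)
    simpa using this
  have h2 := h1.unique (hc.el t w)
  simpa using h2

end IA

open IA in
theorem pr_A (h : PiLie) : PiA := by
  intro n g V hV c hc
  obtain ⟨-, hform, -⟩ := h n V g.val hV g.smooth
  refine ⟨fun t => ?_, fun t => ?_⟩
  · have h1 : HasDerivAt (fun s => V (c s)) (fderiv ℝ V (c t) (deriv c t)) t :=
      ((hV.differentiable (by norm_num)) (c t)).hasFDerivAt.comp_hasDerivAt t (d1 hc t)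
    have h2 := (dA hc t).clm_apply h1
    have e1 : (fun s => g.val (c s) (V (c s)) (deriv c s)) =
        fun s => g.val (c s) (deriv c s) (V (c s)) := by
      funext s
      exact g.symm _ _ _
    rw [e1]
    have e2 : 1 / 2 * Lie V g.val (c t) (deriv c t) (deriv c t) =
        (fderiv ℝ g.val (c t) (deriv c t) (deriv c t) + g.val (c t) (deriv (deriv c) t)) (V (c t)) +
          g.val (c t) (deriv c t) (fderiv ℝ V (c t) (deriv c t)) := by
      have h3 := dAw hc t (V (c t))
      have h4 := g.symm (c t) (fderiv ℝ V (c t) (deriv c t)) (deriv c t)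
      rw [hform, ContinuousLinearMap.add_apply, h3, h4]
      ring
    rw [e2]
    exact h2
  · have hd : ∀ s, HasDerivAt (fun s => g.val (c s) (deriv c s) (deriv c s)) 0 s := by
      intro s
      have h2 := (dA hc s).clm_apply (d2 hc s)
      have h3 := dAw hc s (deriv c s)
      have h4 := g.symm (c s) (deriv (deriv c) s) (deriv c s)
      have e : (fderiv ℝ g.val (c s) (deriv c s) (deriv c s) + g.val (c s) (deriv (deriv c) s))
          (deriv c s) + g.val (c s) (deriv c s) (deriv (deriv c) s) = 0 := by
        rw [ContinuousLinearMap.add_apply]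
        linarith
      rw [e] at h2
      exact h2
    exact is_const_of_deriv_eq_zero (fun s => (hd s).differentiableAt) (fun s => (hd s).deriv) t 0

end Pool.Agent.PIN
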