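import Mathlib
import Pool.Agent.Work.MP_13b5d9_gt.PI.Stmts

set_option autoImplicit false

/-!
# MP_13b5d9_gt, block PI, item Avg: averages of bounded real functions
-/

open MeasureTheory Set Filter Topology
open scoped ContDiff ENNReal
open Pool.Agent.Work.MP_c9f990_an.Al (IsFlow)

namespace Pool.Agent.PIN

open Pool.Agent.MLS Pool.Agent.STR

namespace IAvg

/-- Averages of the positive part. -/
theorem pos_part (h1 : StAvg) (h5 : StLftA) {n : ℕ} {G : Type} [Group G] [MulAction G (E n)]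
    (hG : Cocompact n G) {g : Form n} (hg : Riem g) (hI : Inv G g) {φ : ℝ → W n → W n}
    {M : ℝ → W n → W n →L[ℝ] W n} (hφ : IsFlow (XH (Hm g)) φ M) {χ : E n → ℝ} (hχ : PU G χ)
    (hB : MeasurableSet {ζ : W n | Hm g ζ ≤ 1 / 2}) (hE : ∀ s ζ, Hm g (φ s ζ) = Hm g ζ)
    {F : W n → ℝ} (hF : Measurable F) (hFi : ∀ (a : G) (ζ : W n), F (lft g a ζ) = F ζ) (t : ℝ) :
    ∫⁻ ζ in {ζ : W n | Hm g ζ ≤ 1 / 2}, ENNReal.ofReal (χ ζ.1 * F (φ t ζ)) =
      ∫⁻ ζ in {ζ : W n | Hm g ζ ≤ 1 / 2}, ENNReal.ofReal (χ ζ.1 * F ζ) := by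
  have h := h1 n G hG g hg hI φ M hφ χ hχ
    (({ζ : W n | Hm g ζ ≤ 1 / 2}).indicator (fun ζ => ENNReal.ofReal (F ζ)))
    (hF.ennreal_ofReal.indicator hB) (fun a z => by
      have h2 := (h5 n G hG g hg hI).2.1 a z
      by_cases hz : z ∈ {ζ : W n | Hm g ζ ≤ 1 / 2}
      · have hz' : lft g a z ∈ {ζ : W n | Hm g ζ ≤ 1 / 2} := by
          show Hm g (lft g a z) ≤ 1 / 2
          rw [h2]
          exact hz
        rw [indicator_of_mem hz, indicator_of_mem hz', hFi]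
      · have hz' : lft g a z ∉ {ζ : W n | Hm g ζ ≤ 1 / 2} := by
          show ¬ Hm g (lft g a z) ≤ 1 / 2
          rw [h2]
          exact hz
        rw [indicator_of_notMem hz, indicator_of_notMem hz']) t
  rw [← lintegral_indicator hB, ← lintegral_indicator hB]
  have e1 : ∀ ζ : W n, ({ζ : W n | Hm g ζ ≤ 1 / 2}).indicator
      (fun ζ => ENNReal.ofReal (χ ζ.1 * F (φ t ζ))) ζ = ENNReal.ofReal (χ ζ.1) *
      ({ζ : W n | Hm g ζ ≤ 1 / 2}).indicator (fun ζ => ENNReal.ofReal (F ζ)) (φ t ζ) := fun ζ => by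
    by_cases hz : ζ ∈ {ζ : W n | Hm g ζ ≤ 1 / 2}
    · have hz' : φ t ζ ∈ {ζ : W n | Hm g ζ ≤ 1 / 2} := by
        show Hm g (φ t ζ) ≤ 1 / 2
        rw [hE]
        exact hz
      rw [indicator_of_mem hz, indicator_of_mem hz', ENNReal.ofReal_mul (hχ.nonneg _)]
    · have hz' : φ t ζ ∉ {ζ : W n | Hm g ζ ≤ 1 / 2} := by
        show ¬ Hm g (φ t ζ) ≤ 1 / 2
        rw [hE]
        exact hz
      rw [indicator_of_notMem hz, indicator_of_notMem hz', mul_zero]
  have e2 : ∀ ζ : W n, ({ζ : W n | Hm g ζ ≤ 1 / 2}).indicator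
      (fun ζ => ENNReal.ofReal (χ ζ.1 * F ζ)) ζ = ENNReal.ofReal (χ ζ.1) *
      ({ζ : W n | Hm g ζ ≤ 1 / 2}).indicator (fun ζ => ENNReal.ofReal (F ζ)) ζ := fun ζ => by
    by_cases hz : ζ ∈ {ζ : W n | Hm g ζ ≤ 1 / 2}
    · rw [indicator_of_mem hz, indicator_of_mem hz, ENNReal.ofReal_mul (hχ.nonneg _)]
    · rw [indicator_of_notMem hz, indicator_of_notMem hz, mul_zero]
  rw [lintegral_congr e1, lintegral_congr e2]
  exact h

end IAvg

/-- Item Avg. -/
theorem pr_Avg (h1 : StAvg) (h2 : StSub) (h3 : StOp) (h4 : StGeo1) (h5 : StLftA) : PiAvg := by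
  intro n G _ _ hG g hg hI φ M hφ χ hχ F hF hFi hFb t
  obtain ⟨C, hC⟩ := hFb
  have hH : Continuous (Hm g) := (h3 n g hg).2.2.2.2.2.2.2.1.continuous
  have hB : MeasurableSet {ζ : W n | Hm g ζ ≤ 1 / 2} :=
    (isClosed_le hH continuous_const).measurableSet
  have hE : ∀ s ζ, Hm g (φ s ζ) = Hm g ζ := fun s ζ => by
    have := (h4 n g hg (fun s => φ s ζ) (fun s => hφ.ode ζ s)).2.2 s
    rw [hφ.zero] at this
    exact this
  have hφc : ∀ s, Continuous (φ s) := fun s =>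
    hφ.cont.comp (continuous_const.prodMk continuous_id)
  obtain ⟨A, hA⟩ := hχ.cpt.exists_bound_of_continuous hχ.smooth.continuous
  have hK : IsCompact {z : W n | z.1 ∈ tsupport χ ∧ Hm g z ≤ 1 / 2} :=
    h2 n g hg (tsupport χ) (1 / 2) hχ.cpt
  have hint : ∀ s, Integrable (fun ζ : W n => χ ζ.1 * F (φ s ζ))
      (volume.restrict {ζ : W n | Hm g ζ ≤ 1 / 2}) := fun s => by
    have hm : Measurable (fun ζ : W n => χ ζ.1 * F (φ s ζ)) :=
      (hχ.smooth.continuous.measurable.comp measurable_fst).mul (hF.comp (hφc s).measurable)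
    have hon : IntegrableOn (fun ζ : W n => χ ζ.1 * F (φ s ζ))
        {z : W n | z.1 ∈ tsupport χ ∧ Hm g z ≤ 1 / 2} volume := by
      refine Measure.integrableOn_of_bounded (M := A * C) hK.measure_lt_top.ne
        hm.aestronglyMeasurable ?_
      refine (ae_restrict_iff' hK.measurableSet).2 (Eventually.of_forall fun ζ hζ => ?_)
      have h6 : |F (φ s ζ)| ≤ C := hC _ (by rw [hE]; exact hζ.2)
      have h7 := hA ζ.1
      rw [Real.norm_eq_abs, abs_mul]
      rw [Real.norm_eq_abs] at h7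
      exact mul_le_mul h7 h6 (abs_nonneg _) ((abs_nonneg _).trans h7)
    exact hon.of_forall_sdiff_eq_zero hB fun ζ hζ => by
      have h8 : ζ.1 ∉ tsupport χ := fun h => hζ.2 ⟨h, hζ.1⟩
      show χ ζ.1 * F (φ s ζ) = 0
      rw [image_eq_zero_of_notMem_tsupport h8, zero_mul]
  have hint0 : Integrable (fun ζ : W n => χ ζ.1 * F ζ)
      (volume.restrict {ζ : W n | Hm g ζ ≤ 1 / 2}) := by
    have := hint 0
    simp only [hφ.zero] at this
    exact this
  rw [integral_eq_lintegral_pos_part_sub_lintegral_neg_part (hint t),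
    integral_eq_lintegral_pos_part_sub_lintegral_neg_part hint0,
    IAvg.pos_part h1 h5 hG hg hI hφ hχ hB hE hF hFi t]
  have h9 := IAvg.pos_part h1 h5 hG hg hI hφ hχ hB hE hF.neg
    (F := fun ζ => -F ζ) (fun a ζ => by show -F (lft g a ζ) = -F ζ; rw [hFi]) t
  simp only [mul_neg] at h9
  rw [h9]

end Pool.Agent.PIN
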