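import Pool.Agent.Work.MP_13b5d9_gt.PI.Stmts

set_option autoImplicit false

/-!
# MP_13b5d9_gt, block PI, item Bd: bounds for invariant symmetric forms which vanish on `V`
-/

open MeasureTheory Set Filter Topology
open scoped ContDiff ENNReal

namespace Pool.Agent.PIN

open Pool.Agent.MLS Pool.Agent.STR

namespace IBd

variable {n : ℕ}

/-- `g (w, w) = bb` for the component `w` of `v` orthogonal to `V` -/
theorem val_proj {g : Form n} {V : E n → E n} (hV : ∀ x, g.val x (V x) (V x) = 1) (x v : E n) :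
    g.val x (v - g.val x (V x) v • V x) (v - g.val x (V x) v • V x) = bb g V x v := by
  unfold bb
  simp only [map_sub, map_smul, sub_apply, smul_apply,
    smul_eq_mul, hV, g.symm x v (V x)]
  ring

/-- `b (w, w) = b (v, v)` -/
theorem b_proj {V : E n → E n} {b : E n → E n →L[ℝ] E n →L[ℝ] ℝ}
    (hs : ∀ x u v, b x u v = b x v u) (h0 : ∀ x w, b x (V x) w = 0) (x v : E n) (c : ℝ) :
    b x (v - c • V x) (v - c • V x) = b x v v := by
  have h1 : b x v (V x) = 0 := by rw [hs, h0]
  simp only [map_sub, map_smul, sub_apply, smul_apply,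
    smul_eq_mul, h0, h1]
  ring

theorem bb_nonneg {g : Form n} {V : E n → E n} (hV : ∀ x, g.val x (V x) (V x) = 1) (x v : E n) :
    0 ≤ bb g V x v := by
  rw [← val_proj hV]
  exact g.nonneg _ _

theorem bb_inv {G : Type} [Group G] [MulAction G (E n)] {g : Form n} (hI : Inv G g)
    {V : E n → E n} (hVi : ∀ (a : G) (x : E n), V (a • x) = dac a x (V x)) (a : G) (x v : E n) :
    bb g V (a • x) (dac a x v) = bb g V x v := by
  unfold bb
  rw [hVi, hI, hI]

end IBd

open IBd in
/-- Bd: bounds for invariant symmetric forms which vanish on `V`. -/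
theorem pr_Bd (h : StBnd) : PiBd := by
  intro n G _ _ hG g hg hI V _ hV hVi
  refine ⟨bb_nonneg hV, bb_inv hI hVi, fun b hb hs hbi h0 => ?_⟩
  obtain ⟨K, hK, hcov⟩ := hG.cocompact
  have hbc : Continuous b := hb.continuous
  have hbn : Continuous fun x : E n => ‖b x‖ :=
    (continuous_norm (E := E n →L[ℝ] E n →L[ℝ] ℝ)).comp hbc
  obtain ⟨B, hB'⟩ := (hK.image hbn).bddAbove
  have hB : ∀ x ∈ K, ‖b x‖ ≤ B := fun x hx => hB' (Set.mem_image_of_mem _ hx)
  obtain ⟨C, hC, hCK⟩ := (h n g K hK).2 hg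
  have hkey : ∀ x ∈ K, ∀ v, |b x v v| ≤ |B| * C ^ 2 * bb g V x v := by
    intro x hx v
    set w := v - g.val x (V x) v • V x with hw
    have h1 : b x v v = b x w w := (b_proj hs h0 x v _).symm
    have h2 : bb g V x v = nrm g x w ^ 2 := by
      rw [nrm, Real.sq_sqrt (g.nonneg _ _), hw, val_proj hV]
    rw [h1, h2]
    calc |b x w w| = ‖b x w w‖ := rfl
      _ ≤ ‖b x‖ * ‖w‖ * ‖w‖ := (b x).le_opNorm₂ w w
      _ ≤ |B| * (C * nrm g x w) * (C * nrm g x w) := by
          have h3 : ‖b x‖ ≤ |B| := (hB x hx).trans (le_abs_self B)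
          have h4 := hCK x hx w
          have h5 : 0 ≤ ‖w‖ := norm_nonneg w
          have h6 : 0 ≤ nrm g x w := Real.sqrt_nonneg _
          gcongr
      _ = |B| * C ^ 2 * nrm g x w ^ 2 := by ring
  refine ⟨|B| * C ^ 2, by positivity, fun x v => ?_⟩
  obtain ⟨a, ha⟩ := hcov x
  have h1 := hkey (a • x) ha (dac a x v)
  rwa [hbi, bb_inv hI hVi] at h1

end Pool.Agent.PIN
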