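import Mathlib
import Pool.Agent.Work.MP_13b5d9_gt.PI.Stmts

set_option autoImplicit false

/-!
# MP_13b5d9_gt, block PI: second order condition
-/

open MeasureTheory Set Filter Topology
open scoped ContDiff ENNReal

namespace Pool.Agent.PIN

open Pool.Agent.MLS Pool.Agent.STR

namespace ICalc

/-- pointwise inequality -/
theorem pt (l X s y : ℝ) (hl : 0 < l) (hX : 0 ≤ X) (h : X = l ^ 2 + s ^ 2 * y) :
    Real.sqrt X ≤ l + s ^ 2 / 2 * (y / l) := by
  have h1 : Real.sqrt X ^ 2 = X := Real.sq_sqrt hX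
  have h2 : 0 ≤ (Real.sqrt X - l) ^ 2 := sq_nonneg _
  have h3 : 2 * l * Real.sqrt X ≤ X + l ^ 2 := by nlinarith
  have h4 : Real.sqrt X ≤ (X + l ^ 2) / (2 * l) := by
    rw [le_div_iff₀ (by positivity)]
    linarith
  refine h4.trans (le_of_eq ?_)
  rw [h]
  field_simp
  ring

end ICalc

theorem pr_Calc : PiCalc := by
  intro T u q hT hu hq hq0 hX hS
  obtain ⟨B, hB⟩ := (isCompact_Icc (a := (0 : ℝ)) (b := T)).exists_bound_of_continuousOn
    hq.continuousOn
  obtain ⟨F, hFd⟩ : ∃ F : ℝ → ℝ → ℝ, F = fun s t => u s t / max (1 + s * q t) (1 / 2) :=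
    ⟨_, rfl⟩
  have hF : Continuous (Function.uncurry F) := by
    have e1 : Continuous (fun p : ℝ × ℝ => max (1 + p.1 * q p.2) (1 / 2 : ℝ)) := by fun_prop
    have e2 : ∀ p : ℝ × ℝ, max (1 + p.1 * q p.2) (1 / 2 : ℝ) ≠ 0 := fun p =>
      (lt_max_of_lt_right (by norm_num)).ne'
    rw [hFd]
    exact hu.div e1 e2
  have hI : Continuous (fun s => ∫ t in (0 : ℝ)..T, F s t) :=
    intervalIntegral.continuous_parametric_intervalIntegral_of_continuous' hF 0 T
  have key : ∀ s, s ≠ 0 → |s| * |B| ≤ 1 / 2 → 0 ≤ ∫ t in (0 : ℝ)..T, F s t := by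
    intro s hs hsB
    have hlam : ∀ t ∈ Icc (0 : ℝ) T, 1 / 2 ≤ 1 + s * q t := by
      intro t ht
      have h1 : |q t| ≤ |B| := (hB t ht).trans (le_abs_self B)
      have h2 : |s * q t| ≤ 1 / 2 := by
        rw [abs_mul]
        exact (mul_le_mul_of_nonneg_left h1 (abs_nonneg s)).trans hsB
      have h3 := neg_abs_le (s * q t)
      linarith
    have hFs : Continuous (fun t => F s t) := hF.comp (continuous_const.prodMk continuous_id)
    have hus : Continuous (fun t => u s t) := hu.comp (continuous_const.prodMk continuous_id)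
    have hsq : Continuous (fun t => Real.sqrt ((1 + s * q t) ^ 2 + s ^ 2 * u s t)) := by
      fun_prop
    have h1 : (∫ t in (0 : ℝ)..T, Real.sqrt ((1 + s * q t) ^ 2 + s ^ 2 * u s t)) ≤
        ∫ t in (0 : ℝ)..T, ((1 + s * q t) + s ^ 2 / 2 * F s t) := by
      refine intervalIntegral.integral_mono_on hT.le (hsq.intervalIntegrable _ _)
        (Continuous.intervalIntegrable (by fun_prop) _ _) ?_
      intro t ht
      have h2 := hlam t ht
      have h3 : F s t = u s t / (1 + s * q t) := by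
        rw [hFd]
        change u s t / max (1 + s * q t) (1 / 2) = _
        rw [max_eq_left h2]
      rw [h3]
      exact ICalc.pt _ _ s _ (by linarith) (hX s t) rfl
    have h2 : (∫ t in (0 : ℝ)..T, ((1 + s * q t) + s ^ 2 / 2 * F s t)) =
        T + s ^ 2 / 2 * ∫ t in (0 : ℝ)..T, F s t := by
      rw [intervalIntegral.integral_add (Continuous.intervalIntegrable (by fun_prop) _ _)
        (Continuous.intervalIntegrable (by fun_prop) _ _),
        intervalIntegral.integral_add (Continuous.intervalIntegrable (by fun_prop) _ _)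
        (Continuous.intervalIntegrable (by fun_prop) _ _),
        intervalIntegral.integral_const_mul, intervalIntegral.integral_const_mul, hq0]
      simp
    have h3 := hS s
    have h4 : 0 ≤ s ^ 2 / 2 * ∫ t in (0 : ℝ)..T, F s t := by linarith
    have h5 : 0 < s ^ 2 / 2 := by positivity
    exact nonneg_of_mul_nonneg_right h4 h5
  have h0 : (∫ t in (0 : ℝ)..T, u 0 t) = ∫ t in (0 : ℝ)..T, F 0 t := by
    refine intervalIntegral.integral_congr fun t _ => ?_
    rw [hFd]
    change u 0 t = u 0 t / max (1 + 0 * q t) (1 / 2)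
    rw [zero_mul, add_zero, max_eq_left (by norm_num), div_one]
  rw [h0]
  have hlim : Tendsto (fun s => ∫ t in (0 : ℝ)..T, F s t) (𝓝[≠] 0)
      (𝓝 (∫ t in (0 : ℝ)..T, F 0 t)) := (hI.tendsto 0).mono_left nhdsWithin_le_nhds
  refine ge_of_tendsto hlim ?_
  have hsm : ∀ᶠ s in 𝓝[≠] (0 : ℝ), |s| * |B| < 1 / 2 := by
    have h6 : Tendsto (fun s : ℝ => |s| * |B|) (𝓝[≠] 0) (𝓝 (|(0 : ℝ)| * |B|)) :=
      ((continuous_abs.mul continuous_const).tendsto 0).mono_left nhdsWithin_le_nhds
    rw [abs_zero, zero_mul] at h6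
    exact h6.eventually_lt_const (by norm_num)
  filter_upwards [hsm, self_mem_nhdsWithin] with s h7 h8
  exact key s h8 h7.le

end Pool.Agent.PIN
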