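import Pool.Agent.Work.MP_13b5d9_gt.PI.Stmts

set_option autoImplicit false

/-! # MP_13b5d9_gt, block PI, item Cnf (the conformal case) -/

open MeasureTheory Set Filter Topology
open scoped ContDiff ENNReal

namespace Pool.Agent.PIN

open Pool.Agent.MLS Pool.Agent.STR

namespace ICnf

lemma sum_ee {n : ℕ} (v : E n) : v = ∑ i, v i • (ee i : E n) := by
  have h := (EuclideanSpace.basisFun (Fin n) ℝ).sum_repr v
  simp only [EuclideanSpace.basisFun_repr, EuclideanSpace.basisFun_apply] at h
  exact h.symm

lemma val_right {n : ℕ} (g : Form n) (x u v : E n) :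
    g.val x u v = ∑ j, v j * g.val x u (ee j) := by
  conv_lhs => rw [sum_ee v]
  simp [map_sum]

lemma val_left {n : ℕ} (g : Form n) (x u v : E n) :
    g.val x u v = ∑ j, u j * g.val x (ee j) v := by
  rw [g.symm, val_right]
  exact Finset.sum_congr rfl fun j _ => by rw [g.symm]

lemma gm_mulVec {n : ℕ} (g : Form n) (x v : E n) :
    Matrix.mulVec (gm g x) (fun j => v j) = fun i => g.val x (ee i) v := by
  funext i
  rw [val_right g x (ee i) v]
  simp only [Matrix.mulVec, dotProduct, gm, Matrix.of_apply]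
  exact Finset.sum_congr rfl fun j _ => mul_comm _ _

lemma gm_isUnit {n : ℕ} (g : Form n) (hR : Riem g) (x : E n) : IsUnit (gm g x) := by
  rw [← Matrix.mulVec_injective_iff_isUnit]
  have hz : ∀ w : Fin n → ℝ, Matrix.mulVec (gm g x) w = 0 → w = 0 := by
    intro w hw
    let v : E n := WithLp.toLp 2 w
    have hv : (fun j => v j) = w := rfl
    have h1 := gm_mulVec g x v
    rw [hv, hw] at h1
    have h2 : g.val x v v = 0 := by
      rw [val_left]
      refine Finset.sum_eq_zero fun j _ => ?_
      have := congrFun h1 j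
      simp only [Pi.zero_apply] at this
      rw [← this, mul_zero]
    have h3 : v = 0 := by
      by_contra hne
      exact (hR x v hne).ne' h2
    funext j
    have : v j = 0 := by rw [h3]; rfl
    exact this
  intro w1 w2 h
  have : Matrix.mulVec (gm g x) (w1 - w2) = 0 := by
    rw [Matrix.mulVec_sub]
    exact sub_eq_zero.2 h
  exact sub_eq_zero.1 (hz _ this)

/-- the operator of `L_V g` is `μ (1 - P)`, `P` the projection to the line of `V` -/
lemma op_eq {n : ℕ} (g : Form n) (hR : Riem g) (V : E n → E n) (x : E n) (c : ℝ)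
    (h : ∀ u v, Lie V g.val x u v = c * (g.val x u v - g.val x (V x) u * g.val x (V x) v)) :
    (gm g x)⁻¹ * bm (Lie V g.val) x =
      c • (1 - Matrix.vecMulVec (fun j => V x j) (fun i => g.val x (ee i) (V x))) := by
  have hb : bm (Lie V g.val) x = (gm g x) *
      (c • (1 - Matrix.vecMulVec (fun j => V x j) (fun i => g.val x (ee i) (V x)))) := by
    rw [Matrix.mul_smul, Matrix.mul_sub, Matrix.mul_one, Matrix.mul_vecMulVec, gm_mulVec]
    ext i j
    simp only [bm, Matrix.of_apply, h, Matrix.smul_apply, Matrix.sub_apply, Matrix.vecMulVec_apply,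
      gm, smul_eq_mul]
    rw [g.symm x (V x) (ee i), g.symm x (V x) (ee j)]
  rw [hb, ← Matrix.mul_assoc, Matrix.nonsing_inv_mul _ ((Matrix.isUnit_iff_isUnit_det _).1
    (gm_isUnit g hR x)), Matrix.one_mul]

lemma dot_eq {n : ℕ} (g : Form n) (V : E n → E n) (x : E n) (h : g.val x (V x) (V x) = 1) :
    (fun j => V x j) ⬝ᵥ (fun i => g.val x (ee i) (V x)) = 1 := by
  rw [← h, val_left g x (V x) (V x)]
  rfl

end ICnf

open ICnf in
/-- conformal flows are pinched -/
theorem pr_Cnf : PiCnf := by
  intro m g hm hR V hV μ hL x hx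
  have hμ : μ x ≠ 0 := by
    intro h0
    apply hx
    ext u v
    rw [hL x u v, h0, zero_mul]
    rfl
  have hop := op_eq g hR V x (μ x) (hL x)
  have hd := dot_eq g V x (hV x)
  have htr : ((gm g x)⁻¹ * bm (Lie V g.val) x).trace = μ x * m := by
    rw [hop, Matrix.trace_smul, Matrix.trace_sub, Matrix.trace_one, Matrix.trace_vecMulVec, hd]
    simp
  have hsq : (1 - Matrix.vecMulVec (fun j => V x j) (fun i => g.val x (ee i) (V x))) *
      (1 - Matrix.vecMulVec (fun j => V x j) (fun i => g.val x (ee i) (V x))) =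
      1 - Matrix.vecMulVec (fun j => V x j) (fun i => g.val x (ee i) (V x)) := by
    have hP : Matrix.vecMulVec (fun j => V x j) (fun i => g.val x (ee i) (V x)) *
        Matrix.vecMulVec (fun j => V x j) (fun i => g.val x (ee i) (V x)) =
        Matrix.vecMulVec (fun j => V x j) (fun i => g.val x (ee i) (V x)) := by
      rw [Matrix.vecMulVec_mul_vecMulVec, dotProduct_comm, hd]
      simp
    rw [Matrix.sub_mul, Matrix.mul_sub, Matrix.mul_sub, hP, Matrix.one_mul, Matrix.one_mul,
      Matrix.mul_one]
    simp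
  have htr2 : (((gm g x)⁻¹ * bm (Lie V g.val) x) * ((gm g x)⁻¹ * bm (Lie V g.val) x)).trace =
      μ x ^ 2 * m := by
    rw [hop, Matrix.smul_mul, Matrix.mul_smul, hsq, Matrix.trace_smul, Matrix.trace_smul,
      Matrix.trace_sub, Matrix.trace_one, Matrix.trace_vecMulVec, hd]
    simp
    ring
  rw [shr, dvg, htr, htr2]
  have hm' : (2 : ℝ) ≤ m := by exact_mod_cast hm
  have hpos : 0 < μ x ^ 2 := by positivity
  have hq : 0 < (m : ℝ) * (m - 1) * (m + 2) := by
    have : (0 : ℝ) < m - 1 := by linarith
    positivity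
  nlinarith [mul_pos hpos hq]

end Pool.Agent.PIN
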