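import Mathlib
import Pool.Agent.Work.MP_13b5d9_gt.PI.Stmts
import Pool.Agent.Work.MP_25cd3b_gt.M.I_TrI

set_option autoImplicit false

/-!
# MP_13b5d9_gt, block PI: the shear inequality over a fundamental domain (`PiDom`)
-/

open MeasureTheory Set Filter Topology
open scoped ContDiff ENNReal

namespace Pool.Agent.PIN

open Pool.Agent.MLS Pool.Agent.STR

namespace IDom

/-- the square of the norm is nonnegative -/
theorem nb_nonneg {n : ℕ} (g : Form n) (b : E n → E n →L[ℝ] E n →L[ℝ] ℝ) (x : E n)
    (hb : ∀ u v, b x u v = b x v u) : 0 ≤ nb g b x := by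
  have hp : ((gm g x)⁻¹).PosSemidef := (ITrI.gm_psd g x).inv
  obtain ⟨B, hB⟩ : ∃ B : Matrix (Fin n) (Fin n) ℝ, (gm g x)⁻¹ = B.conjTranspose * B := by
    open scoped MatrixOrder in
    exact CStarAlgebra.nonneg_iff_eq_star_mul_self.mp hp.nonneg
  have hs : (bm b x).conjTranspose = bm b x := by
    ext i j
    simp only [bm, Matrix.conjTranspose_apply, Matrix.of_apply, star_trivial]
    exact hb _ _
  have hA : (B * bm b x * B.conjTranspose).conjTranspose = B * bm b x * B.conjTranspose := by
    rw [Matrix.conjTranspose_mul, Matrix.conjTranspose_mul, Matrix.conjTranspose_conjTranspose, hs,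
      Matrix.mul_assoc]
  have h : nb g b x = ((B * bm b x * B.conjTranspose) *
      (B * bm b x * B.conjTranspose).conjTranspose).trace := by
    rw [hA]
    unfold nb
    rw [hB]
    have e1 : B.conjTranspose * B * bm b x * (B.conjTranspose * B * bm b x) =
        B.conjTranspose * (B * bm b x * B.conjTranspose * B * bm b x) := by
      simp only [Matrix.mul_assoc]
    have e2 : B * bm b x * B.conjTranspose * (B * bm b x * B.conjTranspose) =
        (B * bm b x * B.conjTranspose * B * bm b x) * B.conjTranspose := by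
      simp only [Matrix.mul_assoc]
    rw [e1, e2, Matrix.trace_mul_comm]
  rw [h]
  exact (Matrix.posSemidef_self_mul_conjTranspose _).trace_nonneg

end IDom

open IDom in
theorem pr_Dom (h1 : StPU) (h2 : StFD) (h4 : PiLie) (h5 : PiInv) (h7 : PiTr) (h8 : PiTbI)
    (h9 : PiMain) : PiDom := by
  intro m G _ _ hm hG g hR hI hM z l V τ ψ hA D hD hDu
  obtain ⟨χ, hχ⟩ := h1 (m + 1) G hG
  obtain ⟨hL, -, hLs⟩ := h4 (m + 1) V g.val hA.smoothV g.smooth
  have hLi := h5 (m + 1) G hG V g.val hA.smoothV g.smooth hA.inv hI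
  obtain ⟨ht, hn, -⟩ := h7 (m + 1) g hR V hA.smoothV (Lie V g.val) hL
  have hTb := h8 (m + 1) G hG g hR hI (Lie V g.val) hLi
  have e1 : ∀ x, dvg g V x = 1 / 2 * tb g (Lie V g.val) x := fun x => rfl
  have e2 : ∀ x, shr g V x = 1 / 4 * nb g (Lie V g.val) x := fun x => rfl
  have c1 : Continuous (fun x => dvg g V x ^ 2) := by
    simp_rw [e1]
    exact (continuous_const.mul ht.continuous).pow 2
  have c2 : Continuous (fun x => shr g V x) := by
    simp_rw [e2]
    exact continuous_const.mul hn.continuous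
  have i1 : ∀ (a : G) x, dvg g V (a • x) ^ 2 = dvg g V x ^ 2 := by
    intro a x
    rw [e1, e1, (hTb a x).1]
  have i2 : ∀ (a : G) x, shr g V (a • x) = shr g V x := by
    intro a x
    rw [e2, e2, (hTb a x).2]
  have n2 : ∀ x, 0 ≤ shr g V x := by
    intro x
    rw [e2]
    have := nb_nonneg g (Lie V g.val) x (hLs g.symm x)
    positivity
  rw [h2 (m + 1) G hG g hR hI χ hχ D hD hDu (fun x => dvg g V x ^ 2) c1
      (fun x => sq_nonneg _) i1,
    h2 (m + 1) G hG g hR hI χ hχ D hD hDu (fun x => shr g V x) c2 n2 i2]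
  exact h9 m G hm hG g hR hI hM z l V τ ψ hA χ hχ

end Pool.Agent.PIN
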