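import Pool.Agent.Work.MP_13b5d9_gt.PI.Stmts
import Pool.Agent.Work.MP_25cd3b_gt.M.I_Div

set_option autoImplicit false

open MeasureTheory Set Filter Topology
open scoped ContDiff ENNReal

namespace Pool.Agent.PIN

open Pool.Agent.MLS Pool.Agent.STR

namespace IDv

variable {n : ℕ}

theorem eq_sum (v : E n) : v = ∑ i, v i • (ee i : E n) := by
  ext j
  simp [ee, Pi.single_apply]

/-- a functional in the basis -/
theorem lin (l : E n →L[ℝ] ℝ) (v : E n) : l v = ∑ j, v j * l (ee j) := by
  conv_lhs => rw [eq_sum v]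
  rw [map_sum]
  refine Finset.sum_congr rfl fun j _ => ?_
  rw [map_smul, smul_eq_mul]

/-- derivative of an entry of the matrix -/
theorem entry (g : Form n) (x v : E n) (i j : Fin n) :
    HasFDerivAt (fun y => gm g y i j)
      (((fderiv ℝ g.val x).flip (ee i)).flip (ee j)) x := by
  have h1 : HasFDerivAt g.val (fderiv ℝ g.val x) x :=
    (g.smooth.differentiable (by simp) x).hasFDerivAt
  have h2 := (h1.clm_apply (hasFDerivAt_const (ee i : E n) x)).clm_apply
    (hasFDerivAt_const (ee j : E n) x)
  refine h2.congr_fderiv ?_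
  ext w
  simp

theorem entry_apply (g : Form n) (x v : E n) (i j : Fin n) :
    fderiv ℝ (fun y => gm g y i j) x v = fderiv ℝ g.val x v (ee i) (ee j) := by
  rw [(entry g x v i j).fderiv]
  rfl

/-- derivative of a coordinate -/
theorem coord (V : E n → E n) (x : E n) (hV : DifferentiableAt ℝ V x) (j : Fin n) :
    HasFDerivAt (fun y => V y j) ((EuclideanSpace.proj j : E n →L[ℝ] ℝ).comp (fderiv ℝ V x)) x :=
  (EuclideanSpace.proj j : E n →L[ℝ] ℝ).hasFDerivAt.comp x hV.hasFDerivAt

end IDv

open IDv

/-- the divergence -/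
theorem pr_Dv (h1 : StDens) : PiDv := by
  intro n g hg V hV u hu x
  obtain ⟨hdet, hdens, -⟩ := h1 n g hg
  have hM : ∀ i j, DifferentiableAt ℝ (fun y => gm g y i j) x := fun i j =>
    (entry g x 0 i j).differentiableAt
  have hd0 : (gm g x).det ≠ 0 := (hdet x).ne'
  have hunit : IsUnit (gm g x).det := isUnit_iff_ne_zero.2 hd0
  have hVd : DifferentiableAt ℝ V x := hV.differentiable (by simp) x
  set J := fderiv ℝ V x with hJ
  set Jm : Matrix (Fin n) (Fin n) ℝ := Matrix.of fun k i => (J (ee i)) k with hJm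
  set D : Matrix (Fin n) (Fin n) ℝ := Matrix.of fun i j => fderiv ℝ (fun y => gm g y i j) x (V x)
    with hD
  -- the matrix of the Lie derivative
  have hbm : bm (Lie V g.val) x = D + Jm.transpose * gm g x + gm g x * Jm := by
    ext i j
    have e1 : bm (Lie V g.val) x i j = fderiv ℝ g.val x (V x) (ee i) (ee j) +
      g.val x (J (ee i)) (ee j) + g.val x (ee i) (J (ee j)) := rfl
    have e2 : g.val x (J (ee i)) (ee j) = ∑ k, (J (ee i)) k * g.val x (ee k) (ee j) := by
      have := lin ((g.val x).flip (ee j)) (J (ee i))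
      simpa using this
    have e3 : g.val x (ee i) (J (ee j)) = ∑ k, (J (ee j)) k * g.val x (ee i) (ee k) :=
      lin (g.val x (ee i)) (J (ee j))
    rw [e1, e2, e3, Matrix.add_apply, Matrix.add_apply, Matrix.mul_apply, Matrix.mul_apply]
    congr 1
    · congr 1
      rw [hD, Matrix.of_apply, entry_apply]
    · refine Finset.sum_congr rfl fun k _ => ?_
      rw [mul_comm]
      rfl
  have htr : ((gm g x)⁻¹ * bm (Lie V g.val) x).trace =
      ((gm g x)⁻¹ * D).trace + 2 * Jm.trace := by
    rw [hbm, Matrix.mul_add, Matrix.mul_add, Matrix.trace_add, Matrix.trace_add]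
    have e4 : ((gm g x)⁻¹ * (Jm.transpose * gm g x)).trace = Jm.trace := by
      rw [Matrix.trace_mul_comm, Matrix.mul_assoc, Matrix.mul_nonsing_inv _ hunit, Matrix.mul_one,
        Matrix.trace_transpose]
    have e5 : ((gm g x)⁻¹ * (gm g x * Jm)).trace = Jm.trace := by
      rw [← Matrix.mul_assoc, Matrix.nonsing_inv_mul _ hunit, Matrix.one_mul]
    rw [e4, e5]
    ring
  -- derivative of the density
  have hρ : fderiv ℝ (dens g) x (V x) = dens g x * (dvg g V x - Jm.trace) := by
    have e6 : HasFDerivAt (fun y => (gm g y).det) (fderiv ℝ (fun y => (gm g y).det) x) x :=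
      (IDiv.diff_det hM).hasFDerivAt
    have e7 : HasFDerivAt (dens g) ((1 / (2 * Real.sqrt (gm g x).det)) •
        fderiv ℝ (fun y => (gm g y).det) x) x := e6.sqrt hd0
    rw [e7.fderiv, smul_apply, IDiv.fderiv_det hM hd0, smul_eq_mul, dvg, htr]
    have e8 : Real.sqrt (gm g x).det * Real.sqrt (gm g x).det = (gm g x).det :=
      Real.mul_self_sqrt (hdet x).le
    have e9 : Real.sqrt (gm g x).det ≠ 0 := (Real.sqrt_pos.2 (hdet x)).ne'
    have e10 : dens g x = Real.sqrt (gm g x).det := rfl
    rw [e10]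
    have e11 : ∀ r d : ℝ, r * r = d → r ≠ 0 → 1 / (2 * r) * d = 1 / 2 * r := by
      intro r d h hr
      rw [← h]
      field_simp
    rw [← mul_assoc, e11 _ _ e8 e9]
    ring
  -- the product rule
  have hterm : ∀ j, fderiv ℝ (fun y => dens g y * (u y • V y) j) x (ee j) =
      (V x j * fderiv ℝ (dens g) x (ee j)) * u x + dens g x * (V x j * fderiv ℝ u x (ee j)) +
        dens g x * u x * Jm j j := by
    intro j
    have e12 : HasFDerivAt (dens g) (fderiv ℝ (dens g) x) x :=
      (hdens.differentiable (by simp) x).hasFDerivAt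
    have e13 : HasFDerivAt u (fderiv ℝ u x) x := (hu.differentiable (by simp) x).hasFDerivAt
    have e14 := e12.mul (e13.mul (coord V x hVd j))
    have e15 : (fun y => dens g y * (u y • V y) j) = (dens g * (u * fun y => V y j)) := by
      funext y
      simp
    rw [e15, e14.fderiv]
    simp only [add_apply, smul_apply, smul_eq_mul,
      ContinuousLinearMap.comp_apply, Pi.mul_apply]
    have e16 : (EuclideanSpace.proj j : E n →L[ℝ] ℝ) (J (ee j)) = Jm j j := rfl
    rw [e16]
    ring
  rw [Finset.sum_congr rfl fun j _ => hterm j, Finset.sum_add_distrib, Finset.sum_add_distrib,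
    ← Finset.sum_mul, ← Finset.mul_sum, ← Finset.mul_sum, ← lin, ← lin, hρ]
  have e17 : ∑ j, Jm j j = Jm.trace := rfl
  rw [e17]
  ring

end Pool.Agent.PIN
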