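import Pool.Agent.Work.MP_13b5d9_gt.PI.Stmts

set_option autoImplicit false

open MeasureTheory Set Filter Topology
open scoped ContDiff ENNReal Matrix

namespace Pool.Agent.PIN

open Pool.Agent.MLS

namespace IFib

/-- the vector in the basis -/
theorem eq_sum {n : ℕ} (v : E n) : v = ∑ i, v i • ee i := by
  ext j
  simp [ee, Pi.single_apply]

/-- a bilinear form in the basis -/
theorem bil {n : ℕ} (b : E n →L[ℝ] E n →L[ℝ] ℝ) (v w : E n) :
    b v w = (WithLp.ofLp v) ⬝ᵥ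
      ((Matrix.of fun i j => b (ee i) (ee j)) : Matrix (Fin n) (Fin n) ℝ) *ᵥ (WithLp.ofLp w) := by
  conv_lhs => rw [eq_sum v, eq_sum w]
  simp only [map_sum, map_smul, _root_.sum_apply, _root_.smul_apply,
    smul_eq_mul, dotProduct, Matrix.mulVec, Matrix.of_apply, Finset.mul_sum]
  rw [Finset.sum_comm]
  refine Finset.sum_congr rfl fun i _ => Finset.sum_congr rfl fun j _ => ?_
  ring

/-- the operator of the form is given by its matrix -/
theorem op_eq {n : ℕ} (g : Form n) (hg : Riem g) (h1 : StOp) (x v : E n) :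
    op g x v = Matrix.toEuclideanCLM (n := Fin n) (𝕜 := ℝ) (gm g x) v := by
  obtain ⟨-, h2, -⟩ := h1 n g hg
  refine ext_inner_left ℝ fun w => ?_
  rw [real_inner_comm, h2 x v w, Matrix.inner_toEuclideanCLM, g.symm x v w, bil (g.val x) w v]
  rfl

/-- the quadratic form of a symmetric matrix with vanishing first row -/
theorem quad_bd {m : ℕ} (A : Matrix (Fin (m + 1)) (Fin (m + 1)) ℝ)
    (hA : ∀ i j, A i j = A j i) (h0 : ∀ j, A 0 j = 0) :
    ∃ C, 0 ≤ C ∧ ∀ ξ : E (m + 1),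
      |∑ i, ∑ j, A i j * (ξ i * ξ j)| ≤ C * (‖ξ‖ ^ 2 - ξ 0 ^ 2) := by
  refine ⟨∑ i, ∑ j, |A i j|, Finset.sum_nonneg fun i _ => Finset.sum_nonneg fun j _ => abs_nonneg _,
    fun ξ => ?_⟩
  have hR : ‖ξ‖ ^ 2 - ξ 0 ^ 2 = ∑ i : Fin m, ξ i.succ ^ 2 := by
    rw [EuclideanSpace.real_norm_sq_eq, Fin.sum_univ_succ]
    ring
  have hle : ∀ i : Fin (m + 1), i ≠ 0 → ξ i ^ 2 ≤ ‖ξ‖ ^ 2 - ξ 0 ^ 2 := by
    intro i hi
    obtain ⟨k, rfl⟩ := Fin.exists_succ_eq.mpr hi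
    rw [hR]
    exact Finset.single_le_sum (f := fun i : Fin m => ξ i.succ ^ 2) (fun i _ => sq_nonneg _)
      (Finset.mem_univ k)
  refine (Finset.abs_sum_le_sum_abs _ _).trans ?_
  rw [Finset.sum_mul]
  refine Finset.sum_le_sum fun i _ => ?_
  refine (Finset.abs_sum_le_sum_abs _ _).trans ?_
  rw [Finset.sum_mul]
  refine Finset.sum_le_sum fun j _ => ?_
  by_cases hi : i = 0
  · subst hi
    simp [h0]
  by_cases hj : j = 0
  · subst hj
    rw [hA i 0]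
    simp [h0]
  rw [abs_mul]
  refine mul_le_mul_of_nonneg_left ?_ (abs_nonneg _)
  have h1 := hle i hi
  have h2 := hle j hj
  rw [abs_mul]
  nlinarith [sq_nonneg (|ξ i| - |ξ j|), sq_abs (ξ i), sq_abs (ξ j)]

/-- the quotient is bounded -/
theorem quot_bd {m : ℕ} (A : Matrix (Fin (m + 1)) (Fin (m + 1)) ℝ)
    (hA : ∀ i j, A i j = A j i) (h0 : ∀ j, A 0 j = 0) :
    ∃ C, 0 ≤ C ∧ ∀ ξ : E (m + 1),
      |(∑ i, ∑ j, A i j * (ξ i * ξ j)) / (‖ξ‖ ^ 2 - ξ 0 ^ 2)| ≤ C := by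
  obtain ⟨C, hC, h⟩ := quad_bd A hA h0
  refine ⟨C, hC, fun ξ => ?_⟩
  have h1 := h ξ
  rcases eq_or_ne (‖ξ‖ ^ 2 - ξ 0 ^ 2) 0 with h2 | h2
  · rw [h2, div_zero, abs_zero]
    exact hC
  · have h3 : 0 ≤ ‖ξ‖ ^ 2 - ξ 0 ^ 2 := by
      rw [EuclideanSpace.real_norm_sq_eq, Fin.sum_univ_succ]
      have : 0 ≤ ∑ i : Fin m, ξ i.succ ^ 2 := Finset.sum_nonneg fun i _ => sq_nonneg _
      linarith
    have h4 : 0 < ‖ξ‖ ^ 2 - ξ 0 ^ 2 := lt_of_le_of_ne h3 (Ne.symm h2)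
    rw [abs_div, abs_of_pos h4, div_le_iff₀ h4]
    exact h1

theorem meas_q {m : ℕ} (A : Matrix (Fin (m + 1)) (Fin (m + 1)) ℝ) :
    Measurable (fun ξ : E (m + 1) => ∑ i, ∑ j, A i j * (ξ i * ξ j)) := by
  have : Continuous (fun ξ : E (m + 1) => ∑ i, ∑ j, A i j * (ξ i * ξ j)) := by
    fun_prop
  exact this.measurable

theorem meas_r {m : ℕ} :
    Measurable (fun ξ : E (m + 1) => ‖ξ‖ ^ 2 - ξ 0 ^ 2) := by
  have : Continuous (fun ξ : E (m + 1) => ‖ξ‖ ^ 2 - ξ 0 ^ 2) := by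
    fun_prop
  exact this.measurable

theorem meas_n {m : ℕ} :
    Measurable (fun ξ : E (m + 1) => ‖ξ‖ ^ 2) := by
  have : Continuous (fun ξ : E (m + 1) => ‖ξ‖ ^ 2) := by
    fun_prop
  exact this.measurable

theorem int1 {m : ℕ} (A : Matrix (Fin (m + 1)) (Fin (m + 1)) ℝ)
    (hA : ∀ i j, A i j = A j i) (h0 : ∀ j, A 0 j = 0) :
    IntegrableOn (fun ξ : E (m + 1) =>
      ‖ξ‖ ^ 2 * ((∑ i, ∑ j, A i j * (ξ i * ξ j)) / (‖ξ‖ ^ 2 - ξ 0 ^ 2)))
      (Metric.closedBall (0 : E (m + 1)) 1) := by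
  obtain ⟨C, hC, h⟩ := quot_bd A hA h0
  have hm : Measurable (fun ξ : E (m + 1) =>
      ‖ξ‖ ^ 2 * ((∑ i, ∑ j, A i j * (ξ i * ξ j)) / (‖ξ‖ ^ 2 - ξ 0 ^ 2))) :=
    meas_n.mul ((meas_q A).div meas_r)
  refine Measure.integrableOn_of_bounded (M := C)
    (isCompact_closedBall (0 : E (m + 1)) 1).measure_lt_top.ne hm.aestronglyMeasurable ?_
  refine (ae_restrict_iff' Metric.isClosed_closedBall.measurableSet).mpr
    (Eventually.of_forall fun ξ hξ => ?_)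
  rw [mem_closedBall_zero_iff] at hξ
  rw [Real.norm_eq_abs, abs_mul, abs_of_nonneg (sq_nonneg ‖ξ‖)]
  have h1 : ‖ξ‖ ^ 2 ≤ 1 := by nlinarith [norm_nonneg ξ]
  calc ‖ξ‖ ^ 2 * |(∑ i, ∑ j, A i j * (ξ i * ξ j)) / (‖ξ‖ ^ 2 - ξ 0 ^ 2)| ≤ 1 * C :=
        mul_le_mul h1 (h ξ) (abs_nonneg _) zero_le_one
    _ = C := one_mul C

theorem int2 {m : ℕ} (A : Matrix (Fin (m + 1)) (Fin (m + 1)) ℝ)
    (hA : ∀ i j, A i j = A j i) (h0 : ∀ j, A 0 j = 0) :
    IntegrableOn (fun ξ : E (m + 1) =>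
      ‖ξ‖ ^ 2 * ((∑ i, ∑ j, A i j * (ξ i * ξ j)) ^ 2 / (‖ξ‖ ^ 2 - ξ 0 ^ 2) ^ 2))
      (Metric.closedBall (0 : E (m + 1)) 1) := by
  obtain ⟨C, hC, h⟩ := quot_bd A hA h0
  have hm : Measurable (fun ξ : E (m + 1) =>
      ‖ξ‖ ^ 2 * ((∑ i, ∑ j, A i j * (ξ i * ξ j)) ^ 2 / (‖ξ‖ ^ 2 - ξ 0 ^ 2) ^ 2)) :=
    meas_n.mul (((meas_q A).pow_const 2).div (meas_r.pow_const 2))
  refine Measure.integrableOn_of_bounded (M := C ^ 2)
    (isCompact_closedBall (0 : E (m + 1)) 1).measure_lt_top.ne hm.aestronglyMeasurable ?_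
  refine (ae_restrict_iff' Metric.isClosed_closedBall.measurableSet).mpr
    (Eventually.of_forall fun ξ hξ => ?_)
  rw [mem_closedBall_zero_iff] at hξ
  rw [Real.norm_eq_abs, abs_mul, abs_of_nonneg (sq_nonneg ‖ξ‖), ← div_pow, abs_pow]
  have h1 : ‖ξ‖ ^ 2 ≤ 1 := by nlinarith [norm_nonneg ξ]
  calc ‖ξ‖ ^ 2 * |(∑ i, ∑ j, A i j * (ξ i * ξ j)) / (‖ξ‖ ^ 2 - ξ 0 ^ 2)| ^ 2 ≤ 1 * C ^ 2 :=
        mul_le_mul h1 (pow_le_pow_left₀ (abs_nonneg _) (h ξ) 2) (by positivity) zero_le_one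
    _ = C ^ 2 := one_mul _

end IFib

open IFib

theorem pr_Fib (h1 : StOp) (h2 : PiMom) (h3 : PiFrm) : PiFib := by
  intro m g hm hg x w hw b1 b2 hb1 hb2 hw1 hw2
  obtain ⟨-, hop, hiop, hopi, hsym, -, -, -, hHm⟩ := h1 (m + 1) g hg
  obtain ⟨L, hLw, hLg⟩ := h3 m g hg x w hw

  set N : Matrix (Fin (m + 1)) (Fin (m + 1)) ℝ := Matrix.of fun i j => (L (ee j)) i with hN
  have hLN : ∀ ξ : E (m + 1), WithLp.ofLp (L ξ) = N *ᵥ (WithLp.ofLp ξ) := by
    intro ξ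
    conv_lhs => rw [eq_sum ξ]
    funext i
    simp only [map_sum, map_smul, WithLp.ofLp_sum, WithLp.ofLp_smul, Finset.sum_apply,
      Pi.smul_apply, smul_eq_mul, Matrix.mulVec, dotProduct, hN, Matrix.of_apply]
    exact Finset.sum_congr rfl fun j _ => mul_comm _ _
  have hLN' : ∀ ξ : E (m + 1), L ξ = Matrix.toEuclideanCLM (n := Fin (m + 1)) (𝕜 := ℝ) N ξ := by
    intro ξ
    apply WithLp.ofLp_injective 2
    rw [hLN, Matrix.ofLp_toEuclideanCLM]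
  have hcol : ∀ j, WithLp.ofLp (L (ee j)) = N.col j := by
    intro j
    funext i
    simp [hN, Matrix.col]
  have hNb : ∀ b : E (m + 1) →L[ℝ] E (m + 1) →L[ℝ] ℝ, ∀ i j,
      b (L (ee i)) (L (ee j)) =
        (N.transpose * (Matrix.of fun i j => b (ee i) (ee j)) * N) i j := by
    intro b i j
    rw [bil b, Matrix.mul_assoc, Matrix.mul_apply, dotProduct]
    refine Finset.sum_congr rfl fun k _ => ?_
    rw [hcol, hcol]
    rfl
  have hMN : N.transpose * gm g x * N = 1 := by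
    ext i j
    have h4 := hNb (g.val x) i j
    rw [hLg] at h4
    have h5 : (N.transpose * gm g x * N) i j = inner ℝ (ee i : E (m + 1)) (ee j) := by
      rw [h4]; rfl
    rw [h5]
    simp [ee, Matrix.one_apply, EuclideanSpace.inner_single_left]
  have hMi : (gm g x)⁻¹ = N * N.transpose := by
    apply Matrix.inv_eq_left_inv
    have h4 : N * (N.transpose * gm g x) = 1 := by
      rw [mul_eq_one_comm]
      exact hMN
    rw [Matrix.mul_assoc]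
    exact h4
  set T := Matrix.toEuclideanCLM (n := Fin (m + 1)) (𝕜 := ℝ) (gm g x * N) with hT
  have hTL : ∀ ξ, T ξ = op g x (L ξ) := by
    intro ξ
    rw [op_eq g hg h1, hLN', hT, map_mul]
    rfl
  have hv : ∀ ξ, vel g (x, T ξ) = L ξ := by
    intro ξ
    change iop g x (T ξ) = L ξ
    rw [hTL, hiop]
  have hgv : ∀ ξ, g.val x (L ξ) (L ξ) = ‖ξ‖ ^ 2 := by
    intro ξ
    rw [hLg, real_inner_self_eq_norm_sq]
  have hgw : ∀ ξ, g.val x w (L ξ) = ξ 0 := by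
    intro ξ
    rw [← hLw, hLg]
    simp [ee, EuclideanSpace.inner_single_left]
  have hH : ∀ ξ, Hm g (x, T ξ) = 1 / 2 * ‖ξ‖ ^ 2 := by
    intro ξ
    rw [hHm, hv]
    exact congrArg (fun t => 1 / 2 * t) (hgv ξ)
  have hsur : ∀ p, T (L.symm (iop g x p)) = p := by
    intro p
    rw [hTL, ContinuousLinearEquiv.apply_symm_apply, hopi]
  have hset : {p : E (m + 1) | Hm g (x, p) ≤ 1 / 2} =
      T '' Metric.closedBall (0 : E (m + 1)) 1 := by
    ext p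
    simp only [mem_setOf_eq, mem_image, mem_closedBall_zero_iff]
    constructor
    · intro hp
      refine ⟨L.symm (iop g x p), ?_, hsur p⟩
      have h4 := hH (L.symm (iop g x p))
      rw [hsur] at h4
      rw [h4] at hp
      have : ‖L.symm (iop g x p)‖ ^ 2 ≤ 1 := by linarith
      nlinarith [norm_nonneg (L.symm (iop g x p))]
    · rintro ⟨ξ, hξ, rfl⟩
      rw [hH]
      nlinarith [norm_nonneg ξ]
  have hinj : InjOn T (Metric.closedBall (0 : E (m + 1)) 1) := by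
    intro ξ _ η _ h
    have h4 : L ξ = L η := by
      rw [← hv ξ, ← hv η, h]
    exact L.injective h4
  have hdet : T.det = (gm g x).det * N.det := by
    rw [ContinuousLinearMap.det, hT, Matrix.coe_toEuclideanCLM_eq_toEuclideanLin,
      Matrix.toEuclideanLin_eq_toLin, LinearMap.det_toLin, Matrix.det_mul]
  have hdd : N.det * (gm g x).det * N.det = 1 := by
    have h4 := congrArg Matrix.det hMN
    rwa [Matrix.det_mul, Matrix.det_mul, Matrix.det_transpose, Matrix.det_one] at h4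
  have habs : |T.det| = dens g x := by
    rw [dens, ← Real.sqrt_sq_eq_abs, hdet]
    congr 1
    linear_combination (gm g x).det * hdd
  rw [hset, integral_image_eq_integral_abs_det_fderiv_smul volume
    Metric.isClosed_closedBall.measurableSet (fun ξ _ => T.hasFDerivAt.hasFDerivWithinAt) hinj]

  have hq : ∀ b : E (m + 1) →L[ℝ] E (m + 1) →L[ℝ] ℝ, ∀ ξ : E (m + 1), b (L ξ) (L ξ) =
      ∑ i, ∑ j, (N.transpose * (Matrix.of fun i j => b (ee i) (ee j)) * N) i j *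
        (ξ i * ξ j) := by
    intro b ξ
    conv_lhs => rw [eq_sum ξ]
    simp only [map_sum, map_smul, _root_.sum_apply, _root_.smul_apply,
      smul_eq_mul, Finset.mul_sum]
    rw [Finset.sum_comm]
    refine Finset.sum_congr rfl fun i _ => Finset.sum_congr rfl fun j _ => ?_
    rw [← hNb b i j]
    ring
  set B1 : Matrix (Fin (m + 1)) (Fin (m + 1)) ℝ := Matrix.of fun i j => b1 (ee i) (ee j) with hB1
  set B2 : Matrix (Fin (m + 1)) (Fin (m + 1)) ℝ := Matrix.of fun i j => b2 (ee i) (ee j) with hB2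
  set A1 : Matrix (Fin (m + 1)) (Fin (m + 1)) ℝ := N.transpose * B1 * N with hA1
  set A2 : Matrix (Fin (m + 1)) (Fin (m + 1)) ℝ := N.transpose * B2 * N with hA2
  have hs1 : ∀ i j, A1 i j = A1 j i := by
    intro i j
    rw [hA1, hB1, ← hNb b1 i j, ← hNb b1 j i, hb1]
  have hs2 : ∀ i j, A2 i j = A2 j i := by
    intro i j
    rw [hA2, hB2, ← hNb b2 i j, ← hNb b2 j i, hb2]
  have hz1 : ∀ j, A1 0 j = 0 := by
    intro j
    rw [hA1, hB1, ← hNb b1 0 j, hLw, hw1]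
  have hz2 : ∀ j, A2 0 j = 0 := by
    intro j
    rw [hA2, hB2, ← hNb b2 0 j, hLw, hw2]
  have hint : ∀ ξ : E (m + 1), |T.det| •
      (g.val x (vel g (x, T ξ)) (vel g (x, T ξ)) *
      (b2 (vel g (x, T ξ)) (vel g (x, T ξ)) / (2 * (g.val x (vel g (x, T ξ)) (vel g (x, T ξ)) -
        (g.val x w (vel g (x, T ξ))) ^ 2)) -
      (b1 (vel g (x, T ξ)) (vel g (x, T ξ))) ^ 2 /
        (4 * (g.val x (vel g (x, T ξ)) (vel g (x, T ξ)) -
        (g.val x w (vel g (x, T ξ))) ^ 2) ^ 2))) =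
      dens g x / 2 * (‖ξ‖ ^ 2 * ((∑ i, ∑ j, A2 i j * (ξ i * ξ j)) / (‖ξ‖ ^ 2 - ξ 0 ^ 2))) -
      dens g x / 4 *
        (‖ξ‖ ^ 2 * ((∑ i, ∑ j, A1 i j * (ξ i * ξ j)) ^ 2 / (‖ξ‖ ^ 2 - ξ 0 ^ 2) ^ 2)) := by
    intro ξ
    rw [hv, hgv, hgw, hq b1, hq b2, habs, smul_eq_mul, ← hB1, ← hB2, ← hA1, ← hA2]
    rw [mul_comm (2 : ℝ) (‖ξ‖ ^ 2 - ξ 0 ^ 2), mul_comm (4 : ℝ) ((‖ξ‖ ^ 2 - ξ 0 ^ 2) ^ 2),
      ← div_div, ← div_div]
    ring
  simp only [hint]
  rw [integral_sub ((int1 A2 hs2 hz2).const_mul _) ((int2 A1 hs1 hz1).const_mul _),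
    integral_const_mul, integral_const_mul, (h2 m A2 hm hs2 hz2).1, (h2 m A1 hm hs1 hz1).2]
  have ht1 : A1.trace = ((gm g x)⁻¹ * B1).trace := by
    rw [hA1, Matrix.trace_mul_comm, ← Matrix.mul_assoc, hMi]
  have ht2 : A2.trace = ((gm g x)⁻¹ * B2).trace := by
    rw [hA2, Matrix.trace_mul_comm, ← Matrix.mul_assoc, hMi]
  have ht3 : (A1 * A1).trace = (((gm g x)⁻¹ * B1) * ((gm g x)⁻¹ * B1)).trace := by
    have h4 : A1 * A1 = (N.transpose * B1 * (N * N.transpose) * B1) * N := by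
      rw [hA1]
      simp only [Matrix.mul_assoc]
    rw [h4, Matrix.trace_mul_comm, hMi]
    simp only [Matrix.mul_assoc]
  rw [ht1, ht2, ht3]
  have hm0 : (m : ℝ) ≠ 0 := by
    exact_mod_cast hm.ne'
  have hm2 : (m : ℝ) + 2 ≠ 0 := by positivity
  field_simp

end Pool.Agent.PIN
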