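import Mathlib
import Pool.Agent.Work.MP_13b5d9_gt.PI.Stmts

set_option autoImplicit false

/-!
# MP_13b5d9_gt, block PI, item Flo: pull-back of a field of forms along a flow
-/

open MeasureTheory Set Filter Topology
open scoped ContDiff ENNReal

namespace Pool.Agent.PIN

open Pool.Agent.MLS Pool.Agent.STR

namespace IFlo

variable {n : ℕ}

theorem fd_eq (ψ : ℝ → E n → E n) (hψ : ContDiff ℝ ∞ (fun p : ℝ × E n => ψ p.1 p.2))
    (r : ℝ) (x : E n) :
    fderiv ℝ (ψ r) x = (fderiv ℝ (fun p : ℝ × E n => ψ p.1 p.2) (r, x)).comp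
      (ContinuousLinearMap.inr ℝ ℝ (E n)) := by
  have h1 : HasFDerivAt (fun p : ℝ × E n => ψ p.1 p.2)
      (fderiv ℝ (fun p : ℝ × E n => ψ p.1 p.2) (r, x)) (r, x) :=
    (hψ.differentiable (by norm_num) (r, x)).hasFDerivAt
  have h2 : HasFDerivAt (fun y : E n => ((r, y) : ℝ × E n)) (ContinuousLinearMap.inr ℝ ℝ (E n)) x :=
    hasFDerivAt_prodMk_right r x
  have h3 := HasFDerivAt.comp x h1 h2
  exact h3.fderiv

theorem smooth_fd (ψ : ℝ → E n → E n) (hψ : ContDiff ℝ ∞ (fun p : ℝ × E n => ψ p.1 p.2)) :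
    ContDiff ℝ ∞ (fun p : ℝ × E n => fderiv ℝ (ψ p.1) p.2) := by
  have h1 : ContDiff ℝ ∞ (fderiv ℝ (fun p : ℝ × E n => ψ p.1 p.2)) :=
    hψ.fderiv_right (by norm_num)
  have h2 : (fun p : ℝ × E n => fderiv ℝ (ψ p.1) p.2) = fun p : ℝ × E n =>
      (fderiv ℝ (fun p : ℝ × E n => ψ p.1 p.2) p).comp (ContinuousLinearMap.inr ℝ ℝ (E n)) := by
    funext p
    exact fd_eq ψ hψ p.1 p.2
  rw [h2]
  exact h1.clm_comp contDiff_const

theorem deriv_fd (V : E n → E n) (ψ : ℝ → E n → E n) (hV : ContDiff ℝ ∞ V)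
    (hψ : ContDiff ℝ ∞ (fun p : ℝ × E n => ψ p.1 p.2))
    (ho : ∀ x t, HasDerivAt (fun s => ψ s x) (V (ψ t x)) t) (x u : E n) (t : ℝ) :
    HasDerivAt (fun r => fderiv ℝ (ψ r) x u) (fderiv ℝ V (ψ t x) (fderiv ℝ (ψ t) x u)) t := by
  set Ψ : ℝ × E n → E n := fun p => ψ p.1 p.2 with hΨ
  have hD : ContDiff ℝ ∞ (fderiv ℝ Ψ) := hψ.fderiv_right (by norm_num)
  have hD2 : HasFDerivAt (fderiv ℝ Ψ) (fderiv ℝ (fderiv ℝ Ψ) (t, x)) (t, x) :=
    (hD.differentiable (by norm_num) (t, x)).hasFDerivAt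
  -- symmetry
  have hsym : ∀ a c : ℝ × E n, fderiv ℝ (fderiv ℝ Ψ) (t, x) a c =
      fderiv ℝ (fderiv ℝ Ψ) (t, x) c a := by
    intro a c
    exact second_derivative_symmetric
      (fun y => (hψ.differentiable (by norm_num) y).hasFDerivAt) hD2 a c
  -- derivative in time of the spatial derivative
  have h1 : HasDerivAt (fun r : ℝ => fderiv ℝ Ψ (r, x))
      (fderiv ℝ (fderiv ℝ Ψ) (t, x) ((1 : ℝ), (0 : E n))) t := by
    have hl : HasDerivAt (fun r : ℝ => ((r, x) : ℝ × E n)) ((1 : ℝ), (0 : E n)) t :=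
      (hasDerivAt_id t).prodMk (hasDerivAt_const t x)
    exact HasFDerivAt.comp_hasDerivAt t hD2 hl
  have h2 : HasDerivAt (fun r : ℝ => fderiv ℝ Ψ (r, x) ((0 : ℝ), u))
      (fderiv ℝ (fderiv ℝ Ψ) (t, x) ((1 : ℝ), (0 : E n)) ((0 : ℝ), u)) t := by
    have := h1.clm_apply (hasDerivAt_const t ((0 : ℝ), u))
    simpa using this
  -- derivative in space of the velocity
  have h3 : HasFDerivAt (fun y : E n => fderiv ℝ Ψ (t, y) ((1 : ℝ), (0 : E n)))
      (((fderiv ℝ (fderiv ℝ Ψ) (t, x)).comp (ContinuousLinearMap.inr ℝ ℝ (E n))).flip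
        ((1 : ℝ), (0 : E n))) x := by
    have hr : HasFDerivAt (fun y : E n => ((t, y) : ℝ × E n)) (ContinuousLinearMap.inr ℝ ℝ (E n)) x :=
      hasFDerivAt_prodMk_right t x
    have hc : HasFDerivAt (fun y : E n => fderiv ℝ Ψ (t, y))
        ((fderiv ℝ (fderiv ℝ Ψ) (t, x)).comp (ContinuousLinearMap.inr ℝ ℝ (E n))) x :=
      HasFDerivAt.comp x hD2 hr
    have := hc.clm_apply (hasFDerivAt_const ((1 : ℝ), (0 : E n)) x)
    simpa using this
  have h4 : (fun y : E n => fderiv ℝ Ψ (t, y) ((1 : ℝ), (0 : E n))) = fun y => V (ψ t y) := by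
    funext y
    have ha : HasFDerivAt Ψ (fderiv ℝ Ψ (t, y)) (t, y) :=
      (hψ.differentiable (by norm_num) (t, y)).hasFDerivAt
    have hl : HasDerivAt (fun r : ℝ => ((r, y) : ℝ × E n)) ((1 : ℝ), (0 : E n)) t :=
      (hasDerivAt_id t).prodMk (hasDerivAt_const t y)
    have hb : HasDerivAt (fun r : ℝ => ψ r y) (fderiv ℝ Ψ (t, y) ((1 : ℝ), (0 : E n))) t := by
      have := HasFDerivAt.comp_hasDerivAt (x := t) (f := fun r : ℝ => ((r, y) : ℝ × E n))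
        (l := Ψ) ha hl
      exact this
    exact hb.unique (ho y t)
  rw [h4] at h3
  have hψt : HasFDerivAt (ψ t) (fderiv ℝ (ψ t) x) x := by
    have hr : HasFDerivAt (fun y : E n => ((t, y) : ℝ × E n)) (ContinuousLinearMap.inr ℝ ℝ (E n)) x :=
      hasFDerivAt_prodMk_right t x
    have ha : HasFDerivAt Ψ (fderiv ℝ Ψ (t, x)) (t, x) :=
      (hψ.differentiable (by norm_num) (t, x)).hasFDerivAt
    have hc : HasFDerivAt (ψ t) ((fderiv ℝ Ψ (t, x)).comp (ContinuousLinearMap.inr ℝ ℝ (E n))) x :=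
      HasFDerivAt.comp x ha hr
    rw [fd_eq ψ hψ t x]
    exact hc
  have h5 : HasFDerivAt (fun y : E n => V (ψ t y))
      ((fderiv ℝ V (ψ t x)).comp (fderiv ℝ (ψ t) x)) x :=
    HasFDerivAt.comp x (hV.differentiable (by norm_num) (ψ t x)).hasFDerivAt hψt
  have h6 := h3.unique h5
  have h7 : fderiv ℝ (fderiv ℝ Ψ) (t, x) ((0 : ℝ), u) ((1 : ℝ), (0 : E n)) =
      fderiv ℝ V (ψ t x) (fderiv ℝ (ψ t) x u) := by
    have := congrArg (fun L => L u) h6
    simpa using this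
  have h8 : (fun r => fderiv ℝ (ψ r) x u) = fun r : ℝ => fderiv ℝ Ψ (r, x) ((0 : ℝ), u) := by
    funext r
    rw [fd_eq ψ hψ r x]
    simp [hΨ]
  rw [h8, ← h7, ← hsym]
  exact h2

end IFlo

/-- item Flo -/
theorem pr_Flo (h : PiLie) : PiFlo := by
  intro n V b ψ hV hb hψ ho
  refine ⟨IFlo.smooth_fd ψ hψ, ?_⟩
  intro x u v t
  have hb' : HasFDerivAt b (fderiv ℝ b (ψ t x)) (ψ t x) :=
    (hb.differentiable (by norm_num) (ψ t x)).hasFDerivAt
  have hB : HasDerivAt (fun r => b (ψ r x)) (fderiv ℝ b (ψ t x) (V (ψ t x))) t := by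
    have := HasFDerivAt.comp_hasDerivAt (x := t) (f := fun s => ψ s x) (l := b) hb' (ho x t)
    exact this
  have hu := IFlo.deriv_fd V ψ hV hψ ho x u t
  have hv := IFlo.deriv_fd V ψ hV hψ ho x v t
  have h1 := (hB.clm_apply hu).clm_apply hv
  have h2 := (h n V b hV hb).2.1 (ψ t x) (fderiv ℝ (ψ t) x u) (fderiv ℝ (ψ t) x v)
  rw [h2]
  refine h1.congr_deriv ?_
  simp only [add_apply]

end Pool.Agent.PIN
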