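import Mathlib
import Pool.Agent.Work.MP_13b5d9_gt.PI.Stmts

set_option autoImplicit false

/-!
# MP_13b5d9_gt, block PI: the mean of the index density is nonnegative (item Flu)
-/

open MeasureTheory Set Filter Topology
open scoped ContDiff ENNReal
open Pool.Agent.Work.MP_c9f990_an.Al (IsFlow)

namespace Pool.Agent.PIN

open Pool.Agent.MLS Pool.Agent.STR

namespace IFlu

/-- the integral of the squared sine over half a period -/
theorem int_sin (T : ℝ) (hT : 0 < T) :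
    ∫ t in (0 : ℝ)..T, Real.sin (Real.pi * t / T) ^ 2 = T / 2 := by
  have hpi := Real.pi_pos
  have hc : Real.pi / T ≠ 0 := (div_pos hpi hT).ne'
  have e : ∀ t : ℝ, Real.sin (Real.pi * t / T) ^ 2 =
      (fun x => Real.sin x ^ 2) (Real.pi / T * t) := by
    intro t
    have : Real.pi * t / T = Real.pi / T * t := by ring
    simp only [this]
  simp only [e]
  rw [intervalIntegral.integral_comp_mul_left (fun x => Real.sin x ^ 2) hc]
  have e2 : Real.pi / T * T = Real.pi := by field_simp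
  rw [e2, mul_zero, integral_sin_sq]
  simp only [Real.sin_zero, Real.sin_pi, smul_eq_mul, inv_div]
  field_simp
  ring

/-- integrability of the weight over the energy sublevel -/
theorem int_wt {n : ℕ} (h2 : StSub) (g : Form n) (hg : Riem g) (hH : Continuous (Hm g))
    (χ : E n → ℝ) (hχ : Continuous χ) (hc : HasCompactSupport χ) :
    IntegrableOn (fun z : W n => χ z.1) {z : W n | Hm g z ≤ 1 / 2} := by
  have hS := h2 n g hg (tsupport χ) (1 / 2) hc
  have h1 : IntegrableOn (fun z : W n => χ z.1)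
      {z : W n | z.1 ∈ tsupport χ ∧ Hm g z ≤ 1 / 2} :=
    (hχ.comp continuous_fst).continuousOn.integrableOn_compact hS
  refine h1.of_forall_sdiff_eq_zero (measurableSet_le hH.measurable measurable_const) ?_
  rintro z ⟨hz1, hz2⟩
  have : z.1 ∉ tsupport χ := fun h => hz2 ⟨h, hz1⟩
  exact image_eq_zero_of_notMem_tsupport this

/-- the limit argument -/
theorem limit_arg (m Φ : ℝ) (hm : 0 ≤ m)
    (h : ∀ T : ℝ, 0 < T → -(Real.pi ^ 2 / (2 * T)) * m ≤ T / 2 * Φ) : 0 ≤ Φ := by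
  by_contra hcon
  push Not at hcon
  have hΦ : 0 < -Φ := by linarith
  have hpi : 0 ≤ Real.pi ^ 2 * m := by positivity
  set T : ℝ := Real.pi ^ 2 * m / (-Φ) + 1 with hT
  have hT1 : 1 ≤ T := by
    have : 0 ≤ Real.pi ^ 2 * m / (-Φ) := div_nonneg hpi hΦ.le
    linarith
  have hT0 : 0 < T := by linarith
  have hTΦ : T * (-Φ) = Real.pi ^ 2 * m + (-Φ) := by
    rw [hT, add_mul, div_mul_cancel₀ _ hΦ.ne', one_mul]
  have h1 := h T hT0
  have h2 : (2 * T) * (-(Real.pi ^ 2 / (2 * T)) * m) ≤ (2 * T) * (T / 2 * Φ) :=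
    mul_le_mul_of_nonneg_left h1 (by positivity)
  have e1 : (2 * T) * (-(Real.pi ^ 2 / (2 * T)) * m) = -(Real.pi ^ 2 * m) := by
    field_simp
  have e2 : (2 * T) * (T / 2 * Φ) = -(T * (T * (-Φ))) := by ring
  rw [e1, e2, hTΦ] at h2
  nlinarith

end IFlu

open IFlu in
theorem pr_Flu (h1 : StFlow) (h2 : StSub) (h3 : StOp) (h4 : StGeo1) (h5 : PiSeg) (h6 : PiMea)
    (h7 : PiAvg) : PiFlu := by
  intro n G _ _ hG g hR hI hM z l V τ ψ hA χ hχ
  obtain ⟨φ, M, hφ⟩ := h1 n G hG g hR hI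
  obtain ⟨hfm, hfI, C, hC0, hC⟩ := h6 n G hG g hR hI z l V τ ψ hA
  have hHc : Continuous (Hm g) := (h3 n g hR).2.2.2.2.2.2.2.1.continuous
  have hχc : Continuous χ := hχ.smooth.continuous
  set B : Set (W n) := {ζ : W n | Hm g ζ ≤ 1 / 2} with hB
  have hBm : MeasurableSet B := measurableSet_le hHc.measurable measurable_const
  set f : W n → ℝ := fun ζ => FF g V ζ.1 (vel g ζ) with hf
  -- energy along the flow
  have hen : ∀ (ζ : W n) (t : ℝ), Hm g (φ t ζ) = Hm g ζ := by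
    intro ζ t
    have := (h4 n g hR (fun s => φ s ζ) (hφ.ode ζ)).2.2 t
    simpa [hφ.zero ζ] using this
  have hbd : ∀ ζ, Hm g ζ ≤ 1 / 2 → |f ζ| ≤ C * (1 / 2) := fun ζ hζ =>
    (hC ζ).trans (mul_le_mul_of_nonneg_left hζ hC0)
  have havg : ∀ t : ℝ, ∫ ζ in B, χ ζ.1 * f (φ t ζ) = ∫ ζ in B, χ ζ.1 * f ζ := fun t =>
    h7 n G hG g hR hI φ M hφ χ hχ f hfm hfI ⟨C * (1 / 2), hbd⟩ t
  set Φ : ℝ := ∫ ζ in B, χ ζ.1 * f ζ with hΦ
  set μ : Measure (W n) := (volume : Measure (W n)).restrict B with hμ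
  have im : Integrable (fun ζ : W n => χ ζ.1) μ := int_wt h2 g hR hHc χ hχc hχ.cpt
  set m : ℝ := ∫ ζ, χ ζ.1 ∂μ with hm
  have hm0 : 0 ≤ m := integral_nonneg fun ζ => hχ.nonneg _
  change 0 ≤ Φ
  refine limit_arg m Φ hm0 fun T hT => ?_
  set κ : Measure ℝ := (volume : Measure ℝ).restrict (Ioc 0 T) with hκ
  set F : ℝ × W n → ℝ := fun p =>
    χ p.2.1 * (Real.sin (Real.pi * p.1 / T) ^ 2 * f (φ p.1 p.2)) with hF
  have hFm : Measurable F := by
    refine Measurable.mul (hχc.measurable.comp (measurable_fst.comp measurable_snd)) ?_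
    refine Measurable.mul ?_ (hfm.comp hφ.cont.measurable)
    have hs : Continuous (fun p : ℝ × W n => Real.sin (Real.pi * p.1 / T) ^ 2) := by fun_prop
    exact hs.measurable
  have hdom : Integrable (fun p : ℝ × W n => (C * (1 / 2)) * χ p.2.1) (κ.prod μ) := by
    have h := (im.const_mul (C * (1 / 2))).comp_snd κ
    exact h
  have hFi : Integrable F (κ.prod μ) := by
    refine hdom.mono' hFm.aestronglyMeasurable ?_
    rw [hκ, hμ, Measure.prod_restrict]
    refine (ae_restrict_iff' (measurableSet_Ioc.prod hBm)).2 (Eventually.of_forall ?_)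
    rintro ⟨t, ζ⟩ ⟨-, hζ⟩
    have hζ' : Hm g (φ t ζ) ≤ 1 / 2 := by
      rw [hen]
      exact hζ
    have hb := hbd _ hζ'
    have hs0 : 0 ≤ Real.sin (Real.pi * t / T) ^ 2 := sq_nonneg _
    have hs1 : Real.sin (Real.pi * t / T) ^ 2 ≤ 1 := Real.sin_sq_le_one _
    have hx : 0 ≤ χ ζ.1 := hχ.nonneg _
    simp only [hF, Real.norm_eq_abs, abs_mul, abs_of_nonneg hx, abs_of_nonneg hs0]
    have h8 : Real.sin (Real.pi * t / T) ^ 2 * |f (φ t ζ)| ≤ 1 * (C * (1 / 2)) :=
      mul_le_mul hs1 hb (abs_nonneg _) zero_le_one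
    calc χ ζ.1 * (Real.sin (Real.pi * t / T) ^ 2 * |f (φ t ζ)|)
        ≤ χ ζ.1 * (1 * (C * (1 / 2))) := mul_le_mul_of_nonneg_left h8 hx
      _ = C * (1 / 2) * χ ζ.1 := by ring
  -- exchange of the integrals
  have hsw : ∫ t, ∫ ζ, F (t, ζ) ∂μ ∂κ = ∫ ζ, ∫ t, F (t, ζ) ∂κ ∂μ :=
    integral_integral_swap (f := fun t ζ => F (t, ζ)) hFi
  have hl : ∫ t, ∫ ζ, F (t, ζ) ∂μ ∂κ = T / 2 * Φ := by
    have e : ∀ t, ∫ ζ, F (t, ζ) ∂μ = Real.sin (Real.pi * t / T) ^ 2 * Φ := by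
      intro t
      rw [← havg t, ← integral_const_mul]
      refine integral_congr_ae (Eventually.of_forall fun ζ => ?_)
      simp only [hF]
      ring
    simp only [e]
    rw [integral_mul_const, hκ, ← intervalIntegral.integral_of_le hT.le, int_sin T hT]
  have hr : ∀ ζ : W n, ∫ t, F (t, ζ) ∂κ =
      χ ζ.1 * ∫ t in (0 : ℝ)..T, Real.sin (Real.pi * t / T) ^ 2 * f (φ t ζ) := by
    intro ζ
    simp only [hF]
    rw [integral_const_mul, hκ, ← intervalIntegral.integral_of_le hT.le]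
  have hri : Integrable (fun ζ => ∫ t, F (t, ζ) ∂κ) μ := hFi.integral_prod_right
  rw [← hl, hsw, hm, ← integral_const_mul]
  refine setIntegral_mono_on (im.const_mul _) hri hBm fun ζ hζ => ?_
  rw [hr ζ, mul_comm]
  exact mul_le_mul_of_nonneg_left
    (h5 n G hG g hR hI hM z l V τ ψ hA φ M hφ ζ hζ T hT) (hχ.nonneg _)

end Pool.Agent.PIN
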