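import Pool.Agent.Work.MP_13b5d9_gt.PI.Stmts

set_option autoImplicit false
set_option maxSynthPendingDepth 3

/-!
# MP_13b5d9_gt, block PI: the index inequality
-/

open MeasureTheory Set Filter Topology
open scoped ContDiff ENNReal

namespace Pool.Agent.PIN

open Pool.Agent.MLS Pool.Agent.STR

namespace IIdx

/-- pull-back of `b` along the flow, evaluated at the velocity of `c` -/
noncomputable def P {n : ℕ} (ψ : ℝ → E n → E n) (c : ℝ → E n)
    (b : E n → E n →L[ℝ] E n →L[ℝ] ℝ) (r t : ℝ) : ℝ :=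
  b (ψ r (c t)) (fderiv ℝ (ψ r) (c t) (deriv c t)) (fderiv ℝ (ψ r) (c t) (deriv c t))

theorem P_cont {n : ℕ} {ψ : ℝ → E n → E n} {c : ℝ → E n} {b : E n → E n →L[ℝ] E n →L[ℝ] ℝ}
    (hF : Continuous (fun p : ℝ × E n => ψ p.1 p.2))
    (hD : Continuous (fun p : ℝ × E n => fderiv ℝ (ψ p.1) p.2))
    (hb : Continuous b) (hc : Continuous c) (hc' : Continuous (deriv c)) :
    Continuous (fun p : ℝ × ℝ => P ψ c b p.1 p.2) := by
  have h0 : Continuous (fun p : ℝ × ℝ => ((p.1, c p.2) : ℝ × E n)) :=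
    continuous_fst.prodMk (hc.comp continuous_snd)
  have h1 : Continuous (fun p : ℝ × ℝ => ψ p.1 (c p.2)) := hF.comp h0
  have h2 : Continuous (fun p : ℝ × ℝ => fderiv ℝ (ψ p.1) (c p.2)) := hD.comp h0
  have h3 : Continuous (fun p : ℝ × ℝ => fderiv ℝ (ψ p.1) (c p.2) (deriv c p.2)) :=
    h2.clm_apply (hc'.comp continuous_snd)
  exact ((hb.comp h1).clm_apply h3).clm_apply h3

theorem P_zero {n : ℕ} {ψ : ℝ → E n → E n} (c : ℝ → E n) (b : E n → E n →L[ℝ] E n →L[ℝ] ℝ)
    (h : ∀ x, ψ 0 x = x) (t : ℝ) : P ψ c b 0 t = b (c t) (deriv c t) (deriv c t) := by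
  have h0 : ψ 0 = id := funext h
  unfold P
  rw [h0, fderiv_id]
  rfl

end IIdx

open IIdx in
/-- the index inequality -/
theorem pr_Idx (h1 : StGd) (h2 : PiLie) (h3 : PiFlo) (h4 : PiA) (h5 : PiTay) (h6 : PiCalc)
    (h7 : PiVar) : PiIdx := by
  intro n G _ _ g z l V τ ψ hM hA c hc hu T hT f hf hf0 hfT
  have hV := hA.smoothV
  have hg : ContDiff ℝ ∞ g.val := g.smooth
  obtain ⟨hL1s, -, -⟩ := h2 n V g.val hV hg
  obtain ⟨hL2s, -, -⟩ := h2 n V (Lie V g.val) hV hL1s
  obtain ⟨hDs, hd0⟩ := h3 n V g.val ψ hV hg hA.smoothF hA.ode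
  obtain ⟨-, hd1⟩ := h3 n V (Lie V g.val) ψ hV hL1s hA.smoothF hA.ode
  have hc2 : ContDiff ℝ 2 c := hc.smooth
  have hc1 : ContDiff ℝ 1 c := hc2.of_le (by norm_num)
  have hcc : Continuous c := hc2.continuous
  have hc'c : Continuous (deriv c) := hc1.continuous_deriv le_rfl
  obtain ⟨k, hkc, hk, hk0⟩ := h5 (P ψ c g.val) (P ψ c (Lie V g.val)) (P ψ c (Lie V (Lie V g.val)))
    (P_cont hA.smoothF.continuous hDs.continuous hL2s.continuous hcc hc'c)
    (fun r t => hd0 (c t) (deriv c t) (deriv c t) r)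
    (fun r t => hd1 (c t) (deriv c t) (deriv c t) r)
  -- the function `a`
  have ha := (h4 n g V hV c hc).1
  have hac : Continuous (fun t => g.val (c t) (V (c t)) (deriv c t)) :=
    continuous_iff_continuousAt.2 fun t => (ha t).continuousAt
  have hfd : ∀ t, HasDerivAt f (deriv f t) t := fun t =>
    (hf.differentiable (by norm_num) t).hasDerivAt
  have hf'c : Continuous (deriv f) := hf.continuous_deriv le_rfl
  have hL1c : Continuous (fun t => Lie V g.val (c t) (deriv c t) (deriv c t)) :=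
    ((hL1s.continuous.comp hcc).clm_apply hc'c).clm_apply hc'c
  obtain ⟨q, hqdef⟩ : ∃ q : ℝ → ℝ, ∀ t, q t = 1 / 2 * Lie V g.val (c t) (deriv c t) (deriv c t) *
      f t + g.val (c t) (V (c t)) (deriv c t) * deriv f t := ⟨_, fun _ => rfl⟩
  have hqc : Continuous q := by
    have h8 : q = fun t => 1 / 2 * Lie V g.val (c t) (deriv c t) (deriv c t) *
      f t + g.val (c t) (V (c t)) (deriv c t) * deriv f t := funext hqdef
    rw [h8]
    exact ((continuous_const.mul hL1c).mul hf.continuous).add (hac.mul hf'c)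
  have hq : ∀ t, HasDerivAt (fun t => g.val (c t) (V (c t)) (deriv c t) * f t) (q t) t := by
    intro t
    rw [hqdef]
    exact (ha t).mul (hfd t)
  have hqi : (∫ t in (0 : ℝ)..T, q t) = 0 := by
    rw [intervalIntegral.integral_eq_sub_of_hasDerivAt (fun t _ => hq t)
      (hqc.intervalIntegrable _ _), hf0, hfT, mul_zero, mul_zero, sub_zero]
  obtain ⟨u, hudef⟩ : ∃ u : ℝ → ℝ → ℝ, ∀ s t, u s t = (deriv f t) ^ 2 +
      f t ^ 2 * k (s * f t) t - q t ^ 2 := ⟨_, fun _ _ => rfl⟩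
  have huc : Continuous (fun p : ℝ × ℝ => u p.1 p.2) := by
    have h8 : (fun p : ℝ × ℝ => u p.1 p.2) = fun p : ℝ × ℝ => (deriv f p.2) ^ 2 +
      f p.2 ^ 2 * k (p.1 * f p.2) p.2 - q p.2 ^ 2 := funext fun p => hudef p.1 p.2
    rw [h8]
    have h9 : Continuous (fun p : ℝ × ℝ => k (p.1 * f p.2) p.2) :=
      hkc.comp ((continuous_fst.mul (hf.continuous.comp continuous_snd)).prodMk continuous_snd)
    exact ((((hf'c.comp continuous_snd).pow 2).add
      (((hf.continuous.comp continuous_snd).pow 2).mul h9)).sub ((hqc.comp continuous_snd).pow 2))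
  have key : ∀ s t, g.val (ψ (s * f t) (c t)) (deriv (fun t => ψ (s * f t) (c t)) t)
      (deriv (fun t => ψ (s * f t) (c t)) t) = (1 + s * q t) ^ 2 + s ^ 2 * u s t := by
    intro s t
    have h8 := (h7 n G g z l V τ ψ hA c f hc1 hf s).2 t
    have h9 := hk (s * f t) t
    rw [P_zero c g.val hA.zero, P_zero c (Lie V g.val) hA.zero, hu t] at h9
    have h10 : P ψ c g.val (s * f t) t = g.val (ψ (s * f t) (c t))
      (fderiv ℝ (ψ (s * f t)) (c t) (deriv c t)) (fderiv ℝ (ψ (s * f t)) (c t) (deriv c t)) := rfl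
    rw [h8, ← h10, h9, hudef, hqdef]
    ring
  have hmain := h6 T u q hT huc hqc hqi (fun s t => by rw [← key]; exact g.nonneg _ _) (by
    intro s
    have h8 := (h1 n g).2.2.2 (fun t => ψ (s * f t) (c t)) 0 T
      (h7 n G g z l V τ ψ hA c f hc1 hf s).1 hT.le
    have h9 : ψ (s * f 0) (c 0) = c 0 := by rw [hf0, mul_zero, hA.zero]
    have h10 : ψ (s * f T) (c T) = c T := by rw [hfT, mul_zero, hA.zero]
    have h11 := hM c hc hu 0 T
    simp only [h9, h10] at h8
    rw [h11, zero_sub, abs_neg, abs_of_pos hT] at h8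
    refine h8.trans (le_of_eq ?_)
    refine intervalIntegral.integral_congr fun t _ => ?_
    simp only [nrm]
    rw [key])
  refine hmain.trans (le_of_eq ?_)
  refine intervalIntegral.integral_congr fun t _ => ?_
  rw [hudef, zero_mul, hk0, P_zero c _ hA.zero, hqdef]
  ring

end Pool.Agent.PIN
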