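import Pool.Agent.Work.MP_13b5d9_gt.PI.Stmts

set_option autoImplicit false
set_option maxSynthPendingDepth 3

/-!
# MP_13b5d9_gt, block PI, item Int: the integral of the second derivative
-/

open MeasureTheory Set Filter Topology
open scoped ContDiff ENNReal

namespace Pool.Agent.PIN

open Pool.Agent.MLS Pool.Agent.STR

namespace IInt

/-- a continuous function times a continuous function with compact support is integrable -/
theorem integrable {n : ℕ} {χ F : E n → ℝ} (hχ : Continuous χ) (hc : HasCompactSupport χ)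
    (hF : Continuous F) : Integrable (fun x => χ x * F x) :=
  (hχ.mul hF).integrable_of_hasCompactSupport hc.mul_right

end IInt

theorem pr_Int (h1 : StDens) (h2 : StDivZ) (h3 : PiLie) (h4 : PiInv) (h5 : PiTr) (h6 : PiDv)
    (h7 : PiTbI) : PiInt := by
  intro n G _ _ hG g hg hgi V hV hVi χ hχ
  obtain ⟨-, hdens, hd⟩ := h1 n g hg
  obtain ⟨hdi, -⟩ := hd G hG hgi
  have hL1 : ContDiff ℝ ∞ (Lie V g.val) := (h3 n V g.val hV g.smooth).1
  have hL2 : ContDiff ℝ ∞ (Lie V (Lie V g.val)) := (h3 n V (Lie V g.val) hV hL1).1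
  obtain ⟨ht, hnb, hder⟩ := h5 n g hg V hV (Lie V g.val) hL1
  obtain ⟨ht2, -, -⟩ := h5 n g hg V hV (Lie V (Lie V g.val)) hL2
  have hinv : ∀ (a : G) (x u v : E n),
      Lie V g.val (a • x) (dac a x u) (dac a x v) = Lie V g.val x u v :=
    h4 n G hG V g.val hV g.smooth hVi hgi
  have htinv : ∀ (a : G) (x : E n), tb g (Lie V g.val) (a • x) = tb g (Lie V g.val) x :=
    fun a x => (h7 n G hG g hg hgi (Lie V g.val) hinv a x).1
  have key := h2 n G hG χ hχ (dens g) hdens hdi (fun y => tb g (Lie V g.val) y • V y)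
    (ht.smul hV) (by
      intro a x
      show tb g (Lie V g.val) (a • x) • V (a • x) = dac a x (tb g (Lie V g.val) x • V x)
      rw [htinv a x, hVi a x, map_smul])
  have hpt : ∀ x, χ x * ∑ j, fderiv ℝ (fun y => dens g y *
      (fun y => tb g (Lie V g.val) y • V y) y j) x (ee j) =
      χ x * (tb g (Lie V (Lie V g.val)) x * dens g x) -
      χ x * ((nb g (Lie V g.val) x - 1 / 2 * tb g (Lie V g.val) x ^ 2) * dens g x) := by
    intro x
    have e1 := h6 n g hg V hV (tb g (Lie V g.val)) ht x
    have e2 := hder x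
    have e3 : dvg g V x = 1 / 2 * tb g (Lie V g.val) x := rfl
    have e4 : (((gm g x)⁻¹ * bm (Lie V g.val) x) * ((gm g x)⁻¹ * bm (Lie V g.val) x)).trace =
      nb g (Lie V g.val) x := rfl
    rw [e4] at e2
    rw [e3, e2] at e1
    rw [show (∑ j, fderiv ℝ (fun y => dens g y *
      (fun y => tb g (Lie V g.val) y • V y) y j) x (ee j)) =
      ∑ j, fderiv ℝ (fun y => dens g y * (tb g (Lie V g.val) y • V y) j) x (ee j) from rfl, e1]
    ring
  rw [integral_congr_ae (Eventually.of_forall hpt), integral_sub] at key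
  · linarith
  · exact IInt.integrable hχ.smooth.continuous hχ.cpt (ht2.continuous.mul hdens.continuous)
  · exact IInt.integrable hχ.smooth.continuous hχ.cpt
      ((hnb.continuous.sub ((ht.continuous.pow 2).const_mul _)).mul hdens.continuous)

end Pool.Agent.PIN
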