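import Mathlib
import Pool.Agent.Work.MP_13b5d9_gt.PI.Stmts

set_option autoImplicit false

/-!
# MP_13b5d9_gt, block PI, item Inv (helper9): invariance of Lie derivatives
-/

open MeasureTheory Set Filter Topology
open scoped ContDiff ENNReal
open Pool.Agent.Work.MP_c9f990_an.Al (IsFlow)

namespace Pool.Agent.PIN

open Pool.Agent.MLS Pool.Agent.STR

namespace IInv

section general

variable {X F : Type*} [NormedAddCommGroup X] [NormedSpace ℝ X] [NormedAddCommGroup F]
  [NormedSpace ℝ F]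

theorem line (x w : X) : HasDerivAt (fun s : ℝ => x + s • w) w 0 := by
  have h := ((hasDerivAt_id (0 : ℝ)).smul_const w).const_add x
  simpa using h

theorem along {f : X → F} {x : X} (hf : DifferentiableAt ℝ f x) (w : X) :
    HasDerivAt (fun s : ℝ => f (x + s • w)) (fderiv ℝ f x w) 0 := by
  have h1 : HasFDerivAt f (fderiv ℝ f x) (x + (0 : ℝ) • w) := by
    rw [zero_smul, add_zero]
    exact hf.hasFDerivAt
  exact h1.comp_hasDerivAt (0 : ℝ) (line x w)

theorem along2 {f : X → F} {A : X → X} {x : X} (hf : DifferentiableAt ℝ f (A x))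
    (hA : DifferentiableAt ℝ A x) (w : X) :
    HasDerivAt (fun s : ℝ => f (A (x + s • w))) (fderiv ℝ f (A x) (fderiv ℝ A x w)) 0 := by
  have h1 : HasFDerivAt f (fderiv ℝ f (A x)) (A (x + (0 : ℝ) • w)) := by
    rw [zero_smul, add_zero]
    exact hf.hasFDerivAt
  exact h1.comp_hasDerivAt (0 : ℝ) (along hA w)

theorem lin {L : ℝ → X →L[ℝ] F} {L' : X →L[ℝ] F} {p : ℝ → X} {p' : X} {t : ℝ}
    (h : HasDerivAt L L' t) (hp : HasDerivAt p p' t) :
    HasDerivAt (fun s => L s (p s)) (L' (p t) + L t p') t := h.clm_apply hp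

theorem bil {β : ℝ → X →L[ℝ] X →L[ℝ] F} {β' : X →L[ℝ] X →L[ℝ] F} {p q : ℝ → X} {p' q' : X}
    {t : ℝ} (h : HasDerivAt β β' t) (hp : HasDerivAt p p' t) (hq : HasDerivAt q q' t) :
    HasDerivAt (fun s => β s (p s) (q s))
      (β' (p t) (q t) + β t p' (q t) + β t (p t) q') t := by
  have h1 := (h.clm_apply hp).clm_apply hq
  exact h1

/-- the computation of the item -/
theorem main {b : X → X →L[ℝ] X →L[ℝ] F} {V A : X → X} {x : X}
    (hA : ContDiff ℝ ∞ A) (hV : Differentiable ℝ V) (hb : Differentiable ℝ b)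
    (hVi : ∀ y, V (A y) = fderiv ℝ A y (V y))
    (hbi : ∀ y u v, b (A y) (fderiv ℝ A y u) (fderiv ℝ A y v) = b y u v) (u v : X) :
    fderiv ℝ b (A x) (V (A x)) (fderiv ℝ A x u) (fderiv ℝ A x v) +
      b (A x) (fderiv ℝ V (A x) (fderiv ℝ A x u)) (fderiv ℝ A x v) +
      b (A x) (fderiv ℝ A x u) (fderiv ℝ V (A x) (fderiv ℝ A x v)) =
    fderiv ℝ b x (V x) u v + b x (fderiv ℝ V x u) v + b x u (fderiv ℝ V x v) := by
  have hD : ContDiff ℝ ∞ (fderiv ℝ A) := hA.fderiv_right (by norm_num)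
  have dD : DifferentiableAt ℝ (fderiv ℝ A) x := (hD.differentiable (by simp)) x
  have dA : DifferentiableAt ℝ A x := (hA.differentiable (by simp)) x
  set D2 := fderiv ℝ (fderiv ℝ A) x with hD2
  have hsym : ∀ p q : X, D2 p q = D2 q p := by
    intro p q
    have h1 : IsSymmSndFDerivAt ℝ A x := by
      refine hA.contDiffAt.isSymmSndFDerivAt ?_
      rw [minSmoothness_of_isRCLikeNormedField]
      exact ENat.LEInfty.out
    exact h1 p q
  have hDu : ∀ w q : X, HasDerivAt (fun s : ℝ => fderiv ℝ A (x + s • w) q) (D2 w q) 0 := by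
    intro w q
    have h3 := lin (along dD w) (hasDerivAt_const (0 : ℝ) q)
    simpa using h3
  -- derivative of the invariance of the field
  have e1 : ∀ p : X, fderiv ℝ V (A x) (fderiv ℝ A x p) =
      D2 p (V x) + fderiv ℝ A x (fderiv ℝ V x p) := by
    intro p
    have h1 := along2 (hV (A x)) dA p
    have h2 := lin (along dD p) (along (hV x) p)
    have h4 : (fun s : ℝ => V (A (x + s • p))) =
        fun s : ℝ => fderiv ℝ A (x + s • p) (V (x + s • p)) := by
      funext s
      exact hVi _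
    rw [h4] at h1
    have h5 := h1.unique h2
    rw [h5, zero_smul, add_zero]
  -- derivative of the invariance of the form
  have e2 : fderiv ℝ b (A x) (fderiv ℝ A x (V x)) (fderiv ℝ A x u) (fderiv ℝ A x v) +
      b (A x) (D2 (V x) u) (fderiv ℝ A x v) + b (A x) (fderiv ℝ A x u) (D2 (V x) v) =
      fderiv ℝ b x (V x) u v := by
    have h0 : HasDerivAt (fun s : ℝ => b (A (x + s • V x)))
        (fderiv ℝ b (A x) (fderiv ℝ A x (V x))) 0 :=
      along2 (F := X →L[ℝ] X →L[ℝ] F) (hb (A x)) dA (V x)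
    have h1 : HasDerivAt (fun s : ℝ => b (x + s • V x)) (fderiv ℝ b x (V x)) 0 :=
      along (F := X →L[ℝ] X →L[ℝ] F) (hb x) (V x)
    have h2 := bil h0 (hDu (V x) u) (hDu (V x) v)
    have h5 := bil h1 (hasDerivAt_const (0 : ℝ) u) (hasDerivAt_const (0 : ℝ) v)
    have h4 : (fun s : ℝ => b (A (x + s • V x)) (fderiv ℝ A (x + s • V x) u)
        (fderiv ℝ A (x + s • V x) v)) = fun s : ℝ => b (x + s • V x) u v := by
      funext s
      exact hbi _ u v
    rw [h4] at h2
    have h6 := h2.unique h5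
    simp only [zero_smul, add_zero, map_zero] at h6
    rw [h6]
    simp
  have h7 : ∀ (L : X →L[ℝ] X →L[ℝ] F) (p q r : X), L (p + q) r = L p r + L q r := by
    intro L p q r
    rw [map_add]
    rfl
  rw [hVi x, e1, e1, h7, map_add, hsym u (V x), hsym v (V x), ← e2, ← hbi x (fderiv ℝ V x u) v,
    ← hbi x u (fderiv ℝ V x v)]
  abel

end general

theorem lie_apply {n : ℕ} (V : E n → E n) (b : E n → E n →L[ℝ] E n →L[ℝ] ℝ) (x u v : E n) :
    Lie V b x u v = fderiv ℝ b x (V x) u v + b x (fderiv ℝ V x u) v +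
      b x u (fderiv ℝ V x v) := rfl

end IInv

open IInv in
theorem pr_Inv : PiInv := by
  intro n G _ _ hG V b hV hb hVi hbi a x u v
  rw [lie_apply, lie_apply]
  exact main (A := fun y : E n => a • y) (hG.smooth a) (hV.differentiable (by simp))
    (hb.differentiable (by simp)) (fun y => hVi a y) (fun y u v => hbi a y u v) u v

end Pool.Agent.PIN
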