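import Pool.Agent.Work.MP_13b5d9_gt.PI.Stmts

set_option autoImplicit false

/-!
# MP_13b5d9_gt, block PI, item Iso: if the Lie derivative vanishes then the flow preserves the metric
-/

open MeasureTheory Set Filter Topology
open scoped ContDiff ENNReal

namespace Pool.Agent.PIN

open Pool.Agent.MLS Pool.Agent.STR

/-- Item Iso. -/
theorem pr_Iso (h : PiFlo) : PiIso := by
  intro n G _ _ g z l V τ ψ hA hL t x u v
  have h1 := (h n V g.val ψ hA.smoothV g.smooth hA.smoothF hA.ode).2 x u v
  have h2 : ∀ t, HasDerivAt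
      (fun r => g.val (ψ r x) (fderiv ℝ (ψ r) x u) (fderiv ℝ (ψ r) x v)) 0 t := by
    intro t
    have h3 := h1 t
    rw [hL] at h3
    exact h3
  have h4 := is_const_of_deriv_eq_zero (fun t => (h2 t).differentiableAt)
    (fun t => (h2 t).deriv) t 0
  have h5 : ψ 0 = id := funext hA.zero
  rw [h4, h5, fderiv_id]
  rfl

end Pool.Agent.PIN
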