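import Pool.Agent.Work.MP_13b5d9_gt.PI.Stmts

set_option autoImplicit false

/-!
# MP_13b5d9_gt, block PI, item LV: the Lie derivatives vanish on the canonical field
-/

open MeasureTheory Set Filter Topology
open scoped ContDiff ENNReal

namespace Pool.Agent.PIN

open Pool.Agent.MLS Pool.Agent.STR

namespace ILV

variable {n : ℕ} {G : Type} [Group G] [MulAction G (E n)] {g : Form n} {z : G} {l : ℝ}
  {V : E n → E n} {τ : E n → ℝ} {ψ : ℝ → E n → E n}

theorem smooth (h : Axis n G g z l V τ ψ) (t : ℝ) : ContDiff ℝ ∞ (ψ t) := by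
  have h1 : ContDiff ℝ ∞ (fun x : E n => (t, x)) := contDiff_const.prodMk contDiff_id
  exact h.smoothF.comp h1

theorem diff (h : Axis n G g z l V τ ψ) (t : ℝ) : Differentiable ℝ (ψ t) :=
  (smooth h t).differentiable (by simp)

theorem fderiv_zero (h : Axis n G g z l V τ ψ) (x u : E n) : fderiv ℝ (ψ 0) x u = u := by
  have h1 : ψ 0 = id := by
    funext y
    exact h.zero y
  rw [h1, fderiv_id]
  rfl

theorem push (h : Axis n G g z l V τ ψ) (t : ℝ) (x : E n) :
    fderiv ℝ (ψ t) x (V x) = V (ψ t x) := by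
  have h1 : HasDerivAt (fun s => ψ (t + s) x) (V (ψ t x)) 0 := by
    have h2 : HasDerivAt (fun s => ψ s x) (V (ψ (t + 0) x)) (t + 0) := h.ode x (t + 0)
    have h3 := h2.comp_const_add t (0 : ℝ)
    rwa [add_zero] at h3
  have h4 : HasDerivAt (fun s => ψ t (ψ s x)) (fderiv ℝ (ψ t) x (V x)) 0 := by
    have h5 : HasDerivAt (fun s => ψ s x) (V x) 0 := by
      have := h.ode x 0
      rwa [h.zero] at this
    have h6 : HasFDerivAt (ψ t) (fderiv ℝ (ψ t) x) (ψ 0 x) := by
      rw [h.zero]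
      exact (diff h t x).hasFDerivAt
    exact h6.comp_hasDerivAt (0 : ℝ) h5
  have h7 : (fun s => ψ (t + s) x) = fun s => ψ t (ψ s x) := by
    funext s
    exact h.add t s x
  rw [h7] at h1
  exact h4.unique h1

theorem prod (h : Axis n G g z l V τ ψ) (t : ℝ) (x w : E n) :
    g.val (ψ t x) (V (ψ t x)) (fderiv ℝ (ψ t) x w) = g.val x (V x) w := by
  rw [← h.grad, ← h.grad]
  have hτ : Differentiable ℝ τ := h.smoothT.differentiable (by simp)
  have h1 : HasFDerivAt (fun y => τ (ψ t y)) ((fderiv ℝ τ (ψ t x)).comp (fderiv ℝ (ψ t) x)) x :=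
    (hτ (ψ t x)).hasFDerivAt.comp x (diff h t x).hasFDerivAt
  have h2 : (fun y => τ (ψ t y)) = fun y => τ y + t := by
    funext y
    exact h.height t y
  rw [h2] at h1
  have h3 : HasFDerivAt (fun y => τ y + t) (fderiv ℝ τ x) x := (hτ x).hasFDerivAt.add_const t
  have h4 := congrArg (fun L : E n →L[ℝ] ℝ => L w) (h1.unique h3)
  simpa using h4

end ILV

theorem pr_LV (h1 : PiLie) (h2 : PiFlo) : PiLV := by
  intro n G _ _ g z l V τ ψ h
  have hP := ILV.push h
  have hQ := ILV.prod h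
  have key : ∀ b : E n → E n →L[ℝ] E n →L[ℝ] ℝ, ContDiff ℝ ∞ b → ∀ (x w : E n) (C : ℝ),
      (∀ r, b (ψ r x) (V (ψ r x)) (fderiv ℝ (ψ r) x w) = C) → Lie V b x (V x) w = 0 := by
    intro b hb x w C hC
    have h3 := (h2 n V b ψ h.smoothV hb h.smoothF h.ode).2 x (V x) w 0
    have h4 : (fun r => b (ψ r x) (fderiv ℝ (ψ r) x (V x)) (fderiv ℝ (ψ r) x w)) =
        fun _ => C := by
      funext r
      rw [hP]
      exact hC r
    rw [h4, ILV.fderiv_zero h, ILV.fderiv_zero h, h.zero] at h3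
    exact h3.unique (hasDerivAt_const (0 : ℝ) C)
  have hL1 : ∀ x w, Lie V g.val x (V x) w = 0 := by
    intro x w
    exact key g.val g.smooth x w (g.val x (V x) w) (fun r => hQ r x w)
  refine ⟨hP, hQ, fun x w => ⟨hL1 x w, ?_⟩⟩
  exact key (Lie V g.val) (h1 n V g.val h.smoothV g.smooth).1 x w 0 (fun r => hL1 _ _)

end Pool.Agent.PIN
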