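import Mathlib
import Pool.Agent.Work.MP_13b5d9_gt.PI.Stmts
import Pool.Agent.Work.MP_25cd3b_gt.M.I_Main

set_option autoImplicit false

/-!
# MP_13b5d9_gt, block PI, item Main: the shear inequality
-/

open MeasureTheory Set Filter Topology
open scoped ContDiff ENNReal

namespace Pool.Agent.PIN

open Pool.Agent.MLS Pool.Agent.STR

namespace IMain

/-- integrability of continuous functions multiplied with the cut off function -/
theorem intg {n : ℕ} {χ : E n → ℝ} (hχ : Continuous χ) (hc : HasCompactSupport χ) {f : E n → ℝ}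
    (hf : Continuous f) : Integrable (fun x => χ x * f x) :=
  (hχ.mul hf).integrable_of_hasCompactSupport hc.mul_right

/-- Fubini for the index density -/
theorem fubini {n : ℕ} (h1 : StSub) (h2 : StOp) (g : Form n) (hR : Riem g) (χ : E n → ℝ)
    (hχ : Continuous χ) (hχ0 : ∀ x, 0 ≤ χ x) (hc : HasCompactSupport χ) (F : E n → E n → ℝ)
    (hF : Measurable (fun ζ : W n => F ζ.1 (vel g ζ))) (C : ℝ)
    (hC : ∀ ζ : W n, |F ζ.1 (vel g ζ)| ≤ C * Hm g ζ) :
    ∫ ζ in {ζ : W n | Hm g ζ ≤ 1 / 2}, χ ζ.1 * F ζ.1 (vel g ζ) =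
      ∫ x, χ x * ∫ p in {p : E n | Hm g (x, p) ≤ 1 / 2}, F x (vel g (x, p)) := by
  have hHc : Continuous (Hm g) := (h2 n g hR).2.2.2.2.2.2.2.1.continuous
  set B : Set (W n) := {z : W n | Hm g z ≤ 1 / 2} with hB
  have hBm : MeasurableSet B := measurableSet_le hHc.measurable measurable_const
  set f : W n → ℝ := fun z => χ z.1 * F z.1 (vel g z) with hf
  have hfm : Measurable f := (hχ.measurable.comp measurable_fst).mul hF
  have hdom : IntegrableOn (fun z : W n => χ z.1 * (C * Hm g z)) B :=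
    Pool.Agent.MLS.IMain.integrableOn_disk h1 h2 g hR χ hχ hc _ (continuous_const.mul hHc)
  have hint : IntegrableOn f B := by
    refine Integrable.mono' hdom hfm.aestronglyMeasurable ?_
    refine Eventually.of_forall fun z => ?_
    rw [Real.norm_eq_abs, hf]
    change |χ z.1 * F z.1 (vel g z)| ≤ χ z.1 * (C * Hm g z)
    rw [abs_mul, abs_of_nonneg (hχ0 _)]
    exact mul_le_mul_of_nonneg_left (hC z) (hχ0 _)
  have hint2 : Integrable (B.indicator f) (volume : Measure (W n)) :=
    (integrable_indicator_iff hBm).2 hint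
  rw [← integral_indicator hBm]
  have e0 : ∫ z, B.indicator f z = ∫ x, ∫ p, B.indicator f (x, p) := by
    rw [Measure.volume_eq_prod] at hint2 ⊢
    exact integral_prod _ hint2
  rw [e0]
  refine integral_congr_ae (Eventually.of_forall fun x => ?_)
  change ∫ p, B.indicator f (x, p) =
    χ x * ∫ p in {p : E n | Hm g (x, p) ≤ 1 / 2}, F x (vel g (x, p))
  have hBx : MeasurableSet {p : E n | Hm g (x, p) ≤ 1 / 2} :=
    measurableSet_le (hHc.comp (continuous_const.prodMk continuous_id)).measurable measurable_const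
  have e1 : (fun p => B.indicator f (x, p)) =
      {p : E n | Hm g (x, p) ≤ 1 / 2}.indicator
        (fun p => χ x * F x (vel g (x, p))) := by
    funext p
    by_cases hp : Hm g (x, p) ≤ 1 / 2
    · rw [indicator_of_mem (show (x, p) ∈ B from hp),
        indicator_of_mem (show p ∈ {p : E n | Hm g (x, p) ≤ 1 / 2} from hp)]
    · rw [indicator_of_notMem (show (x, p) ∉ B from hp),
        indicator_of_notMem (show p ∉ {p : E n | Hm g (x, p) ≤ 1 / 2} from hp)]
  rw [e1, integral_indicator hBx, integral_const_mul]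

end IMain

theorem pr_Main (h1 : StSub) (h2 : StOp) (h3 : StDens) (h4 : PiLie) (h5 : PiLV) (h6 : PiMea)
    (h7 : PiFlu) (h8 : PiFib) (h9 : PiInt) (h10 : PiTr) : PiMain := by
  intro m G _ _ hm hG g hR hI hM z l V τ ψ hA χ hχ
  have hmR : (0 : ℝ) < m := by exact_mod_cast hm
  have hcn : 0 < cn (m + 1) := Pool.Agent.MLS.IMain.cn_pos (Nat.succ_pos m)
  have hV := hA.smoothV
  have hχc : Continuous χ := hχ.smooth.continuous
  have hdens : Continuous (dens g) := (h3 (m + 1) g hR).2.1.continuous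
  obtain ⟨hL1s, -, hL1sym⟩ := h4 (m + 1) V g.val hV g.smooth
  obtain ⟨hL2s, -, hL2sym⟩ := h4 (m + 1) V (Lie V g.val) hV hL1s
  have hsym1 := hL1sym g.symm
  have hsym2 := hL2sym hsym1
  obtain ⟨-, -, hLV⟩ := h5 (m + 1) G g z l V τ ψ hA
  obtain ⟨hmeas, -, C, -, hC⟩ := h6 (m + 1) G hG g hR hI z l V τ ψ hA
  obtain ⟨ht1, hn1, -⟩ := h10 (m + 1) g hR V hV (Lie V g.val) hL1s
  obtain ⟨ht2, -, -⟩ := h10 (m + 1) g hR V hV (Lie V (Lie V g.val)) hL2s
  have c1 : Continuous (tb g (Lie V g.val)) := ht1.continuous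
  have c2 : Continuous (nb g (Lie V g.val)) := hn1.continuous
  have c3 : Continuous (tb g (Lie V (Lie V g.val))) := ht2.continuous
  have hflu := h7 (m + 1) G hG g hR hI hM z l V τ ψ hA χ hχ
  rw [IMain.fubini h1 h2 g hR χ hχc hχ.nonneg hχ.cpt (FF g V) hmeas C hC] at hflu
  have hfib : ∀ x, ∫ p in {p : E (m + 1) | Hm g (x, p) ≤ 1 / 2}, FF g V x (vel g (x, p)) =
      (tb g (Lie V (Lie V g.val)) x / (2 * m) -
        (2 * nb g (Lie V g.val) x + tb g (Lie V g.val) x ^ 2) / (4 * m * (m + 2))) *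
        (cn (m + 1) * dens g x) := by
    intro x
    exact h8 m g hm hR x (V x) (hA.unit x) (Lie V g.val x) (Lie V (Lie V g.val) x)
      (hsym1 x) (hsym2 x) (fun v => (hLV x v).1) (fun v => (hLV x v).2)
  simp only [hfib] at hflu
  set N := ∫ x, χ x * (nb g (Lie V g.val) x * dens g x) with hN
  set S := ∫ x, χ x * (tb g (Lie V g.val) x ^ 2 * dens g x) with hS
  have iN : Integrable (fun x => χ x * (nb g (Lie V g.val) x * dens g x)) :=
    IMain.intg hχc hχ.cpt (c2.mul hdens)
  have iS : Integrable (fun x => χ x * (tb g (Lie V g.val) x ^ 2 * dens g x)) :=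
    IMain.intg hχc hχ.cpt ((c1.pow 2).mul hdens)
  have iT : Integrable (fun x => χ x * (tb g (Lie V (Lie V g.val)) x * dens g x)) :=
    IMain.intg hχc hχ.cpt (c3.mul hdens)
  have hT : ∫ x, χ x * (tb g (Lie V (Lie V g.val)) x * dens g x) = N - 1 / 2 * S := by
    rw [h9 (m + 1) G hG g hR hI V hV hA.inv χ hχ, hN, hS, ← integral_const_mul,
      ← integral_sub iN (iS.const_mul (1 / 2))]
    refine integral_congr_ae (Eventually.of_forall fun x => ?_)
    change χ x * ((nb g (Lie V g.val) x - 1 / 2 * tb g (Lie V g.val) x ^ 2) * dens g x) =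
      χ x * (nb g (Lie V g.val) x * dens g x) -
        1 / 2 * (χ x * (tb g (Lie V g.val) x ^ 2 * dens g x))
    ring
  have hmain : ∫ x, χ x * ((tb g (Lie V (Lie V g.val)) x / (2 * m) -
        (2 * nb g (Lie V g.val) x + tb g (Lie V g.val) x ^ 2) / (4 * m * (m + 2))) *
        (cn (m + 1) * dens g x)) =
      cn (m + 1) / (2 * m) * (N - 1 / 2 * S) -
        (cn (m + 1) * 2 / (4 * m * (m + 2)) * N + cn (m + 1) / (4 * m * (m + 2)) * S) := by
    have iNS : Integrable (fun x => cn (m + 1) * 2 / (4 * m * (m + 2)) *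
        (χ x * (nb g (Lie V g.val) x * dens g x)) +
        cn (m + 1) / (4 * m * (m + 2)) * (χ x * (tb g (Lie V g.val) x ^ 2 * dens g x))) :=
      (iN.const_mul _).add (iS.const_mul _)
    rw [← hT, hN, hS, ← integral_const_mul, ← integral_const_mul, ← integral_const_mul,
      ← integral_add (iN.const_mul _) (iS.const_mul _),
      ← integral_sub (iT.const_mul _) iNS]
    refine integral_congr_ae (Eventually.of_forall fun x => ?_)
    change χ x * ((tb g (Lie V (Lie V g.val)) x / (2 * m) -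
        (2 * nb g (Lie V g.val) x + tb g (Lie V g.val) x ^ 2) / (4 * m * (m + 2))) *
        (cn (m + 1) * dens g x)) =
      cn (m + 1) / (2 * m) * (χ x * (tb g (Lie V (Lie V g.val)) x * dens g x)) -
        (cn (m + 1) * 2 / (4 * m * (m + 2)) * (χ x * (nb g (Lie V g.val) x * dens g x)) +
          cn (m + 1) / (4 * m * (m + 2)) * (χ x * (tb g (Lie V g.val) x ^ 2 * dens g x)))
    ring
  rw [hmain] at hflu
  have hkey : ((m : ℝ) + 3) * S ≤ (2 * m + 2) * N := by
    have e : cn (m + 1) / (2 * m) * (N - 1 / 2 * S) -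
        (cn (m + 1) * 2 / (4 * m * (m + 2)) * N + cn (m + 1) / (4 * m * (m + 2)) * S) =
        cn (m + 1) / (4 * m * (m + 2)) * ((2 * m + 2) * N - (m + 3) * S) := by
      have hm2 : (m : ℝ) + 2 ≠ 0 := by positivity
      field_simp
      ring
    rw [e] at hflu
    have hpos : 0 < cn (m + 1) / (4 * m * (m + 2)) := by positivity
    have := nonneg_of_mul_nonneg_right hflu hpos
    linarith
  have eD : ∫ x, χ x * (dvg g V x ^ 2 * dens g x) = 1 / 4 * S := by
    rw [hS, ← integral_const_mul]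
    refine integral_congr_ae (Eventually.of_forall fun x => ?_)
    change χ x * ((1 / 2 * tb g (Lie V g.val) x) ^ 2 * dens g x) =
      1 / 4 * (χ x * (tb g (Lie V g.val) x ^ 2 * dens g x))
    ring
  have eS : ∫ x, χ x * (shr g V x * dens g x) = 1 / 4 * N := by
    rw [hN, ← integral_const_mul]
    refine integral_congr_ae (Eventually.of_forall fun x => ?_)
    change χ x * ((1 / 4 * nb g (Lie V g.val) x) * dens g x) =
      1 / 4 * (χ x * (nb g (Lie V g.val) x * dens g x))
    ring
  rw [eD, eS]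
  linarith

end Pool.Agent.PIN
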