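import Pool.Agent.Work.MP_13b5d9_gt.PI.Stmts

set_option autoImplicit false

/-!
# MP_13b5d9_gt, block PI, item Mea: the index density on phase space
-/

open MeasureTheory Set Filter Topology
open scoped ContDiff ENNReal

namespace Pool.Agent.PIN

open Pool.Agent.MLS Pool.Agent.STR

namespace IMea

/-- the elementary inequality -/
theorem bound (q r p s b C1 C2 : ℝ) (hq : 0 ≤ q) (hb : 0 ≤ b) (h1 : |p| ≤ C1 * b)
    (h2 : |s| ≤ C2 * b) (_hC1 : 0 ≤ C1) (_hC2 : 0 ≤ C2) (hr : r = q * (s / (2 * b) -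
      p ^ 2 / (4 * b ^ 2))) : |r| ≤ (C2 / 2 + C1 ^ 2 / 4) * q := by
  subst hr
  rw [abs_mul, abs_of_nonneg hq, mul_comm]
  refine mul_le_mul_of_nonneg_right ?_ hq
  rcases hb.eq_or_lt with h | h
  · rw [← h]
    simp only [mul_zero, div_zero, ne_eq, OfNat.ofNat_ne_zero, not_false_eq_true, zero_pow,
      sub_zero, abs_zero]
    positivity
  · refine (abs_sub _ _).trans (add_le_add ?_ ?_)
    · rw [abs_div, abs_of_pos (show (0 : ℝ) < 2 * b by positivity),
        div_le_div_iff₀ (by positivity) (by positivity)]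
      nlinarith
    · rw [abs_of_nonneg (show (0 : ℝ) ≤ p ^ 2 / (4 * b ^ 2) by positivity),
        div_le_div_iff₀ (by positivity) (by positivity)]
      have h3 : p ^ 2 ≤ (C1 * b) ^ 2 := by
        rw [← sq_abs p]
        exact pow_le_pow_left₀ (abs_nonneg p) h1 2
      nlinarith

end IMea

open IMea in
/-- Mea: measurability, invariance and boundedness of the index density. -/
theorem pr_Mea (h1 : StOp) (h2 : StLftA) (h3 : PiLie) (h4 : PiLV) (h5 : PiInv) (h6 : PiBd) :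
    PiMea := by
  intro n G _ _ hG g hg hI z l V τ ψ hA
  obtain ⟨-, -, -, -, -, -, hiop, hHmc, hHm⟩ := h1 n g hg
  obtain ⟨hvel, -, -, -, -⟩ := h2 n G hG g hg hI
  obtain ⟨hL1s, hL1f, hL1sym⟩ := h3 n V g.val hA.smoothV g.smooth
  obtain ⟨hL2s, hL2f, hL2sym⟩ := h3 n V (Lie V g.val) hA.smoothV hL1s
  have hsym1 := hL1sym g.symm
  have hsym2 := hL2sym hsym1
  obtain ⟨-, -, hLV⟩ := h4 n G g z l V τ ψ hA
  have hI1 := h5 n G hG V g.val hA.smoothV g.smooth hA.inv hI
  have hI2 := h5 n G hG V (Lie V g.val) hA.smoothV hL1s hA.inv hI1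
  obtain ⟨hb0, hbI, hbd⟩ := h6 n G hG g hg hI V hA.smoothV hA.unit hA.inv
  obtain ⟨C1, hC1, hB1⟩ := hbd (Lie V g.val) hL1s hsym1 hI1 (fun x w => (hLV x w).1)
  obtain ⟨C2, hC2, hB2⟩ := hbd (Lie V (Lie V g.val)) hL2s hsym2 hI2 (fun x w => (hLV x w).2)
  have hv : Continuous (fun ζ : W n => vel g ζ) :=
    (hiop.continuous.comp continuous_fst).clm_apply continuous_snd
  have hq : Continuous (fun ζ : W n => g.val ζ.1 (vel g ζ) (vel g ζ)) :=
    ((g.smooth.continuous.comp continuous_fst).clm_apply hv).clm_apply hv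
  have hc1 : Continuous (fun ζ : W n => Lie V g.val ζ.1 (vel g ζ) (vel g ζ)) :=
    ((hL1s.continuous.comp continuous_fst).clm_apply hv).clm_apply hv
  have hc2 : Continuous (fun ζ : W n => Lie V (Lie V g.val) ζ.1 (vel g ζ) (vel g ζ)) :=
    ((hL2s.continuous.comp continuous_fst).clm_apply hv).clm_apply hv
  have hVc : Continuous (fun ζ : W n => V ζ.1) := hA.smoothV.continuous.comp continuous_fst
  have hca : Continuous (fun ζ : W n => g.val ζ.1 (V ζ.1) (vel g ζ)) :=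
    ((g.smooth.continuous.comp continuous_fst).clm_apply hVc).clm_apply hv
  have hcb : Continuous (fun ζ : W n => bb g V ζ.1 (vel g ζ)) := hq.sub (hca.pow 2)
  refine ⟨?_, ?_, 2 * (C2 / 2 + C1 ^ 2 / 4), by positivity, ?_⟩
  · unfold FF
    exact hq.measurable.mul ((hc2.measurable.div (hcb.measurable.const_mul 2)).sub
      ((hc1.measurable.pow_const 2).div ((hcb.measurable.pow_const 2).const_mul 4)))
  · intro a ζ
    have e1 : (lft g a ζ).1 = a • ζ.1 := rfl
    unfold FF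
    rw [e1, hvel a ζ, hI, hI2, hI1, hbI]
  · intro ζ
    have e1 := bound (g.val ζ.1 (vel g ζ) (vel g ζ)) (FF g V ζ.1 (vel g ζ))
      (Lie V g.val ζ.1 (vel g ζ) (vel g ζ)) (Lie V (Lie V g.val) ζ.1 (vel g ζ) (vel g ζ))
      (bb g V ζ.1 (vel g ζ)) C1 C2 (g.nonneg _ _) (hb0 _ _) (hB1 _ _) (hB2 _ _) hC1 hC2 rfl
    refine e1.trans (le_of_eq ?_)
    rw [hHm]
    ring

end Pool.Agent.PIN
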