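import Mathlib
import Pool.Agent.Work.MP_13b5d9_gt.PI.Stmts
import Pool.Agent.Work.MP_25cd3b_gt.M.I_Sym

set_option autoImplicit false

/-!
# MP_13b5d9_gt, block PI, item Mom: weighted second and fourth moments of the ball

For `u` orthogonal to `ee 0` the integrals of `‖ξ‖^2 ⟨u, ξ⟩^2 / R` and `‖ξ‖^2 ⟨u, ξ⟩^4 / R^2`,
`R = ‖ξ‖^2 - ξ_0^2`, depend only on the length of `u` (reflections which fix `ee 0`); polarize the
second one, diagonalize the matrix, and find the constants from the form `R`.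
-/

open MeasureTheory Set Filter Topology
open scoped ContDiff ENNReal

namespace Pool.Agent.PIN

open Pool.Agent.MLS Pool.Agent.STR

namespace IMom

variable {m : ℕ}

/-- the ball -/
abbrev Bl (m : ℕ) : Set (E (m + 1)) := Metric.closedBall (0 : E (m + 1)) 1

/-- the orthogonal part of the square of the norm -/
noncomputable def R (ξ : E (m + 1)) : ℝ := ‖ξ‖ ^ 2 - ξ 0 ^ 2

theorem inner_ee (i : Fin (m + 1)) (ξ : E (m + 1)) : inner ℝ (ee i) ξ = ξ i := by
  simp [ee, EuclideanSpace.inner_single_left]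

theorem norm_ee (i : Fin (m + 1)) : ‖(ee i : E (m + 1))‖ = 1 := by
  simp [ee]

theorem R_meas : Measurable (R : E (m + 1) → ℝ) := by
  unfold R
  have h : Continuous (fun ξ : E (m + 1) => ‖ξ‖ ^ 2 - ξ 0 ^ 2) := by fun_prop
  exact h.measurable

theorem cs (u : E (m + 1)) (hu : inner ℝ (ee 0) u = (0 : ℝ)) (ξ : E (m + 1)) :
    (inner ℝ u ξ : ℝ) ^ 2 ≤ ‖u‖ ^ 2 * R ξ := by
  have h1 : (inner ℝ u ξ : ℝ) = inner ℝ u (ξ - ξ 0 • ee 0) := by
    rw [inner_sub_right, inner_smul_right, real_inner_comm (ee 0) u, hu]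
    ring
  have h2 : ‖ξ - ξ 0 • (ee 0 : E (m + 1))‖ ^ 2 = R ξ := by
    rw [norm_sub_sq_real, inner_smul_right, real_inner_comm, inner_ee, norm_smul, norm_ee, R,
      mul_one, Real.norm_eq_abs, sq_abs]
    ring
  have h3 := abs_real_inner_le_norm u (ξ - ξ 0 • ee 0)
  have h4 : (inner ℝ u (ξ - ξ 0 • ee 0) : ℝ) ^ 2 ≤ (‖u‖ * ‖ξ - ξ 0 • (ee 0 : E (m + 1))‖) ^ 2 := by
    rw [← sq_abs]
    exact pow_le_pow_left₀ (abs_nonneg _) h3 2
  rw [h1, ← h2, ← mul_pow]
  exact h4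

theorem R_nonneg (ξ : E (m + 1)) : 0 ≤ R ξ := by
  have h2 : ‖ξ - ξ 0 • (ee 0 : E (m + 1))‖ ^ 2 = R ξ := by
    rw [norm_sub_sq_real, inner_smul_right, real_inner_comm, inner_ee, norm_smul, norm_ee, R,
      mul_one, Real.norm_eq_abs, sq_abs]
    ring
  rw [← h2]
  positivity

theorem fin_ball : volume (Bl m) < ⊤ := measure_closedBall_lt_top

theorem intg_of_bdd (f : E (m + 1) → ℝ) (hf : Measurable f) (C : ℝ)
    (hC : ∀ ξ ∈ Bl m, |f ξ| ≤ C) : IntegrableOn f (Bl m) := by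
  apply Measure.integrableOn_of_bounded (M := C) fin_ball.ne hf.aestronglyMeasurable
  filter_upwards [ae_restrict_mem Metric.isClosed_closedBall.measurableSet] with ξ hξ
  exact hC ξ hξ

theorem norm_le {ξ : E (m + 1)} (hξ : ξ ∈ Bl m) : ‖ξ‖ ^ 2 ≤ 1 := by
  have h : ‖ξ‖ ≤ 1 := by simpa using hξ
  have := norm_nonneg ξ
  nlinarith

/-! ### the integrands -/

/-- second order -/
noncomputable def f2 (u ξ : E (m + 1)) : ℝ := ‖ξ‖ ^ 2 * ((inner ℝ u ξ) ^ 2 / R ξ)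

/-- fourth order -/
noncomputable def f4 (u ξ : E (m + 1)) : ℝ := ‖ξ‖ ^ 2 * ((inner ℝ u ξ) ^ 4 / R ξ ^ 2)

/-- mixed -/
noncomputable def f22 (u v ξ : E (m + 1)) : ℝ :=
  ‖ξ‖ ^ 2 * ((inner ℝ u ξ) ^ 2 * (inner ℝ v ξ) ^ 2 / R ξ ^ 2)

theorem meas_inner (u : E (m + 1)) : Measurable (fun ξ : E (m + 1) => (inner ℝ u ξ : ℝ)) := by
  have h : Continuous (fun ξ : E (m + 1) => (inner ℝ u ξ : ℝ)) := by fun_prop
  exact h.measurable

theorem meas_nsq : Measurable (fun ξ : E (m + 1) => ‖ξ‖ ^ 2) := by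
  have h : Continuous (fun ξ : E (m + 1) => ‖ξ‖ ^ 2) := by fun_prop
  exact h.measurable

theorem int2 (u : E (m + 1)) (hu : inner ℝ (ee 0) u = (0 : ℝ)) :
    IntegrableOn (f2 u) (Bl m) := by
  apply intg_of_bdd _ (meas_nsq.mul (((meas_inner u).pow_const 2).div R_meas)) (‖u‖ ^ 2)
  intro ξ hξ
  change |f2 u ξ| ≤ _
  unfold f2
  have h1 := cs u hu ξ
  have h2 := R_nonneg ξ
  have h3 := norm_le hξ
  rw [abs_of_nonneg (by positivity)]
  have h4 : (inner ℝ u ξ : ℝ) ^ 2 / R ξ ≤ ‖u‖ ^ 2 := by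
    rcases h2.eq_or_lt with h | h
    · rw [← h, div_zero]; positivity
    · rw [div_le_iff₀ h]; exact h1
  have h5 : 0 ≤ (inner ℝ u ξ : ℝ) ^ 2 / R ξ := by positivity
  calc ‖ξ‖ ^ 2 * ((inner ℝ u ξ : ℝ) ^ 2 / R ξ) ≤ 1 * ‖u‖ ^ 2 :=
        mul_le_mul h3 h4 h5 (by norm_num)
    _ = ‖u‖ ^ 2 := one_mul _

theorem int22 (u v : E (m + 1)) (hu : inner ℝ (ee 0) u = (0 : ℝ))
    (hv : inner ℝ (ee 0) v = (0 : ℝ)) : IntegrableOn (f22 u v) (Bl m) := by
  apply intg_of_bdd _ (meas_nsq.mul ((((meas_inner u).pow_const 2).mul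
    ((meas_inner v).pow_const 2)).div (R_meas.pow_const 2))) (‖u‖ ^ 2 * ‖v‖ ^ 2)
  intro ξ hξ
  change |f22 u v ξ| ≤ _
  unfold f22
  have h1 := cs u hu ξ
  have h1' := cs v hv ξ
  have h2 := R_nonneg ξ
  have h3 := norm_le hξ
  rw [abs_of_nonneg (by positivity)]
  have h4 : (inner ℝ u ξ : ℝ) ^ 2 * (inner ℝ v ξ : ℝ) ^ 2 / R ξ ^ 2 ≤ ‖u‖ ^ 2 * ‖v‖ ^ 2 := by
    rcases h2.eq_or_lt with h | h
    · rw [← h]; simp; positivity
    · rw [div_le_iff₀ (by positivity)]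
      calc (inner ℝ u ξ : ℝ) ^ 2 * (inner ℝ v ξ : ℝ) ^ 2 ≤ (‖u‖ ^ 2 * R ξ) * (‖v‖ ^ 2 * R ξ) :=
            mul_le_mul h1 h1' (by positivity) (by positivity)
        _ = ‖u‖ ^ 2 * ‖v‖ ^ 2 * R ξ ^ 2 := by ring
  have h5 : 0 ≤ (inner ℝ u ξ : ℝ) ^ 2 * (inner ℝ v ξ : ℝ) ^ 2 / R ξ ^ 2 := by positivity
  calc ‖ξ‖ ^ 2 * ((inner ℝ u ξ : ℝ) ^ 2 * (inner ℝ v ξ : ℝ) ^ 2 / R ξ ^ 2)
      ≤ 1 * (‖u‖ ^ 2 * ‖v‖ ^ 2) := mul_le_mul h3 h4 h5 (by norm_num)
    _ = ‖u‖ ^ 2 * ‖v‖ ^ 2 := one_mul _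

theorem f4_eq (u ξ : E (m + 1)) : f4 u ξ = f22 u u ξ := by
  unfold f4 f22
  ring

theorem int4 (u : E (m + 1)) (hu : inner ℝ (ee 0) u = (0 : ℝ)) :
    IntegrableOn (f4 u) (Bl m) := by
  have h := int22 u u hu hu
  have e : f4 u = f22 u u := funext fun ξ => f4_eq u ξ
  rw [e]
  exact h

/-! ### invariance under reflections -/

/-- a linear isometry which maps `u` to `v` and fixes `ee 0` -/
theorem rot (u v : E (m + 1)) (hu : inner ℝ (ee 0) u = (0 : ℝ))
    (hv : inner ℝ (ee 0) v = (0 : ℝ)) (h : ‖u‖ = ‖v‖) :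
    ∃ T : E (m + 1) ≃ₗᵢ[ℝ] E (m + 1), T u = v ∧ T (ee 0) = ee 0 := by
  refine ⟨(ℝ ∙ (u - v))ᗮ.reflection, Submodule.reflection_sub h, ?_⟩
  apply Submodule.reflection_mem_subspace_eq_self
  rw [Submodule.mem_orthogonal_singleton_iff_inner_left, inner_sub_right, hu, hv, sub_zero]

theorem J2_eq (u v : E (m + 1)) (hu : inner ℝ (ee 0) u = (0 : ℝ))
    (hv : inner ℝ (ee 0) v = (0 : ℝ)) (h : ‖u‖ = ‖v‖) :
    ∫ ξ in Bl m, f2 u ξ = ∫ ξ in Bl m, f2 v ξ := by
  obtain ⟨T, hT, h0⟩ := rot u v hu hv h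
  rw [← ISym.inv T (f2 v)]
  refine setIntegral_congr_fun Metric.isClosed_closedBall.measurableSet fun ξ _ => ?_
  have h1 : (inner ℝ v (T ξ) : ℝ) = inner ℝ u ξ := by rw [← hT, T.inner_map_map]
  have h2 : (T ξ) 0 = ξ 0 := by
    rw [← inner_ee, ← inner_ee, ← T.inner_map_map (ee 0) ξ, h0]
  simp only [f2, R, h1, h2, T.norm_map]

theorem J4_eq (u v : E (m + 1)) (hu : inner ℝ (ee 0) u = (0 : ℝ))
    (hv : inner ℝ (ee 0) v = (0 : ℝ)) (h : ‖u‖ = ‖v‖) :
    ∫ ξ in Bl m, f4 u ξ = ∫ ξ in Bl m, f4 v ξ := by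
  obtain ⟨T, hT, h0⟩ := rot u v hu hv h
  rw [← ISym.inv T (f4 v)]
  refine setIntegral_congr_fun Metric.isClosed_closedBall.measurableSet fun ξ _ => ?_
  have h1 : (inner ℝ v (T ξ) : ℝ) = inner ℝ u ξ := by rw [← hT, T.inner_map_map]
  have h2 : (T ξ) 0 = ξ 0 := by
    rw [← inner_ee, ← inner_ee, ← T.inner_map_map (ee 0) ξ, h0]
  simp only [f4, R, h1, h2, T.norm_map]

/-- constant of the second moments -/
noncomputable def c2 (m : ℕ) : ℝ := ∫ ξ in Bl m, f2 (ee (Fin.last m)) ξ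

/-- constant of the fourth moments -/
noncomputable def c4 (m : ℕ) : ℝ := ∫ ξ in Bl m, f4 (ee (Fin.last m)) ξ

theorem ee_perp (hm : 0 < m) : inner ℝ (ee 0) (ee (Fin.last m) : E (m + 1)) = (0 : ℝ) := by
  rw [inner_ee]
  have h : (0 : Fin (m + 1)) ≠ Fin.last m := by
    intro h
    have := congrArg Fin.val h
    simp at this
    omega
  simp [ee, h]

theorem J2 (hm : 0 < m) (u : E (m + 1)) (hu : inner ℝ (ee 0) u = (0 : ℝ)) :
    ∫ ξ in Bl m, f2 u ξ = c2 m * ‖u‖ ^ 2 := by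
  have h1 : ‖u‖ = ‖‖u‖ • (ee (Fin.last m) : E (m + 1))‖ := by
    rw [norm_smul, norm_ee, mul_one, norm_norm]
  rw [J2_eq u (‖u‖ • ee (Fin.last m)) hu (by rw [inner_smul_right, ee_perp hm, mul_zero]) h1, c2,
    ← integral_mul_const]
  refine setIntegral_congr_fun Metric.isClosed_closedBall.measurableSet fun ξ _ => ?_
  simp only [f2, inner_smul_left, conj_trivial]
  ring

theorem J4 (hm : 0 < m) (u : E (m + 1)) (hu : inner ℝ (ee 0) u = (0 : ℝ)) :
    ∫ ξ in Bl m, f4 u ξ = c4 m * ‖u‖ ^ 4 := by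
  have h1 : ‖u‖ = ‖‖u‖ • (ee (Fin.last m) : E (m + 1))‖ := by
    rw [norm_smul, norm_ee, mul_one, norm_norm]
  rw [J4_eq u (‖u‖ • ee (Fin.last m)) hu (by rw [inner_smul_right, ee_perp hm, mul_zero]) h1, c4,
    ← integral_mul_const]
  refine setIntegral_congr_fun Metric.isClosed_closedBall.measurableSet fun ξ _ => ?_
  simp only [f4, inner_smul_left, conj_trivial]
  ring

/-- polarization -/
theorem J22 (hm : 0 < m) (u v : E (m + 1)) (hu : inner ℝ (ee 0) u = (0 : ℝ))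
    (hv : inner ℝ (ee 0) v = (0 : ℝ)) :
    ∫ ξ in Bl m, f22 u v ξ = c4 m / 3 * (‖u‖ ^ 2 * ‖v‖ ^ 2 + 2 * (inner ℝ u v) ^ 2) := by
  have hs : inner ℝ (ee 0) (u + v) = (0 : ℝ) := by rw [inner_add_right, hu, hv, add_zero]
  have hd : inner ℝ (ee 0) (u - v) = (0 : ℝ) := by rw [inner_sub_right, hu, hv, sub_zero]
  have h1 : ∀ ξ, f22 u v ξ = (f4 (u + v) ξ + f4 (u - v) ξ - 2 * f4 u ξ - 2 * f4 v ξ) / 12 := by
    intro ξ
    simp only [f22, f4, inner_add_left, inner_sub_left]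
    ring
  have h2 : ∫ ξ in Bl m, f22 u v ξ = ((∫ ξ in Bl m, f4 (u + v) ξ) + (∫ ξ in Bl m, f4 (u - v) ξ) -
      2 * (∫ ξ in Bl m, f4 u ξ) - 2 * (∫ ξ in Bl m, f4 v ξ)) / 12 := by
    simp_rw [h1]
    rw [integral_div, integral_sub, integral_sub, integral_add, integral_const_mul,
      integral_const_mul]
    · exact int4 _ hs
    · exact int4 _ hd
    · exact (int4 _ hs).add (int4 _ hd)
    · exact (int4 _ hu).const_mul 2
    · exact ((int4 _ hs).add (int4 _ hd)).sub ((int4 _ hu).const_mul 2)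
    · exact (int4 _ hv).const_mul 2
  rw [h2, J4 hm _ hs, J4 hm _ hd, J4 hm _ hu, J4 hm _ hv]
  have h3 : ‖u + v‖ ^ 4 = (‖u‖ ^ 2 + 2 * inner ℝ u v + ‖v‖ ^ 2) ^ 2 := by
    rw [← norm_add_sq_real]; ring
  have h4 : ‖u - v‖ ^ 4 = (‖u‖ ^ 2 - 2 * inner ℝ u v + ‖v‖ ^ 2) ^ 2 := by
    rw [← norm_sub_sq_real]; ring
  rw [h3, h4]
  ring

/-! ### quadratic forms -/

/-- the quadratic form of a matrix -/
noncomputable def Q (A : Matrix (Fin (m + 1)) (Fin (m + 1)) ℝ) (ξ : E (m + 1)) : ℝ :=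
  ∑ i, ∑ j, A i j * (ξ i * ξ j)

/-- diagonalization -/
theorem dec (A : Matrix (Fin (m + 1)) (Fin (m + 1)) ℝ) (hA : ∀ i j, A i j = A j i)
    (h0 : ∀ j, A 0 j = 0) : ∃ (r : Fin (m + 1) → ℝ) (b : Fin (m + 1) → E (m + 1)),
    (∀ k, r k = 0 ∨ inner ℝ (ee 0) (b k) = (0 : ℝ)) ∧
    (∀ k l, inner ℝ (b k) (b l) = if k = l then (1 : ℝ) else 0) ∧
    ∀ i j, A i j = ∑ k, r k * (b k i * b k j) := by
  have hH : A.IsHermitian := by
    ext i j
    simpa using (hA i j).symm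
  refine ⟨hH.eigenvalues, fun k => hH.eigenvectorBasis k, fun k => ?_, fun k l => ?_,
    fun i j => ?_⟩
  · have h1 := congrFun (hH.mulVec_eigenvectorBasis k) 0
    rw [inner_ee]
    have h2 : (A.mulVec ⇑(hH.eigenvectorBasis k)) 0 = 0 := by
      simp [Matrix.mulVec, dotProduct, h0]
    rw [h2] at h1
    have h3 : hH.eigenvalues k * (hH.eigenvectorBasis k) 0 = 0 := by
      simpa using h1.symm
    exact mul_eq_zero.1 h3
  · exact orthonormal_iff_ite.1 hH.eigenvectorBasis.orthonormal k l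
  · have h1 : ∀ l, (if l = j then (1 : ℝ) else 0) =
        ∑ k, (hH.eigenvectorBasis k) l * (hH.eigenvectorBasis k) j := by
      intro l
      have h2 := hH.eigenvectorBasis.sum_repr' (ee j)
      have h3 := congrArg (fun v : E (m + 1) => v l) h2
      simp only [WithLp.ofLp_sum, Finset.sum_apply, PiLp.smul_apply, smul_eq_mul] at h3
      rw [show (ee j : E (m + 1)) l = if l = j then (1 : ℝ) else 0 by
        simp [ee]] at h3
      rw [← h3]
      refine Finset.sum_congr rfl fun k _ => ?_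
      rw [real_inner_comm, inner_ee]
      ring
    calc A i j = ∑ l, A i l * (if l = j then (1 : ℝ) else 0) := by simp
      _ = ∑ l, A i l * ∑ k, (hH.eigenvectorBasis k) l * (hH.eigenvectorBasis k) j := by
        simp_rw [h1]
      _ = ∑ k, (∑ l, A i l * (hH.eigenvectorBasis k) l) * (hH.eigenvectorBasis k) j := by
        simp_rw [Finset.mul_sum, Finset.sum_mul]
        rw [Finset.sum_comm]
        refine Finset.sum_congr rfl fun k _ => Finset.sum_congr rfl fun l _ => by ring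
      _ = ∑ k, hH.eigenvalues k *
          ((hH.eigenvectorBasis k) i * (hH.eigenvectorBasis k) j) := by
        refine Finset.sum_congr rfl fun k _ => ?_
        have h4 := congrFun (hH.mulVec_eigenvectorBasis k) i
        have h5 : ∑ l, A i l * (hH.eigenvectorBasis k) l =
            hH.eigenvalues k * (hH.eigenvectorBasis k) i := by
          simpa [Matrix.mulVec, dotProduct] using h4
        rw [h5]
        ring

theorem inner_sum (u ξ : E (m + 1)) : (inner ℝ u ξ : ℝ) = ∑ i, u i * ξ i := by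
  rw [PiLp.inner_apply]
  refine Finset.sum_congr rfl fun i _ => ?_
  simp [mul_comm]

theorem Q_eq (A : Matrix (Fin (m + 1)) (Fin (m + 1)) ℝ) (r : Fin (m + 1) → ℝ)
    (b : Fin (m + 1) → E (m + 1)) (h : ∀ i j, A i j = ∑ k, r k * (b k i * b k j))
    (ξ : E (m + 1)) : Q A ξ = ∑ k, r k * (inner ℝ (b k) ξ) ^ 2 := by
  unfold Q
  simp_rw [h, Finset.sum_mul]
  have h1 : ∀ k, r k * (inner ℝ (b k) ξ : ℝ) ^ 2 =
      ∑ i, ∑ j, r k * (b k i * b k j) * (ξ i * ξ j) := by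
    intro k
    rw [inner_sum, pow_two, Finset.sum_mul_sum, Finset.mul_sum]
    refine Finset.sum_congr rfl fun i _ => ?_
    rw [Finset.mul_sum]
    refine Finset.sum_congr rfl fun j _ => by ring
  simp_rw [h1]
  calc ∑ i, ∑ j, ∑ k, r k * (b k i * b k j) * (ξ i * ξ j)
      = ∑ i, ∑ k, ∑ j, r k * (b k i * b k j) * (ξ i * ξ j) :=
        Finset.sum_congr rfl fun i _ => Finset.sum_comm
    _ = ∑ k, ∑ i, ∑ j, r k * (b k i * b k j) * (ξ i * ξ j) := Finset.sum_comm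

theorem tr_eq (A : Matrix (Fin (m + 1)) (Fin (m + 1)) ℝ) (r : Fin (m + 1) → ℝ)
    (b : Fin (m + 1) → E (m + 1)) (h : ∀ i j, A i j = ∑ k, r k * (b k i * b k j))
    (ho : ∀ k l, inner ℝ (b k) (b l) = if k = l then (1 : ℝ) else 0) :
    A.trace = ∑ k, r k := by
  simp only [Matrix.trace, Matrix.diag, h]
  rw [Finset.sum_comm]
  refine Finset.sum_congr rfl fun k _ => ?_
  rw [← Finset.mul_sum, ← inner_sum, ho]
  simp

theorem tr2_eq (A : Matrix (Fin (m + 1)) (Fin (m + 1)) ℝ) (r : Fin (m + 1) → ℝ)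
    (b : Fin (m + 1) → E (m + 1)) (h : ∀ i j, A i j = ∑ k, r k * (b k i * b k j))
    (ho : ∀ k l, inner ℝ (b k) (b l) = if k = l then (1 : ℝ) else 0) :
    (A * A).trace = ∑ k, r k ^ 2 := by
  have h1 : ∀ i (l : Fin (m + 1)), ∑ j, A i j * b l j = r l * b l i := by
    intro i l
    calc ∑ j, A i j * b l j = ∑ j, ∑ k, r k * (b k i * b k j) * b l j := by
          simp_rw [h, Finset.sum_mul]
      _ = ∑ k, r k * b k i * ∑ j, b k j * b l j := by
          rw [Finset.sum_comm]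
          refine Finset.sum_congr rfl fun k _ => ?_
          rw [Finset.mul_sum]
          refine Finset.sum_congr rfl fun j _ => by ring
      _ = ∑ k, r k * b k i * (if k = l then (1 : ℝ) else 0) := by
          refine Finset.sum_congr rfl fun k _ => ?_
          rw [← inner_sum, ho]
      _ = r l * b l i := by simp
  simp only [Matrix.trace, Matrix.diag, Matrix.mul_apply]
  calc ∑ i, ∑ j, A i j * A j i = ∑ i, ∑ j, A i j * ∑ k, r k * (b k j * b k i) := by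
        simp_rw [← h]
    _ = ∑ i, ∑ k, r k * b k i * ∑ j, A i j * b k j := by
        refine Finset.sum_congr rfl fun i _ => ?_
        simp_rw [Finset.mul_sum]
        rw [Finset.sum_comm]
        refine Finset.sum_congr rfl fun k _ => Finset.sum_congr rfl fun j _ => by ring
    _ = ∑ k, r k ^ 2 * ∑ i, b k i * b k i := by
        rw [Finset.sum_comm]
        refine Finset.sum_congr rfl fun k _ => ?_
        rw [Finset.mul_sum]
        refine Finset.sum_congr rfl fun i _ => ?_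
        rw [h1]
        ring
    _ = ∑ k, r k ^ 2 := by
        refine Finset.sum_congr rfl fun k _ => ?_
        rw [← inner_sum, ho]
        simp

/-- second moments -/
theorem mom2 (hm : 0 < m) (A : Matrix (Fin (m + 1)) (Fin (m + 1)) ℝ)
    (hA : ∀ i j, A i j = A j i) (h0 : ∀ j, A 0 j = 0) :
    ∫ ξ in Bl m, ‖ξ‖ ^ 2 * (Q A ξ / R ξ) = c2 m * A.trace := by
  obtain ⟨r, b, hr, ho, hd⟩ := dec A hA h0
  have h1 : ∀ ξ, ‖ξ‖ ^ 2 * (Q A ξ / R ξ) = ∑ k, r k * f2 (b k) ξ := by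
    intro ξ
    rw [Q_eq A r b hd, Finset.sum_div, Finset.mul_sum]
    refine Finset.sum_congr rfl fun k _ => ?_
    unfold f2
    ring
  simp_rw [h1]
  rw [integral_finsetSum, tr_eq A r b hd ho, Finset.mul_sum]
  · refine Finset.sum_congr rfl fun k _ => ?_
    rw [integral_const_mul]
    rcases hr k with h | h
    · rw [h]; ring
    · have hn : ‖b k‖ ^ 2 = 1 := by
        rw [← real_inner_self_eq_norm_sq, ho]; simp
      rw [J2 hm _ h, hn]
      ring
  · intro k _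
    rcases hr k with h | h
    · simp only [h, zero_mul]
      exact integrable_zero _ _ _
    · exact (int2 _ h).const_mul _

/-- fourth moments -/
theorem mom4 (hm : 0 < m) (A : Matrix (Fin (m + 1)) (Fin (m + 1)) ℝ)
    (hA : ∀ i j, A i j = A j i) (h0 : ∀ j, A 0 j = 0) :
    ∫ ξ in Bl m, ‖ξ‖ ^ 2 * (Q A ξ ^ 2 / R ξ ^ 2) =
      c4 m / 3 * (A.trace ^ 2 + 2 * (A * A).trace) := by
  obtain ⟨r, b, hr, ho, hd⟩ := dec A hA h0
  have hn : ∀ k, ‖b k‖ ^ 2 = 1 := by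
    intro k
    rw [← real_inner_self_eq_norm_sq, ho]; simp
  have h1 : ∀ ξ, ‖ξ‖ ^ 2 * (Q A ξ ^ 2 / R ξ ^ 2) =
      ∑ k, ∑ l, r k * r l * f22 (b k) (b l) ξ := by
    intro ξ
    rw [Q_eq A r b hd, pow_two (∑ k, r k * (inner ℝ (b k) ξ : ℝ) ^ 2), Finset.sum_mul_sum,
      Finset.sum_div, Finset.mul_sum]
    refine Finset.sum_congr rfl fun k _ => ?_
    rw [Finset.sum_div, Finset.mul_sum]
    refine Finset.sum_congr rfl fun l _ => ?_
    unfold f22
    ring
  have hint : ∀ k l, IntegrableOn (fun ξ => r k * r l * f22 (b k) (b l) ξ) (Bl m) := by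
    intro k l
    rcases hr k with h | h
    · simp only [h, zero_mul]
      exact integrable_zero _ _ _
    · rcases hr l with h' | h'
      · simp only [h', mul_zero, zero_mul]
        exact integrable_zero _ _ _
      · exact (int22 _ _ h h').const_mul _
  have hval : ∀ k l, ∫ ξ in Bl m, r k * r l * f22 (b k) (b l) ξ =
      c4 m / 3 * (r k * r l * (1 + 2 * if k = l then (1 : ℝ) else 0)) := by
    intro k l
    rw [integral_const_mul]
    rcases hr k with h | h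
    · rw [h]; ring
    · rcases hr l with h' | h'
      · rw [h']; ring
      · rw [J22 hm _ _ h h', hn, hn, ho]
        split_ifs <;> ring
  simp_rw [h1]
  rw [integral_finsetSum]
  · have h2 : ∀ k, ∫ ξ in Bl m, ∑ l, r k * r l * f22 (b k) (b l) ξ =
        ∑ l, c4 m / 3 * (r k * r l * (1 + 2 * if k = l then (1 : ℝ) else 0)) := by
      intro k
      rw [integral_finsetSum _ fun l _ => hint k l]
      exact Finset.sum_congr rfl fun l _ => hval k l
    simp_rw [h2, ← Finset.mul_sum]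
    congr 1
    rw [tr_eq A r b hd ho, tr2_eq A r b hd ho, pow_two (∑ k, r k), Finset.sum_mul_sum,
      Finset.mul_sum, ← Finset.sum_add_distrib]
    refine Finset.sum_congr rfl fun k _ => ?_
    simp_rw [mul_add, mul_one]
    rw [Finset.sum_add_distrib]
    congr 1
    simp
    ring
  · intro k _
    exact integrable_finsetSum _ fun l _ => hint k l

/-! ### the constants -/

/-- the matrix of `R` -/
noncomputable def D (m : ℕ) : Matrix (Fin (m + 1)) (Fin (m + 1)) ℝ :=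
  Matrix.diagonal fun i => if i = 0 then 0 else 1

theorem Q_D (ξ : E (m + 1)) : Q (D m) ξ = R ξ := by
  unfold Q D R
  have h1 : ‖ξ‖ ^ 2 = ∑ i, ξ i ^ 2 := by
    rw [EuclideanSpace.norm_sq_eq]
    refine Finset.sum_congr rfl fun i _ => ?_
    rw [Real.norm_eq_abs, sq_abs]
  rw [h1]
  have h2 : ∀ i, ∑ j, (Matrix.diagonal fun i : Fin (m + 1) => if i = 0 then (0 : ℝ) else 1) i j *
      (ξ i * ξ j) = (if i = 0 then (0 : ℝ) else 1) * ξ i ^ 2 := by
    intro i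
    rw [Finset.sum_eq_single i]
    · rw [Matrix.diagonal_apply_eq]; ring
    · intro j _ hj
      rw [Matrix.diagonal_apply_ne _ hj.symm, zero_mul]
    · intro h; exact absurd (Finset.mem_univ _) h
  simp_rw [h2]
  rw [Fin.sum_univ_succ, Fin.sum_univ_succ]
  simp [Fin.succ_ne_zero]

theorem tr_D : (D m).trace = m := by
  unfold D
  rw [Matrix.trace_diagonal, Fin.sum_univ_succ]
  simp [Fin.succ_ne_zero]

theorem tr2_D : (D m * D m).trace = m := by
  unfold D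
  rw [Matrix.diagonal_mul_diagonal, Matrix.trace_diagonal, Fin.sum_univ_succ]
  simp [Fin.succ_ne_zero]

/-- `R` vanishes only on a null set -/
theorem null (hm : 0 < m) : ∀ᵐ ξ : E (m + 1), R ξ ≠ 0 := by
  have h1 : volume ({ξ : E (m + 1) | R ξ = 0}) = 0 := by
    let S : Submodule ℝ (E (m + 1)) := (ℝ ∙ (ee (Fin.last m) : E (m + 1)))ᗮ
    have hS : volume (S : Set (E (m + 1))) = 0 := by
      apply Measure.addHaar_submodule
      intro h
      have h2 : (ee (Fin.last m) : E (m + 1)) ∈ S := by rw [h]; trivial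
      rw [Submodule.mem_orthogonal_singleton_iff_inner_right, real_inner_self_eq_norm_sq,
        norm_ee] at h2
      norm_num at h2
    refine measure_mono_null (fun ξ hξ => ?_) hS
    have hξ' : R ξ = 0 := hξ
    have h2 := cs (ee (Fin.last m)) (ee_perp hm) ξ
    rw [hξ', mul_zero] at h2
    have h3 : (inner ℝ (ee (Fin.last m)) ξ : ℝ) = 0 := by
      have := sq_nonneg (inner ℝ (ee (Fin.last m)) ξ : ℝ)
      exact pow_eq_zero_iff (two_ne_zero) |>.1 (le_antisymm h2 this)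
    exact (Submodule.mem_orthogonal_singleton_iff_inner_right).2 h3
  rw [ae_iff]
  simpa using h1

theorem c2_eq (hm : 0 < m) : c2 m = cn (m + 1) / m := by
  have h := mom2 hm (D m) (fun i j => by
    unfold D; rw [Matrix.diagonal_apply, Matrix.diagonal_apply]
    split_ifs with h1 h2 h2 <;> simp_all) (fun j => by
    unfold D
    rcases eq_or_ne j 0 with h | h
    · rw [h, Matrix.diagonal_apply_eq]; simp
    · rw [Matrix.diagonal_apply_ne _ h.symm])
  rw [tr_D] at h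
  have h1 : ∫ ξ in Bl m, ‖ξ‖ ^ 2 * (Q (D m) ξ / R ξ) = cn (m + 1) := by
    unfold cn
    refine setIntegral_congr_ae Metric.isClosed_closedBall.measurableSet ?_
    filter_upwards [null hm] with ξ hξ _
    rw [Q_D, div_self hξ, mul_one]
  rw [h1] at h
  rw [h]
  field_simp

theorem c4_eq (hm : 0 < m) : c4 m / 3 = cn (m + 1) / (m * (m + 2)) := by
  have h := mom4 hm (D m) (fun i j => by
    unfold D; rw [Matrix.diagonal_apply, Matrix.diagonal_apply]
    split_ifs with h1 h2 h2 <;> simp_all) (fun j => by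
    unfold D
    rcases eq_or_ne j 0 with h | h
    · rw [h, Matrix.diagonal_apply_eq]; simp
    · rw [Matrix.diagonal_apply_ne _ h.symm])
  rw [tr_D, tr2_D] at h
  have h1 : ∫ ξ in Bl m, ‖ξ‖ ^ 2 * (Q (D m) ξ ^ 2 / R ξ ^ 2) = cn (m + 1) := by
    unfold cn
    refine setIntegral_congr_ae Metric.isClosed_closedBall.measurableSet ?_
    filter_upwards [null hm] with ξ hξ _
    rw [Q_D, div_self (pow_ne_zero 2 hξ), mul_one]
  rw [h1] at h
  rw [h]
  have hm' : (0 : ℝ) < m := by exact_mod_cast hm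
  field_simp

end IMom

open IMom

theorem pr_Mom : PiMom := by
  intro m A hm hA h0
  refine ⟨?_, ?_⟩
  · have h := mom2 hm A hA h0
    rw [c2_eq hm] at h
    have h1 : (∫ ξ in Metric.closedBall (0 : E (m + 1)) 1,
        ‖ξ‖ ^ 2 * ((∑ i, ∑ j, A i j * (ξ i * ξ j)) / (‖ξ‖ ^ 2 - ξ 0 ^ 2))) =
        ∫ ξ in Bl m, ‖ξ‖ ^ 2 * (Q A ξ / R ξ) := rfl
    rw [h1, h]
    ring
  · have h := mom4 hm A hA h0
    rw [c4_eq hm] at h
    have h1 : (∫ ξ in Metric.closedBall (0 : E (m + 1)) 1,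
        ‖ξ‖ ^ 2 * ((∑ i, ∑ j, A i j * (ξ i * ξ j)) ^ 2 / (‖ξ‖ ^ 2 - ξ 0 ^ 2) ^ 2)) =
        ∫ ξ in Bl m, ‖ξ‖ ^ 2 * (Q A ξ ^ 2 / R ξ ^ 2) := rfl
    rw [h1, h]
    ring

end Pool.Agent.PIN
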