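import Mathlib
import Pool.Agent.Work.MP_13b5d9_gt.PI.Stmts

set_option autoImplicit false

/-!
# Block [13b5d9 PI], item Pin (helper94): rigidity of pinched flows
-/

open MeasureTheory Set Filter Topology
open scoped ContDiff ENNReal
open Pool.Agent.Work.MP_c9f990_an.Al (IsFlow)

namespace Pool.Agent.PIN

open Pool.Agent.MLS Pool.Agent.STR

namespace IPin

theorem dvg_eq {n : ℕ} (g : Form n) (V : E n → E n) (x : E n) :
    dvg g V x = 1 / 2 * tb g (Lie V g.val) x := rfl

theorem shr_eq {n : ℕ} (g : Form n) (V : E n → E n) (x : E n) :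
    shr g V x = 1 / 4 * nb g (Lie V g.val) x := rfl

theorem bm_zero {n : ℕ} {b : E n → E n →L[ℝ] E n →L[ℝ] ℝ} {x : E n} (h : b x = 0) :
    bm b x = 0 := by
  ext i j
  unfold bm
  rw [Matrix.of_apply, h]
  rfl

/-- the difference of the two sides -/
noncomputable def dd {m : ℕ} (g : Form (m + 1)) (V : E (m + 1) → E (m + 1)) (x : E (m + 1)) : ℝ :=
  (m + 3) * dvg g V x ^ 2 - (2 * m + 2) * shr g V x

theorem dd_zero {m : ℕ} {g : Form (m + 1)} {V : E (m + 1) → E (m + 1)} {x : E (m + 1)}
    (h : Lie V g.val x = 0) : dd g V x = 0 := by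
  unfold dd
  rw [dvg_eq, shr_eq]
  unfold tb nb
  rw [bm_zero h]
  simp

end IPin

open IPin in
/-- Item Pin. -/
theorem pr_Pin (h1 : StPU) (h2 : StDens) (h3 : PiLie) (h4 : PiInv) (h5 : PiTr) (h6 : PiTbI)
    (h7 : PiMain) : PiPin := by
  intro m G _ _ hm hG g hR hI hMz z l V τ ψ hA hpin x0
  obtain ⟨χ, hχ⟩ := h1 (m + 1) G hG
  obtain ⟨hdet, hdens, -⟩ := h2 (m + 1) g hR
  have hLs : ContDiff ℝ ∞ (Lie V g.val) := (h3 (m + 1) V g.val hA.smoothV g.smooth).1
  obtain ⟨htb, hnb, -⟩ := h5 (m + 1) g hR V hA.smoothV _ hLs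
  have hLi := h4 (m + 1) G hG V g.val hA.smoothV g.smooth hA.inv hI
  have hti := h6 (m + 1) G hG g hR hI _ hLi
  have hmain := h7 m G hm hG g hR hI hMz z l V τ ψ hA χ hχ
  have hc1 : Continuous (fun x => dvg g V x) := by
    have : (fun x => dvg g V x) = fun x => 1 / 2 * tb g (Lie V g.val) x := rfl
    rw [this]
    exact continuous_const.mul htb.continuous
  have hc2 : Continuous (fun x => shr g V x) := by
    have : (fun x => shr g V x) = fun x => 1 / 4 * nb g (Lie V g.val) x := rfl
    rw [this]
    exact continuous_const.mul hnb.continuous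
  have hd1 : ∀ (a : G) x, dvg g V (a • x) = dvg g V x := fun a x => by
    rw [dvg_eq, dvg_eq, (hti a x).1]
  have hd2 : ∀ (a : G) x, shr g V (a • x) = shr g V x := fun a x => by
    rw [shr_eq, shr_eq, (hti a x).2]
  have hdpos : ∀ x, 0 < dens g x := fun x => Real.sqrt_pos.2 (hdet x)
  have hdi : ∀ (a : G) x, dd g V (a • x) = dd g V x := fun a x => by
    unfold dd
    rw [hd1, hd2]
  have hd0 : ∀ x, 0 ≤ dd g V x := by
    intro x
    by_cases h : Lie V g.val x = 0
    · exact (dd_zero h).ge
    · have := hpin x h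
      unfold dd
      linarith
  have hdc : Continuous (dd g V) :=
    (continuous_const.mul (hc1.pow 2)).sub (continuous_const.mul hc2)
  -- the integral
  have hi1 : Integrable (fun x => χ x * (dvg g V x ^ 2 * dens g x)) :=
    (hχ.smooth.continuous.mul ((hc1.pow 2).mul hdens.continuous)).integrable_of_hasCompactSupport
      hχ.cpt.mul_right
  have hi2 : Integrable (fun x => χ x * (shr g V x * dens g x)) :=
    (hχ.smooth.continuous.mul (hc2.mul hdens.continuous)).integrable_of_hasCompactSupport
      hχ.cpt.mul_right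
  have hint : ∫ x, χ x * (dd g V x * dens g x) ≤ 0 := by
    have e : (fun x => χ x * (dd g V x * dens g x)) = fun x =>
        (m + 3) * (χ x * (dvg g V x ^ 2 * dens g x)) -
          (2 * m + 2) * (χ x * (shr g V x * dens g x)) := by
      funext x
      unfold dd
      ring
    rw [e, integral_sub (hi1.const_mul _) (hi2.const_mul _), integral_const_mul,
      integral_const_mul]
    linarith
  have hFc : Continuous (fun x => χ x * (dd g V x * dens g x)) :=
    hχ.smooth.continuous.mul (hdc.mul hdens.continuous)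
  have hF0 : ∀ x, 0 ≤ χ x * (dd g V x * dens g x) := fun x =>
    mul_nonneg (hχ.nonneg x) (mul_nonneg (hd0 x) (hdpos x).le)
  have hFi : Integrable (fun x => χ x * (dd g V x * dens g x)) :=
    hFc.integrable_of_hasCompactSupport hχ.cpt.mul_right
  have hz : (fun x => χ x * (dd g V x * dens g x)) = fun _ => 0 := by
    have h8 : ∫ x, χ x * (dd g V x * dens g x) = 0 :=
      le_antisymm hint (integral_nonneg hF0)
    have h9 := (integral_eq_zero_iff_of_nonneg hF0 hFi).1 h8
    exact (hFc.ae_eq_iff_eq volume continuous_const).1 h9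
  -- conclusion
  by_contra hne
  obtain ⟨a, ha⟩ : ∃ a : G, χ (a • x0) ≠ 0 := by
    by_contra hcon
    push Not at hcon
    have h10 := hχ.sum x0
    have h11 : (fun a : G => χ (a • x0)) = fun _ => 0 := funext hcon
    rw [h11] at h10
    exact zero_ne_one (hasSum_zero.unique h10)
  have h12 : χ (a • x0) * (dd g V (a • x0) * dens g (a • x0)) = 0 := congrFun hz (a • x0)
  have h13 : dd g V (a • x0) = 0 := by
    rcases mul_eq_zero.1 h12 with h | h
    · exact absurd h ha
    · rcases mul_eq_zero.1 h with h | h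
      · exact h
      · exact absurd h (hdpos _).ne'
  rw [hdi] at h13
  have h14 := hpin x0 hne
  unfold dd at h13
  linarith

end Pool.Agent.PIN
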