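import Pool.Agent.Work.MP_13b5d9_gt.PI.Stmts

set_option autoImplicit false

/-!
# MP_13b5d9_gt, block PI, item Pos: the angle with `V` stays positive
-/

open MeasureTheory Set Filter Topology
open scoped ContDiff ENNReal

namespace Pool.Agent.PIN

open Pool.Agent.MLS Pool.Agent.STR

namespace IPos

/-- If `|b'| ≤ C b` and `b s > 0` then `b t > 0`. -/
theorem gron {b b' : ℝ → ℝ} {C : ℝ} (hb : ∀ t, HasDerivAt b (b' t) t)
    (h : ∀ t, |b' t| ≤ C * b t) {s t : ℝ} (hs : 0 < b s) : 0 < b t := by
  have he : ∀ (K : ℝ) (t : ℝ), HasDerivAt (fun t => b t * Real.exp (K * t))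
      ((b' t + K * b t) * Real.exp (K * t)) t := by
    intro K t
    have h1 : HasDerivAt (fun t : ℝ => K * t) K t := by
      simpa using (hasDerivAt_id t).const_mul K
    refine ((hb t).mul h1.exp).congr_deriv ?_
    ring
  have hmono : Monotone fun t => b t * Real.exp (C * t) := by
    apply monotone_of_deriv_nonneg (fun t => (he C t).differentiableAt)
    intro t
    rw [(he C t).deriv]
    refine mul_nonneg ?_ (Real.exp_pos _).le
    have := (abs_le.1 (h t)).1
    linarith
  have hanti : Antitone fun t => b t * Real.exp (-C * t) := by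
    apply antitone_of_deriv_nonpos (fun t => (he (-C) t).differentiableAt)
    intro t
    rw [(he (-C) t).deriv]
    refine mul_nonpos_of_nonpos_of_nonneg ?_ (Real.exp_pos _).le
    have := (abs_le.1 (h t)).2
    linarith
  rcases le_total s t with hst | hst
  · have h1 : b s * Real.exp (C * s) ≤ b t * Real.exp (C * t) := hmono hst
    have h2 : 0 < b t * Real.exp (C * t) := lt_of_lt_of_le (mul_pos hs (Real.exp_pos _)) h1
    exact pos_of_mul_pos_left h2 (Real.exp_pos _).le
  · have h1 : b s * Real.exp (-C * s) ≤ b t * Real.exp (-C * t) := hanti hst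
    have h2 : 0 < b t * Real.exp (-C * t) := lt_of_lt_of_le (mul_pos hs (Real.exp_pos _)) h1
    exact pos_of_mul_pos_left h2 (Real.exp_pos _).le

end IPos

theorem pr_Pos (h : PiA) : PiPos := by
  intro n g V hV _ C hC c hc hu s t hs
  obtain ⟨ha, -⟩ := h n g V hV c hc
  -- the product with `V`
  set a : ℝ → ℝ := fun t => g.val (c t) (V (c t)) (deriv c t) with ha_def
  set L : ℝ → ℝ := fun t => Lie V g.val (c t) (deriv c t) (deriv c t) with hL_def
  have hβ : ∀ t, bb g V (c t) (deriv c t) = 1 - a t ^ 2 := by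
    intro t
    rw [bb, hu t]
  have hder : ∀ t, HasDerivAt (fun t => 1 - a t ^ 2) (-(a t * L t)) t := by
    intro t
    refine (((ha t).pow 2).const_sub 1).congr_deriv ?_
    show -(((2 : ℕ) : ℝ) * a t ^ (2 - 1) * (1 / 2 * L t)) = -(a t * L t)
    push_cast
    simp only [pow_one]
    ring
  have hL : ∀ t, |L t| ≤ C * (1 - a t ^ 2) := by
    intro t
    rw [← hβ t]
    exact hC _ _
  have hkey : ∀ t, |-(a t * L t)| ≤ C * (1 - a t ^ 2) := by
    intro t
    rw [abs_neg, abs_mul]
    have h0 : 0 ≤ |L t| := abs_nonneg _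
    rcases lt_trichotomy C 0 with hC0 | hC0 | hC0
    · exfalso
      have h1 := hL s
      rw [← hβ s] at h1
      have h2 : C * bb g V (c s) (deriv c s) < 0 := mul_neg_of_neg_of_pos hC0 hs
      linarith [abs_nonneg (L s)]
    · have h1 : |L t| = 0 := by
        have h2 := hL t
        rw [hC0, zero_mul] at h2
        exact le_antisymm h2 h0
      rw [h1, hC0]
      simp
    · have h1 : 0 ≤ 1 - a t ^ 2 := by
        by_contra hcon
        have h2 : C * (1 - a t ^ 2) < 0 := mul_neg_of_pos_of_neg hC0 (not_le.1 hcon)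
        linarith [hL t]
      have h2 : |a t| ≤ 1 := by
        rw [← sq_le_one_iff_abs_le_one]
        linarith
      calc |a t| * |L t| ≤ 1 * |L t| := mul_le_mul_of_nonneg_right h2 h0
        _ = |L t| := one_mul _
        _ ≤ _ := hL t
  rw [hβ] at hs ⊢
  exact IPos.gron hder hkey hs

end Pool.Agent.PIN
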