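import Pool.Agent.Work.MP_13b5d9_gt.PI.Stmts
import Pool.Agent.Work.MP_25cd3b_gt.M.I_Key

set_option autoImplicit false

/-!
# MP_13b5d9_gt, block PI, item Seg: all geodesics of speed at most one
-/

open MeasureTheory Set Filter Topology
open scoped ContDiff ENNReal
open Pool.Agent.Work.MP_c9f990_an.Al (IsFlow)

namespace Pool.Agent.PIN

open Pool.Agent.MLS Pool.Agent.STR

namespace ISeg

variable {n : ℕ}

theorem bb_smul (g : Form n) (V : E n → E n) (x v : E n) (r : ℝ) :
    bb g V x (r • v) = r ^ 2 * bb g V x v := by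
  unfold bb
  simp only [map_smul, smul_apply, smul_eq_mul]
  ring

theorem FF_smul (g : Form n) (V : E n → E n) (x v : E n) (r : ℝ) (hr : r ≠ 0) :
    FF g V x (r • v) = r ^ 2 * FF g V x v := by
  unfold FF
  rw [bb_smul]
  simp only [map_smul, smul_apply, smul_eq_mul]
  have h2 : r ^ 2 ≠ 0 := pow_ne_zero 2 hr
  have h4 : r ^ 4 ≠ 0 := pow_ne_zero 4 hr
  have e1 : r * (r * Lie V (Lie V g.val) x v v) / (2 * (r ^ 2 * bb g V x v)) =
      Lie V (Lie V g.val) x v v / (2 * bb g V x v) := by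
    rw [show r * (r * Lie V (Lie V g.val) x v v) = r ^ 2 * Lie V (Lie V g.val) x v v by ring,
      show 2 * (r ^ 2 * bb g V x v) = r ^ 2 * (2 * bb g V x v) by ring, mul_div_mul_left _ _ h2]
  have e2 : (r * (r * Lie V g.val x v v)) ^ 2 / (4 * (r ^ 2 * bb g V x v) ^ 2) =
      Lie V g.val x v v ^ 2 / (4 * bb g V x v ^ 2) := by
    rw [show (r * (r * Lie V g.val x v v)) ^ 2 = r ^ 4 * Lie V g.val x v v ^ 2 by ring,
      show 4 * (r ^ 2 * bb g V x v) ^ 2 = r ^ 4 * (4 * bb g V x v ^ 2) by ring,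
      mul_div_mul_left _ _ h4]
  rw [e1, e2]
  ring

theorem FF_zero (g : Form n) (V : E n → E n) (x v : E n) (h : bb g V x v = 0) :
    FF g V x v = 0 := by
  unfold FF
  rw [h]
  simp

theorem FF_zero' (g : Form n) (V : E n → E n) (x v : E n) (h : g.val x v v = 0) :
    FF g V x v = 0 := by
  unfold FF
  rw [h, zero_mul]

end ISeg

open ISeg in
theorem pr_Seg (h1 : StOp) (h2 : StGeo1) (h3 : PiLie) (h4 : PiLV) (h5 : PiInv) (h6 : PiBd)
    (h7 : PiPos) (h8 : PiTst) : PiSeg := by
  intro n G _ _ hG g hg hinv hm z l V τ ψ hA φ M hφ ζ hζ T hT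
  -- the bound for the first Lie derivative
  obtain ⟨hL1s, -, hL1y⟩ := h3 n V g.val hA.smoothV g.smooth
  have hL1i := h5 n G hG V g.val hA.smoothV g.smooth hA.inv hinv
  obtain ⟨hbb0, -, hbd⟩ := h6 n G hG g hg hinv V hA.smoothV hA.unit hA.inv
  obtain ⟨C, -, hC⟩ := hbd (Lie V g.val) hL1s (hL1y g.symm) hL1i
    (fun x w => ((h4 n G g z l V τ ψ hA).2.2 x w).1)
  obtain ⟨hgeo, hder, hen⟩ := h2 n g hg (fun t => φ t ζ) (hφ.ode ζ)
  have hHm := (h1 n g hg).2.2.2.2.2.2.2.2
  set c : ℝ → E n := fun t => (φ t ζ).1 with hcdef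
  have hcder : ∀ t, deriv c t = vel g (φ t ζ) := hder
  have hH0 : 0 ≤ 2 * Hm g ζ := by
    rw [hHm]
    have := g.nonneg ζ.1 (vel g ζ)
    linarith
  set r : ℝ := Real.sqrt (2 * Hm g ζ) with hr
  have hr0 : 0 ≤ r := Real.sqrt_nonneg _
  have hr2 : r ^ 2 = 2 * Hm g ζ := Real.sq_sqrt hH0
  have hval : ∀ t, g.val (φ t ζ).1 (vel g (φ t ζ)) (vel g (φ t ζ)) = r ^ 2 := by
    intro t
    have h := hHm (φ t ζ)
    have h' : Hm g (φ t ζ) = Hm g ζ := by
      have := hen t
      simpa [hφ.zero ζ] using this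
    rw [h'] at h
    rw [hr2]
    linarith
  have hneg : -(Real.pi ^ 2 / (2 * T)) ≤ 0 := by
    have : 0 ≤ Real.pi ^ 2 / (2 * T) := by positivity
    linarith
  rcases hr0.eq_or_lt with h0 | hpos
  · -- zero speed
    have e : ∀ t, Real.sin (Real.pi * t / T) ^ 2 * FF g V (φ t ζ).1 (vel g (φ t ζ)) = 0 := by
      intro t
      rw [FF_zero' g V _ _ (by rw [hval t, ← h0]; norm_num), mul_zero]
    simp only [e, intervalIntegral.integral_zero]
    exact hneg
  · have hrne : r ≠ 0 := hpos.ne'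
    have hgeo' := IKey.geo_scale g c hgeo r⁻¹
    set e : ℝ → E n := fun s => c (r⁻¹ * s) with hedef
    have hed : ∀ s, deriv e s = r⁻¹ • vel g (φ (r⁻¹ * s) ζ) := by
      intro s
      rw [hedef, IKey.deriv_scale c hgeo.smooth, hcder]
    have hunit : ∀ t, g.val (e t) (deriv e t) (deriv e t) = 1 := by
      intro t
      rw [hed t]
      have e3 : g.val (e t) (vel g (φ (r⁻¹ * t) ζ)) (vel g (φ (r⁻¹ * t) ζ)) = r ^ 2 :=
        hval (r⁻¹ * t)
      simp only [map_smul, smul_apply, smul_eq_mul]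
      rw [e3]
      field_simp
    -- relation of the two curves
    have hrel : ∀ t, vel g (φ t ζ) = r • deriv e (r * t) ∧ (φ t ζ).1 = e (r * t) := by
      intro t
      have e1 : r⁻¹ * (r * t) = t := by rw [← mul_assoc, inv_mul_cancel₀ hrne, one_mul]
      refine ⟨?_, ?_⟩
      · rw [hed, e1, smul_smul, mul_inv_cancel₀ hrne, one_smul]
      · rw [hedef]
        simp only
        rw [e1]
    have hFF : ∀ t, FF g V (φ t ζ).1 (vel g (φ t ζ)) = r ^ 2 * FF g V (e (r * t))
        (deriv e (r * t)) := by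
      intro t
      rw [(hrel t).1, (hrel t).2, FF_smul g V _ _ _ hrne]
    by_cases hall : ∀ t, 0 < bb g V (e t) (deriv e t)
    · have hrT : 0 < r * T := mul_pos hpos hT
      have hS := h8 n G g z l V τ ψ hm hA e hgeo' hunit hall (r * T) hrT
      have hI : (∫ t in (0 : ℝ)..T, Real.sin (Real.pi * t / T) ^ 2 *
          FF g V (φ t ζ).1 (vel g (φ t ζ))) = r * ∫ t in (0 : ℝ)..(r * T),
          Real.sin (Real.pi * t / (r * T)) ^ 2 * FF g V (e t) (deriv e t) := by
        have e1 : ∀ t, Real.sin (Real.pi * t / T) ^ 2 * FF g V (φ t ζ).1 (vel g (φ t ζ)) =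
            r ^ 2 * (fun s => Real.sin (Real.pi * s / (r * T)) ^ 2 * FF g V (e s) (deriv e s))
              (r * t) := by
          intro t
          have e2 : Real.pi * (r * t) / (r * T) = Real.pi * t / T := by
            rw [show Real.pi * (r * t) = r * (Real.pi * t) by ring, mul_div_mul_left _ _ hrne]
          simp only [e2, hFF t]
          ring
        simp only [e1]
        rw [intervalIntegral.integral_const_mul,
          intervalIntegral.integral_comp_mul_left (fun s => Real.sin (Real.pi * s / (r * T)) ^ 2 *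
            FF g V (e s) (deriv e s)) hrne, smul_eq_mul, mul_zero]
        rw [← mul_assoc]
        congr 1
        rw [pow_two, mul_assoc, mul_inv_cancel₀ hrne, mul_one]
      rw [hI]
      have h9 := mul_le_mul_of_nonneg_left hS hr0
      have h10 : r * -(Real.pi ^ 2 / (2 * (r * T))) = -(Real.pi ^ 2 / (2 * T)) := by
        field_simp
      rwa [h10] at h9
    · push Not at hall
      obtain ⟨t0, ht0⟩ := hall
      have hz : ∀ s, bb g V (e s) (deriv e s) = 0 := by
        intro s
        rcases (hbb0 (e s) (deriv e s)).eq_or_lt with h | h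
        · exact h.symm
        · have := h7 n g V hA.smoothV hA.unit C hC e hgeo' hunit s t0 h
          linarith
      have e : ∀ t, Real.sin (Real.pi * t / T) ^ 2 * FF g V (φ t ζ).1 (vel g (φ t ζ)) = 0 := by
        intro t
        rw [hFF t, FF_zero g V _ _ (hz _), mul_zero, mul_zero]
      simp only [e, intervalIntegral.integral_zero]
      exact hneg

end Pool.Agent.PIN
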