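import Pool.Agent.Work.MP_13b5d9_gt.PI.Stmts

set_option autoImplicit false

/-!
# MP_13b5d9_gt, block PI, item TbI: invariance of the traces
-/

open MeasureTheory Set Filter Topology
open scoped ContDiff ENNReal

namespace Pool.Agent.PIN

open Pool.Agent.MLS Pool.Agent.STR

namespace ITbI

lemma sum_ee {n : ℕ} (v : E n) : v = ∑ i, v i • ee i := by
  ext j
  simp [ee, Pi.single_apply]

lemma val_expand {n : ℕ} (b : E n →L[ℝ] E n →L[ℝ] ℝ) (u v : E n) :
    b u v = ∑ i, ∑ j, u i * (b (ee i) (ee j)) * v j := by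
  conv_lhs => rw [sum_ee u, sum_ee v]
  simp only [map_sum, map_smul, _root_.sum_apply, _root_.smul_apply,
    smul_eq_mul, Finset.mul_sum]
  rw [Finset.sum_comm]
  refine Finset.sum_congr rfl fun i _ => Finset.sum_congr rfl fun j _ => ?_
  ring

lemma gm_posDef {n : ℕ} (g : Form n) (hg : Riem g) (x : E n) : (gm g x).PosDef := by
  refine Matrix.PosDef.of_dotProduct_mulVec_pos ?_ ?_
  · ext i j
    simp only [gm, Matrix.conjTranspose_apply, Matrix.of_apply, star_trivial]
    exact g.symm _ _ _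
  · intro v hv
    have h1 : g.val x (WithLp.toLp 2 v) (WithLp.toLp 2 v) = star v ⬝ᵥ (gm g x).mulVec v := by
      rw [val_expand]
      simp only [dotProduct, Matrix.mulVec, gm, Matrix.of_apply, Pi.star_apply, star_trivial,
        Finset.mul_sum]
      refine Finset.sum_congr rfl fun i _ => Finset.sum_congr rfl fun j _ => ?_
      ring
    rw [← h1]
    apply hg
    intro h
    apply hv
    have := congrArg (fun w : E n => (w : Fin n → ℝ)) h
    simpa using this

/-- matrix of a linear map -/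
noncomputable def mt {n : ℕ} (A : E n →L[ℝ] E n) : Matrix (Fin n) (Fin n) ℝ :=
  Matrix.of fun i j => A (ee j) i

lemma bm_eq {n : ℕ} {G : Type} [Group G] [MulAction G (E n)]
    (b : E n → E n →L[ℝ] E n →L[ℝ] ℝ)
    (hI : ∀ (a : G) (x u v : E n), b (a • x) (dac a x u) (dac a x v) = b x u v)
    (a : G) (x : E n) :
    bm b x = (mt (dac a x)).transpose * bm b (a • x) * mt (dac a x) := by
  ext i j
  have h := hI a x (ee i) (ee j)
  rw [val_expand] at h
  simp only [bm, Matrix.of_apply, Matrix.mul_apply, Matrix.transpose_apply, mt, Finset.sum_mul]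
  rw [← h, Finset.sum_comm]

lemma conj_eq {n : ℕ} (A M N : Matrix (Fin n) (Fin n) ℝ) (hA : IsUnit A.det) :
    (A.transpose * M * A)⁻¹ * (A.transpose * N * A) = A⁻¹ * (M⁻¹ * N) * A := by
  have hA' : IsUnit A.transpose.det := by rwa [Matrix.det_transpose]
  have h6 : A.transpose⁻¹ * A.transpose = 1 := Matrix.nonsing_inv_mul _ hA'
  rw [Matrix.mul_inv_rev, Matrix.mul_inv_rev]
  calc A⁻¹ * (M⁻¹ * A.transpose⁻¹) * (A.transpose * N * A)
      = A⁻¹ * (M⁻¹ * (A.transpose⁻¹ * A.transpose) * N) * A := by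
        simp only [Matrix.mul_assoc]
    _ = A⁻¹ * (M⁻¹ * N) * A := by rw [h6, Matrix.mul_one]

lemma tr_conj {n : ℕ} (A K : Matrix (Fin n) (Fin n) ℝ) (hA : IsUnit A.det) :
    (A⁻¹ * K * A).trace = K.trace := by
  rw [Matrix.mul_assoc, Matrix.trace_mul_comm, Matrix.mul_assoc, Matrix.mul_nonsing_inv _ hA,
    Matrix.mul_one]

lemma sq_conj {n : ℕ} (A K : Matrix (Fin n) (Fin n) ℝ) (hA : IsUnit A.det) :
    (A⁻¹ * K * A) * (A⁻¹ * K * A) = A⁻¹ * (K * K) * A := by
  have h6 : A * A⁻¹ = 1 := Matrix.mul_nonsing_inv _ hA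
  calc (A⁻¹ * K * A) * (A⁻¹ * K * A) = A⁻¹ * (K * (A * A⁻¹) * K) * A := by
        simp only [Matrix.mul_assoc]
    _ = A⁻¹ * (K * K) * A := by rw [h6, Matrix.mul_one]

end ITbI

open ITbI in
theorem pr_TbI : PiTbI := by
  intro n G _ _ _ g hR hI b hb a x
  have e1 : gm g x = (mt (dac a x)).transpose * gm g (a • x) * mt (dac a x) :=
    bm_eq g.val hI a x
  have e2 := bm_eq b hb a x
  have hd : (mt (dac a x)).det ≠ 0 := by
    intro h0
    have := (gm_posDef g hR x).det_pos
    rw [e1, Matrix.det_mul, h0, mul_zero] at this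
    exact lt_irrefl _ this
  have hu : IsUnit (mt (dac a x)).det := isUnit_iff_ne_zero.2 hd
  have e3 : (gm g x)⁻¹ * bm b x =
      (mt (dac a x))⁻¹ * ((gm g (a • x))⁻¹ * bm b (a • x)) * mt (dac a x) := by
    rw [e1, e2]
    exact conj_eq _ _ _ hu
  refine ⟨?_, ?_⟩
  · rw [tb, tb, e3, tr_conj _ _ hu]
  · rw [nb, nb, e3, sq_conj _ _ hu, tr_conj _ _ hu]

end Pool.Agent.PIN
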