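import Mathlib
import Pool.Agent.Work.MP_13b5d9_gt.PI.Stmts
import Pool.Agent.Work.MP_25cd3b_gt.M.I_TrI

set_option autoImplicit false

/-!
# Item Tr: the derivative of a trace in the direction of a vector field
-/

open MeasureTheory Set Filter Topology
open scoped ContDiff

namespace Pool.Agent.PIN

open Pool.Agent.MLS Pool.Agent.STR

namespace ITr

open Matrix

variable {n : ℕ}

/-- entrywise derivative of a matrix function -/
noncomputable def dM (M : E n → Matrix (Fin n) (Fin n) ℝ) (x v : E n) :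
    Matrix (Fin n) (Fin n) ℝ := Matrix.of fun i j => fderiv ℝ (fun y => M y i j) x v

/-- entries are differentiable at `x` -/
def Df (M : E n → Matrix (Fin n) (Fin n) ℝ) (x : E n) : Prop :=
  ∀ i j, DifferentiableAt ℝ (fun y => M y i j) x

lemma dM_mul {M N : E n → Matrix (Fin n) (Fin n) ℝ} {x : E n} (hM : Df M x) (hN : Df N x)
    (v : E n) : dM (fun y => M y * N y) x v = dM M x v * N x + M x * dM N x v := by
  ext i j
  have h2 : HasFDerivAt (fun y => ∑ k, M y i k * N y k j)
      (∑ k, (M x i k • fderiv ℝ (fun y => N y k j) x + N x k j • fderiv ℝ (fun y => M y i k) x)) x :=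
    HasFDerivAt.fun_sum fun k _ => (hM i k).hasFDerivAt.mul (hN k j).hasFDerivAt
  simp only [dM, Matrix.of_apply, Matrix.add_apply, Matrix.mul_apply]
  rw [h2.fderiv]
  simp only [_root_.sum_apply, _root_.add_apply,
    _root_.smul_apply, smul_eq_mul, ← Finset.sum_add_distrib]
  exact Finset.sum_congr rfl fun k _ => by ring

lemma df_mul {M N : E n → Matrix (Fin n) (Fin n) ℝ} {x : E n} (hM : Df M x) (hN : Df N x) :
    Df (fun y => M y * N y) x := by
  intro i j
  have h1 : (fun y => (M y * N y) i j) = fun y => ∑ k, M y i k * N y k j := by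
    funext y; rw [Matrix.mul_apply]
  show DifferentiableAt ℝ (fun y => (M y * N y) i j) x
  rw [h1]
  exact DifferentiableAt.fun_sum fun k _ => (hM i k).mul (hN k j)

lemma fderiv_trace {M : E n → Matrix (Fin n) (Fin n) ℝ} {x : E n} (hM : Df M x) (v : E n) :
    fderiv ℝ (fun y => (M y).trace) x v = (dM M x v).trace := by
  have h2 : HasFDerivAt (fun y => ∑ k, M y k k) (∑ k, fderiv ℝ (fun y => M y k k) x) x :=
    HasFDerivAt.fun_sum fun k _ => (hM k k).hasFDerivAt
  have h1 : (fun y => (M y).trace) = fun y => ∑ k, M y k k := by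
    funext y; simp [Matrix.trace]
  rw [h1, h2.fderiv]
  simp [Matrix.trace, dM]

lemma dM_inv {M : E n → Matrix (Fin n) (Fin n) ℝ} {x : E n} (hM : Df M x)
    (hI : Df (fun y => (M y)⁻¹) x) (hd : ∀ y, IsUnit (M y).det) (v : E n) :
    dM (fun y => (M y)⁻¹) x v = -((M x)⁻¹ * dM M x v * (M x)⁻¹) := by
  have h1 := dM_mul hI hM v
  have h2 : (fun y => (M y)⁻¹ * M y) = fun _ => 1 := by
    funext y; exact Matrix.nonsing_inv_mul _ (hd y)
  have h3 : dM (fun y => (M y)⁻¹ * M y) x v = 0 := by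
    rw [h2]
    ext i j
    simp [dM]
  rw [h3] at h1
  have h4 : dM (fun y => (M y)⁻¹) x v * M x = -((M x)⁻¹ * dM M x v) := by
    rw [eq_neg_iff_add_eq_zero]; exact h1.symm
  have h5 := congrArg (· * (M x)⁻¹) h4
  simp only [Matrix.mul_assoc, Matrix.mul_nonsing_inv _ (hd x), Matrix.mul_one] at h5
  rw [h5, Matrix.neg_mul, Matrix.mul_assoc]

lemma bm_smooth {b : E n → E n →L[ℝ] E n →L[ℝ] ℝ} (hb : ContDiff ℝ ∞ b) (i j : Fin n) :
    ContDiff ℝ ∞ (fun x => bm b x i j) := by
  have h : ContDiff ℝ ∞ (fun x => b x (ee i) (ee j)) :=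
    (hb.clm_apply contDiff_const).clm_apply contDiff_const
  simpa [bm] using h

lemma lie_eq (V : E n → E n) (b : E n → E n →L[ℝ] E n →L[ℝ] ℝ) (x u v : E n) :
    Lie V b x u v = fderiv ℝ b x (V x) u v + b x (fderiv ℝ V x u) v + b x u (fderiv ℝ V x v) := by
  simp [Lie]

/-- the Jacobi matrix -/
noncomputable def Jm (V : E n → E n) (x : E n) : Matrix (Fin n) (Fin n) ℝ :=
  Matrix.of fun k i => fderiv ℝ V x (ee i) k

lemma dM_bm {V : E n → E n} {b : E n → E n →L[ℝ] E n →L[ℝ] ℝ} (hb : ContDiff ℝ ∞ b) (x : E n) :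
    dM (bm b) x (V x) = bm (Lie V b) x - (Jm V x)ᵀ * bm b x - bm b x * Jm V x := by
  ext i j
  have hd : DifferentiableAt ℝ b x := (hb.differentiable (by simp)) x
  have h1 : fderiv ℝ (fun y => b y (ee i) (ee j)) x (V x) = fderiv ℝ b x (V x) (ee i) (ee j) := by
    have h2 : HasFDerivAt (fun y => b y (ee i)) ((fderiv ℝ b x).flip (ee i)) x := by
      have := hd.hasFDerivAt.clm_apply (hasFDerivAt_const (ee i : E n) x)
      simpa using this
    have h2' : HasFDerivAt (fun y => b y (ee i) (ee j))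
        (((fderiv ℝ b x).flip (ee i)).flip (ee j)) x := by
      have := h2.clm_apply (hasFDerivAt_const (ee j : E n) x)
      simpa using this
    rw [h2'.fderiv]
    simp
  have h3 : b x (fderiv ℝ V x (ee i)) (ee j) = ((Jm V x)ᵀ * bm b x) i j := by
    conv_lhs => rw [ITrI.expand (fderiv ℝ V x (ee i))]
    simp [Matrix.mul_apply, Jm, bm, map_sum]
  have h4 : b x (ee i) (fderiv ℝ V x (ee j)) = (bm b x * Jm V x) i j := by
    conv_lhs => rw [ITrI.expand (fderiv ℝ V x (ee j))]
    simp only [map_sum, map_smul, smul_eq_mul, Matrix.mul_apply, Jm, bm, Matrix.of_apply]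
    exact Finset.sum_congr rfl fun k _ => by ring
  have h5 : dM (bm b) x (V x) i j = fderiv ℝ b x (V x) (ee i) (ee j) := by
    rw [← h1]; rfl
  have h6 : bm (Lie V b) x i j = fderiv ℝ b x (V x) (ee i) (ee j) + ((Jm V x)ᵀ * bm b x) i j
      + (bm b x * Jm V x) i j := by
    rw [← h3, ← h4]; exact lie_eq V b x _ _
  rw [Matrix.sub_apply, Matrix.sub_apply, h5, h6]
  ring

lemma alg (P M N J LM LN : Matrix (Fin n) (Fin n) ℝ) (h1 : P * M = 1) (h2 : M * P = 1) :
    (-(P * (LM - Jᵀ * M - M * J) * P) * N + P * (LN - Jᵀ * N - N * J)).trace =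
      (P * LN).trace - ((P * LM) * (P * N)).trace := by
  have e1 : P * (LM - Jᵀ * M - M * J) * P * N = P * LM * (P * N) - P * Jᵀ * N - J * P * N := by
    rw [Matrix.mul_sub, Matrix.mul_sub, Matrix.sub_mul, Matrix.sub_mul, Matrix.sub_mul,
      Matrix.sub_mul]
    congr 1
    · congr 1
      · simp only [Matrix.mul_assoc]
      · calc P * (Jᵀ * M) * P * N = P * Jᵀ * (M * P) * N := by simp only [Matrix.mul_assoc]
          _ = P * Jᵀ * N := by rw [h2, Matrix.mul_one]
    · calc P * (M * J) * P * N = (P * M) * J * P * N := by simp only [Matrix.mul_assoc]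
        _ = J * P * N := by rw [h1, Matrix.one_mul]
  have e2 : P * (LN - Jᵀ * N - N * J) = P * LN - P * Jᵀ * N - P * N * J := by
    rw [Matrix.mul_sub, Matrix.mul_sub]; simp only [Matrix.mul_assoc]
  have e3 : (P * N * J).trace = (J * P * N).trace := by
    rw [Matrix.trace_mul_comm, Matrix.mul_assoc]
  rw [Matrix.neg_mul, e1, e2, Matrix.trace_add, Matrix.trace_neg, Matrix.trace_sub,
    Matrix.trace_sub, Matrix.trace_sub, Matrix.trace_sub, e3]
  ring

end ITr

open ITr Matrix in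
theorem pr_Tr (h1 : StDens) : PiTr := by
  intro n g hg V hV b hb
  obtain ⟨hpos, -, -⟩ := h1 n g hg
  have hu : ∀ y, IsUnit (gm g y).det := fun y => isUnit_iff_ne_zero.2 (hpos y).ne'
  have hI : ∀ i j, ContDiff ℝ ∞ (fun x => (gm g x)⁻¹ i j) := fun i j =>
    ITrI.inv_smooth (ITrI.gm_smooth g) (fun x => (hpos x).ne') i j
  have hN : ∀ i j, ContDiff ℝ ∞ (fun x => bm b x i j) := bm_smooth hb
  have hP : ∀ i j, ContDiff ℝ ∞ (fun x => ((gm g x)⁻¹ * bm b x) i j) := by
    intro i j
    have e : (fun x => ((gm g x)⁻¹ * bm b x) i j) = fun x => ∑ k, (gm g x)⁻¹ i k * bm b x k j := by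
      funext x; rw [Matrix.mul_apply]
    rw [e]
    exact ContDiff.sum fun k _ => (hI i k).mul (hN k j)
  refine ⟨?_, ?_, fun x => ?_⟩
  · have e : tb g b = fun x => ∑ k, ((gm g x)⁻¹ * bm b x) k k := by
      funext x; simp [tb, Matrix.trace]
    rw [e]
    exact ContDiff.sum fun k _ => hP k k
  · have e : nb g b = fun x => ∑ i, ∑ k, ((gm g x)⁻¹ * bm b x) i k * ((gm g x)⁻¹ * bm b x) k i := by
      funext x
      simp only [nb, Matrix.trace, Matrix.diag_apply]
      exact Finset.sum_congr rfl fun i _ => Matrix.mul_apply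
    rw [e]
    exact ContDiff.sum fun i _ => ContDiff.sum fun k _ => (hP i k).mul (hP k i)
  · have dd : ∀ {f : E n → ℝ}, ContDiff ℝ ∞ f → DifferentiableAt ℝ f x := fun hf =>
      (hf.differentiable (by simp)) x
    have hM' : Df (gm g) x := fun i j => dd (ITrI.gm_smooth g i j)
    have hI' : Df (fun y => (gm g y)⁻¹) x := fun i j => dd (hI i j)
    have hN' : Df (bm b) x := fun i j => dd (hN i j)
    have e1 : fderiv ℝ (tb g b) x (V x) = (dM (fun y => (gm g y)⁻¹ * bm b y) x (V x)).trace :=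
      fderiv_trace (df_mul hI' hN') (V x)
    have e2 : gm g = bm g.val := rfl
    rw [e1, dM_mul hI' hN', dM_inv hM' hI' hu]
    have e3 : dM (gm g) x (V x) = bm (Lie V g.val) x - (Jm V x)ᵀ * gm g x - gm g x * Jm V x := by
      rw [e2]; exact dM_bm g.smooth x
    rw [e3, dM_bm hb]
    exact alg _ _ _ _ _ _ (Matrix.nonsing_inv_mul _ (hu x)) (Matrix.mul_nonsing_inv _ (hu x))

end Pool.Agent.PIN
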