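import Pool.Agent.Work.MP_13b5d9_gt.PI.Stmts

set_option autoImplicit false

open MeasureTheory Set Filter Topology
open scoped ContDiff ENNReal

namespace Pool.Agent.PIN

open Pool.Agent.MLS Pool.Agent.STR

namespace ITst

/-- the integral of the square of the derivative of the sine -/
theorem int_cos {T : ℝ} (hT : 0 < T) :
    ∫ t in (0 : ℝ)..T, (Real.pi / T * Real.cos (Real.pi * t / T)) ^ 2 = Real.pi ^ 2 / (2 * T) := by
  have hp := Real.pi_pos
  have h1 : ∀ t : ℝ, HasDerivAt (fun t : ℝ => Real.pi ^ 2 / T ^ 2 * (t / 2) +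
      Real.pi / (2 * T) * (Real.sin (Real.pi * t / T) * Real.cos (Real.pi * t / T)))
      ((Real.pi / T * Real.cos (Real.pi * t / T)) ^ 2) t := by
    intro t
    have h2 : HasDerivAt (fun t : ℝ => Real.pi * t / T) (Real.pi / T) t := by
      have := ((hasDerivAt_id t).const_mul Real.pi).div_const T
      simpa using this
    have h3 := (h2.sin.mul h2.cos).const_mul (Real.pi / (2 * T))
    have h4 := ((hasDerivAt_id t).div_const 2).const_mul (Real.pi ^ 2 / T ^ 2)
    have h5 := h4.add h3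
    refine h5.congr_deriv ?_
    have h6 : Real.sin (Real.pi * t / T) ^ 2 = 1 - Real.cos (Real.pi * t / T) ^ 2 := by
      rw [← Real.sin_sq_add_cos_sq (Real.pi * t / T)]; ring
    have h7 : Real.pi ^ 2 / T ^ 2 * (1 / 2) + Real.pi / (2 * T) *
        (Real.cos (Real.pi * t / T) * (Real.pi / T) * Real.cos (Real.pi * t / T) +
          Real.sin (Real.pi * t / T) * (-Real.sin (Real.pi * t / T) * (Real.pi / T))) =
        Real.pi ^ 2 / T ^ 2 * (1 / 2) + Real.pi ^ 2 / (2 * T ^ 2) *
          (Real.cos (Real.pi * t / T) ^ 2 - Real.sin (Real.pi * t / T) ^ 2) := by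
      field_simp
      ring
    rw [h7, h6]
    field_simp
    ring
  have h2 : IntervalIntegrable (fun t : ℝ => (Real.pi / T * Real.cos (Real.pi * t / T)) ^ 2) volume 0 T :=
    Continuous.intervalIntegrable (by fun_prop) _ _
  rw [intervalIntegral.integral_eq_sub_of_hasDerivAt (fun t _ => h1 t) h2]
  rw [mul_div_assoc Real.pi T T, div_self hT.ne', mul_one, Real.sin_pi]
  simp only [mul_zero, zero_div, Real.sin_zero, zero_mul, add_zero, sub_zero]
  field_simp

/-- the algebraic identity of the test function -/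
theorem alg (a a' b η η' : ℝ) (hb : 0 < b) (h : b ^ 2 = 1 - a ^ 2) (A2 : ℝ) :
    ((η' * b - η * (-(a * a') / b)) / b ^ 2) ^ 2 + 1 / 2 * (η / b) ^ 2 * A2 -
      (a' * (η / b) + a * ((η' * b - η * (-(a * a') / b)) / b ^ 2)) ^ 2 =
    η' ^ 2 + η ^ 2 * (1 * (A2 / (2 * b ^ 2) - (2 * a') ^ 2 / (4 * (b ^ 2) ^ 2))) := by
  have hb' : b ≠ 0 := hb.ne'
  have e1 : (η' * b - η * (-(a * a') / b)) / b ^ 2 = (η' * b ^ 2 + η * a * a') / b ^ 3 := by
    field_simp
    ring
  have e2 : a' * (η / b) + a * ((η' * b ^ 2 + η * a * a') / b ^ 3) =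
      (a * η' * b ^ 2 + a' * η) / b ^ 3 := by
    have : a' * (η / b) + a * ((η' * b ^ 2 + η * a * a') / b ^ 3) =
      (a' * η * b ^ 2 + a * η' * b ^ 2 + a ^ 2 * η * a') / b ^ 3 := by
      field_simp
      ring
    rw [this]
    congr 1
    rw [h]
    ring
  rw [e1, e2]
  have e3 : ((η' * b ^ 2 + η * a * a') / b ^ 3) ^ 2 - ((a * η' * b ^ 2 + a' * η) / b ^ 3) ^ 2 =
      η' ^ 2 - η ^ 2 * a' ^ 2 / (b ^ 2) ^ 2 := by
    rw [div_pow, div_pow, ← sub_div]
    have e4 : (η' * b ^ 2 + η * a * a') ^ 2 - (a * η' * b ^ 2 + a' * η) ^ 2 =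
        (η' ^ 2 * (b ^ 2) ^ 2 - η ^ 2 * a' ^ 2) * b ^ 2 := by
      rw [h]; ring
    rw [e4]
    field_simp
  have e5 : 1 / 2 * (η / b) ^ 2 * A2 = η ^ 2 * (A2 / (2 * b ^ 2)) := by
    field_simp
  linear_combination e3 + e5

end ITst

theorem pr_Tst (h1 : PiLie) (h2 : PiA) (h3 : PiIdx) : PiTst := by
  intro n G _ _ g z l V τ ψ hM hA c hc hunit hpos T hT
  have hV := hA.smoothV
  obtain ⟨ha, -⟩ := h2 n g V hV c hc
  -- names
  obtain ⟨a, haD⟩ : ∃ a : ℝ → ℝ, a = fun t => g.val (c t) (V (c t)) (deriv c t) := ⟨_, rfl⟩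
  obtain ⟨A1, hA1D⟩ : ∃ A1 : ℝ → ℝ, A1 = fun t => Lie V g.val (c t) (deriv c t) (deriv c t) := ⟨_, rfl⟩
  obtain ⟨A2, hA2D⟩ : ∃ A2 : ℝ → ℝ, A2 = fun t => Lie V (Lie V g.val) (c t) (deriv c t) (deriv c t) := ⟨_, rfl⟩
  have hL1 : ContDiff ℝ ∞ (Lie V g.val) := (h1 n V g.val hV g.smooth).1
  have hL2 : ContDiff ℝ ∞ (Lie V (Lie V g.val)) := (h1 n V (Lie V g.val) hV hL1).1
  have hcc : Continuous c := hc.smooth.continuous
  have hc1 : Continuous (deriv c) := hc.smooth.continuous_deriv (by norm_num)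
  have hA1c : Continuous A1 := by
    rw [hA1D]
    exact ((hL1.continuous.comp hcc).clm_apply hc1).clm_apply hc1
  have hA2c : Continuous A2 := by
    rw [hA2D]
    exact ((hL2.continuous.comp hcc).clm_apply hc1).clm_apply hc1
  have ha' : ∀ t, HasDerivAt a (1 / 2 * A1 t) t := by
    intro t
    rw [haD, hA1D]
    exact ha t
  have hac : Continuous a := continuous_iff_continuousAt.2 fun t => (ha' t).continuousAt
  have hbb : ∀ t, bb g V (c t) (deriv c t) = 1 - a t ^ 2 := by
    intro t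
    unfold bb
    rw [hunit t, haD]
  have hβ : ∀ t, 0 < 1 - a t ^ 2 := fun t => by rw [← hbb t]; exact hpos t
  obtain ⟨b, hbD⟩ : ∃ b : ℝ → ℝ, b = fun t => Real.sqrt (1 - a t ^ 2) := ⟨_, rfl⟩
  have hb0 : ∀ t, 0 < b t := fun t => by rw [hbD]; exact Real.sqrt_pos.2 (hβ t)
  have hb2 : ∀ t, b t ^ 2 = 1 - a t ^ 2 := fun t => by rw [hbD]; exact Real.sq_sqrt (hβ t).le
  have hbd : ∀ t, HasDerivAt b (-(a t * (1 / 2 * A1 t)) / b t) t := by
    intro t
    have e1 : HasDerivAt (fun t => 1 - a t ^ 2) (-(2 * a t * (1 / 2 * A1 t))) t := by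
      have := ((ha' t).pow 2).const_sub 1
      refine this.congr_deriv ?_
      simp
    have e2 := e1.sqrt (hβ t).ne'
    have e3 : HasDerivAt b (-(2 * a t * (1 / 2 * A1 t)) / (2 * b t)) t := by
      rw [hbD]
      exact e2
    refine e3.congr_deriv ?_
    have := (hb0 t).ne'
    field_simp
  have hbc : Continuous b := continuous_iff_continuousAt.2 fun t => (hbd t).continuousAt
  have hη : ∀ t : ℝ, HasDerivAt (fun t : ℝ => Real.sin (Real.pi * t / T))
      (Real.pi / T * Real.cos (Real.pi * t / T)) t := by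
    intro t
    have e2 : HasDerivAt (fun t : ℝ => Real.pi * t / T) (Real.pi / T) t := by
      have := ((hasDerivAt_id t).const_mul Real.pi).div_const T
      simpa using this
    exact e2.sin.congr_deriv (mul_comm _ _)
  have hf : ∀ t, HasDerivAt (fun t => Real.sin (Real.pi * t / T) / b t)
      ((Real.pi / T * Real.cos (Real.pi * t / T) * b t -
        Real.sin (Real.pi * t / T) * (-(a t * (1 / 2 * A1 t)) / b t)) / b t ^ 2) t := fun t =>
    (hη t).div (hbd t) (hb0 t).ne'
  have hfd : deriv (fun t => Real.sin (Real.pi * t / T) / b t) = fun t =>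
      ((Real.pi / T * Real.cos (Real.pi * t / T) * b t -
        Real.sin (Real.pi * t / T) * (-(a t * (1 / 2 * A1 t)) / b t)) / b t ^ 2) :=
    funext fun t => (hf t).deriv
  have hfs : ContDiff ℝ 1 (fun t => Real.sin (Real.pi * t / T) / b t) := by
    rw [contDiff_one_iff_deriv]
    refine ⟨fun t => (hf t).differentiableAt, ?_⟩
    rw [hfd]
    refine Continuous.div ?_ (by fun_prop) (fun t => pow_ne_zero 2 (hb0 t).ne')
    refine Continuous.sub (by fun_prop) ?_
    refine Continuous.mul (by fun_prop) ?_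
    exact Continuous.div (by fun_prop) hbc fun t => (hb0 t).ne'
  have key := h3 n G g z l V τ ψ hM hA c hc hunit T hT (fun t => Real.sin (Real.pi * t / T) / b t) hfs
    (by simp) (by simp [mul_div_assoc, div_self hT.ne'])
  have e0 : ∀ t, (deriv (fun t => Real.sin (Real.pi * t / T) / b t) t) ^ 2 +
      1 / 2 * (Real.sin (Real.pi * t / T) / b t) ^ 2 * Lie V (Lie V g.val) (c t) (deriv c t) (deriv c t) -
      (1 / 2 * Lie V g.val (c t) (deriv c t) (deriv c t) * (Real.sin (Real.pi * t / T) / b t) +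
        g.val (c t) (V (c t)) (deriv c t) * deriv (fun t => Real.sin (Real.pi * t / T) / b t) t) ^ 2 =
      (Real.pi / T * Real.cos (Real.pi * t / T)) ^ 2 +
        Real.sin (Real.pi * t / T) ^ 2 * FF g V (c t) (deriv c t) := by
    intro t
    rw [hfd]
    have e1 : Lie V (Lie V g.val) (c t) (deriv c t) (deriv c t) = A2 t := by rw [hA2D]
    have e2 : Lie V g.val (c t) (deriv c t) (deriv c t) = A1 t := by rw [hA1D]
    have e3 : g.val (c t) (V (c t)) (deriv c t) = a t := by rw [haD]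
    unfold FF
    rw [e1, e2, e3, hunit t, hbb t, ← hb2 t]
    have := ITst.alg (a t) (1 / 2 * A1 t) (b t) (Real.sin (Real.pi * t / T))
      (Real.pi / T * Real.cos (Real.pi * t / T)) (hb0 t) (hb2 t) (A2 t)
    rw [show (2 : ℝ) * (1 / 2 * A1 t) = A1 t by ring] at this
    exact this
  have e1 : (∫ t in (0 : ℝ)..T, ((deriv (fun t => Real.sin (Real.pi * t / T) / b t) t) ^ 2 +
      1 / 2 * (Real.sin (Real.pi * t / T) / b t) ^ 2 * Lie V (Lie V g.val) (c t) (deriv c t) (deriv c t) -
      (1 / 2 * Lie V g.val (c t) (deriv c t) (deriv c t) * (Real.sin (Real.pi * t / T) / b t) +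
        g.val (c t) (V (c t)) (deriv c t) * deriv (fun t => Real.sin (Real.pi * t / T) / b t) t) ^ 2)) =
      ∫ t in (0 : ℝ)..T, ((Real.pi / T * Real.cos (Real.pi * t / T)) ^ 2 +
        Real.sin (Real.pi * t / T) ^ 2 * FF g V (c t) (deriv c t)) :=
    intervalIntegral.integral_congr fun t _ => e0 t
  have hFc : Continuous fun t => FF g V (c t) (deriv c t) := by
    have : (fun t => FF g V (c t) (deriv c t)) = fun t =>
        1 * (A2 t / (2 * (1 - a t ^ 2)) - A1 t ^ 2 / (4 * (1 - a t ^ 2) ^ 2)) := by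
      funext t
      unfold FF
      rw [hunit t, hbb t, hA1D, hA2D]
    rw [this]
    refine Continuous.mul continuous_const (Continuous.sub ?_ ?_)
    · exact Continuous.div hA2c (by fun_prop) fun t => (mul_pos two_pos (hβ t)).ne'
    · exact Continuous.div (by fun_prop) (by fun_prop) fun t =>
        (mul_pos four_pos (pow_pos (hβ t) 2)).ne'
  rw [e1, intervalIntegral.integral_add, ITst.int_cos hT] at key
  · linarith
  · exact Continuous.intervalIntegrable (by fun_prop) _ _
  · exact Continuous.intervalIntegrable (by fun_prop) _ _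

end Pool.Agent.PIN
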