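import Pool.Agent.Work.MP_25cd3b_gt.NG.All
import Pool.Agent.Work.MP_13b5d9_gt.PI.I_Lie
import Pool.Agent.Work.MP_13b5d9_gt.PI.I_Flo
import Pool.Agent.Work.MP_13b5d9_gt.PI.I_LV
import Pool.Agent.Work.MP_13b5d9_gt.PI.I_Inv
import Pool.Agent.Work.MP_13b5d9_gt.PI.I_Bd
import Pool.Agent.Work.MP_13b5d9_gt.PI.I_Iso
import Pool.Agent.Work.MP_13b5d9_gt.PI.I_A
import Pool.Agent.Work.MP_13b5d9_gt.PI.I_Pos
import Pool.Agent.Work.MP_13b5d9_gt.PI.I_Tay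
import Pool.Agent.Work.MP_13b5d9_gt.PI.I_Calc
import Pool.Agent.Work.MP_13b5d9_gt.PI.I_Var
import Pool.Agent.Work.MP_13b5d9_gt.PI.I_Idx
import Pool.Agent.Work.MP_13b5d9_gt.PI.I_Tst
import Pool.Agent.Work.MP_13b5d9_gt.PI.I_Seg
import Pool.Agent.Work.MP_13b5d9_gt.PI.I_Mea
import Pool.Agent.Work.MP_13b5d9_gt.PI.I_Avg
import Pool.Agent.Work.MP_13b5d9_gt.PI.I_Flu
import Pool.Agent.Work.MP_13b5d9_gt.PI.I_Mom
import Pool.Agent.Work.MP_13b5d9_gt.PI.I_Frm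
import Pool.Agent.Work.MP_13b5d9_gt.PI.I_Fib
import Pool.Agent.Work.MP_13b5d9_gt.PI.I_Tr
import Pool.Agent.Work.MP_13b5d9_gt.PI.I_Dv
import Pool.Agent.Work.MP_13b5d9_gt.PI.I_TbI
import Pool.Agent.Work.MP_13b5d9_gt.PI.I_Int
import Pool.Agent.Work.MP_13b5d9_gt.PI.I_Main
import Pool.Agent.Work.MP_13b5d9_gt.PI.I_Pin
import Pool.Agent.Work.MP_13b5d9_gt.PI.I_Cnf
import Pool.Agent.Work.MP_13b5d9_gt.PI.I_Dom
import Pool.Agent.Work.MP_13b5d9_gt.PI.I_Th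

set_option autoImplicit false

/-!
# MP_13b5d9_gt: block PI assembled
-/

namespace Pool.Agent.PIN

open Pool.Agent.MLS Pool.Agent.STR

theorem p_Flo : PiFlo := pr_Flo pr_Lie
theorem p_LV : PiLV := pr_LV pr_Lie p_Flo
theorem p_Inv : PiInv := pr_Inv
theorem p_Bd : PiBd := pr_Bd pr_Bnd
theorem p_Iso : PiIso := pr_Iso p_Flo
theorem p_A : PiA := pr_A pr_Lie
theorem p_Pos : PiPos := pr_Pos p_A
theorem p_Var : PiVar := pr_Var p_LV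
theorem p_Idx : PiIdx := pr_Idx pr_Gd pr_Lie p_Flo p_A pr_Tay pr_Calc p_Var
theorem p_Tst : PiTst := pr_Tst pr_Lie p_A p_Idx
theorem p_Seg : PiSeg := pr_Seg pr_Op p_Geo1 pr_Lie p_LV p_Inv p_Bd p_Pos p_Tst
theorem p_Mea : PiMea := pr_Mea pr_Op p_LftA pr_Lie p_LV p_Inv p_Bd
theorem p_Avg : PiAvg := pr_Avg MLS.p_Avg p_Sub pr_Op p_Geo1 p_LftA
theorem p_Flu : PiFlu := pr_Flu p_Flow p_Sub pr_Op p_Geo1 p_Seg p_Mea p_Avg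
theorem p_Frm : PiFrm := pr_Frm pr_Op
theorem p_Fib : PiFib := pr_Fib pr_Op pr_Mom p_Frm
theorem p_Tr : PiTr := pr_Tr pr_Dens
theorem p_Dv : PiDv := pr_Dv pr_Dens
theorem p_Int : PiInt := pr_Int pr_Dens pr_DivZ pr_Lie p_Inv p_Tr p_Dv pr_TbI
theorem p_Main : PiMain := pr_Main p_Sub pr_Op pr_Dens pr_Lie p_LV p_Mea p_Flu p_Fib p_Int p_Tr
theorem p_Pin : PiPin := pr_Pin pr_PU pr_Dens pr_Lie p_Inv p_Tr pr_TbI p_Main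
theorem p_Dom : PiDom := pr_Dom pr_PU p_FD pr_Lie p_Inv p_Tr pr_TbI p_Main

theorem p_Th (hAx : StAx) : PiTh := pr_Th p_NC hAx p_Dom p_Pin pr_Cnf p_Iso

end Pool.Agent.PIN
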