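import Pool.Agent.Work.MP_13b5d9_gt.ST.Stmts

set_option autoImplicit false

/-!
# MP_13b5d9_gt, block PI (shear inequality and pinching): definitions

`V` is the canonical field of a central element (`STR.Axis`), `b = g (V, v)` its product with a
velocity `v`.
-/

open MeasureTheory Set Filter Topology
open scoped ContDiff ENNReal

namespace Pool.Agent.PIN

open Pool.Agent.MLS Pool.Agent.STR

/-- The flow `ψ` preserves the metric.  (If `ψ` is the flow of the canonical field `V = grad τ` of
`Axis` this says that `(y, t) ↦ ψ t y` is an isometry of the Riemannian product of the level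
`{τ = 0}` and the line with the universal covering.) -/
def FlowIso {n : ℕ} (g : Form n) (ψ : ℝ → E n → E n) : Prop :=
  ∀ (t : ℝ) (x u v : E n),
    g.val (ψ t x) (fderiv ℝ (ψ t) x u) (fderiv ℝ (ψ t) x v) = g.val x u v

/-! ### auxiliary definitions of the proof -/

/-- square of the length of the component of `v` orthogonal to `V` -/
noncomputable def bb {n : ℕ} (g : Form n) (V : E n → E n) (x v : E n) : ℝ :=
  g.val x v v - (g.val x (V x) v) ^ 2

/-- trace of `b` with respect to `g` -/
noncomputable def tb {n : ℕ} (g : Form n) (b : E n → E n →L[ℝ] E n →L[ℝ] ℝ) (x : E n) : ℝ :=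
  ((gm g x)⁻¹ * bm b x).trace

/-- square of the norm of the symmetric form `b` with respect to `g` -/
noncomputable def nb {n : ℕ} (g : Form n) (b : E n → E n →L[ℝ] E n →L[ℝ] ℝ) (x : E n) : ℝ :=
  (((gm g x)⁻¹ * bm b x) * ((gm g x)⁻¹ * bm b x)).trace

/-- the index density: for unit vectors `v` it is the value of the index form of the plane spanned
by `v` and `V` without the term with the derivative -/
noncomputable def FF {n : ℕ} (g : Form n) (V : E n → E n) (x v : E n) : ℝ :=
  g.val x v v * (Lie V (Lie V g.val) x v v / (2 * bb g V x v) -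
    (Lie V g.val x v v) ^ 2 / (4 * (bb g V x v) ^ 2))

end Pool.Agent.PIN
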