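import Pool.Agent.Work.MP_13b5d9_gt.PI.All
import Pool.Agent.Work.MP_13b5d9_gt.ST.All93
import Pool.Agent.Work.MP_13b5d9_gt.PI.MxBridge
import Pool.Agent.Work.MP_13b5d9_gt.PI.MxNC

set_option autoImplicit false

/-!
# MP_13b5d9_gt: the shear inequality for metrics without conjugate points
-/

open MeasureTheory
open Pool.Agent.Mx

namespace Pool.Agent.Work.MP_13b5d9_gt.PI.Draft

/-- Let `R^n / G` (`n ≥ 2`) be a closed manifold, `z ≠ 1` a central element of `G` and `g` a metric of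
the manifold without conjugate points.  Then `z` has a canonical field `V` (`Axis`), its divergence
and its covariant derivative satisfy `(n + 2) ∫ (div V)^2 ≤ 2 n ∫ |∇V|^2` (integrals over any
fundamental domain), and the universal covering splits along `V` if
`2 n |∇V|^2 < (n + 2) (div V)^2` at all points with `∇V ≠ 0`. -/
theorem result (n : ℕ) (hn : 2 ≤ n) (G : Type) [Group G] [MulAction G (E n)]
    (hG : Cocompact n G) (g : E n → Matrix (Fin n) (Fin n) ℝ) (hg : Met g) (hi : Inv G g)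
    (hN : NoConj g) (z : G) (hz : z ≠ 1) (hc : ∀ a : G, a * z = z * a) :
    ∃ (l : ℝ) (V : E n → E n) (τ : E n → ℝ) (ψ : ℝ → E n → E n),
      Axis n G g z l V τ ψ ∧
      (∀ D : Set (E n), MeasurableSet D → (∀ x : E n, ∃! a : G, a • x ∈ D) →
        (n + 2) * (∫ x in D, dvg g V x ^ 2 * dens g x) ≤
          2 * n * (∫ x in D, shr g V x * dens g x)) ∧
      ((∀ x, lie V g x ≠ 0 → 2 * n * shr g V x < (n + 2) * dvg g V x ^ 2) →
        Splits g V τ ψ) := by
  obtain ⟨m, rfl⟩ : ∃ m, n = m + 1 := ⟨n - 1, by omega⟩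
  have hm : 0 < m := by omega
  have hG' := coc G hG
  have hR := frm_riem g hg
  have hI' := (inv_iff G g hg).2 hi
  have hN' := (noConj_iff MLS.p_NcGa g hg).2 hN
  obtain ⟨l, V, τ, ψ, hA⟩ := STR.p_Ax (m + 1) G hG' (frm g hg) hR hI' hN' z hz hc
  have hM := MLS.p_NC (m + 1) G hG' (frm g hg) hR hI' hN'
  have e1 : (((m + 1 : ℕ) : ℝ) + 2) = (m : ℝ) + 3 := by push_cast; ring
  have e2 : (2 * ((m + 1 : ℕ) : ℝ)) = 2 * (m : ℝ) + 2 := by push_cast; ring
  rw [e1, e2]
  refine ⟨l, V, τ, ψ, (axis_iff G g hg z l V τ ψ).1 hA, ?_, ?_⟩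
  · intro D hD hD'
    have h1 := PIN.p_Dom m G hm hG' (frm g hg) hR hI' hM z l V τ ψ hA D hD hD'
    simpa only [dvg_eq, shr_eq, dens_eq] using h1
  · intro h
    refine splits_of G g hg z l V τ ψ ((axis_iff G g hg z l V τ ψ).1 hA)
      (PIN.p_Iso (m + 1) G (frm g hg) z l V τ ψ hA
      (PIN.p_Pin m G hm hG' (frm g hg) hR hI' hM z l V τ ψ hA fun x hx => ?_))
    rw [shr_eq, dvg_eq]
    exact h x ((lie_ne g hg V x).1 hx)

end Pool.Agent.Work.MP_13b5d9_gt.PI.Draft
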