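import Pool.Agent.Work.MP_13b5d9_gt.PI.Stmts
import Pool.Agent.Work.MP_25cd3b_gt.M.I_Fib

set_option autoImplicit false

/-!
# Block PI, item Frm: adapted frame
-/

open MeasureTheory Set Filter Topology
open scoped ContDiff ENNReal

namespace Pool.Agent.PIN

open Pool.Agent.MLS Pool.Agent.STR

theorem pr_Frm (h : StOp) : PiFrm := by
  intro m g hg x w hw
  obtain ⟨-, hop, -⟩ := h (m + 1) g hg
  have hPD := IFib.gm_posDef g hg x
  obtain ⟨R, hRt, hRR⟩ := IFib.exR (gm g x) hPD.posSemidef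
  have hdR : R.det * R.det = (gm g x).det := by rw [← Matrix.det_mul, hRR]
  have hR0 : R.det ≠ 0 := by
    intro h0
    rw [h0] at hdR
    simp at hdR
    exact hPD.det_pos.ne hdR
  have hRu : IsUnit R.det := isUnit_iff_ne_zero.mpr hR0
  have hRi : R * R⁻¹ = 1 := Matrix.mul_nonsing_inv R hRu
  have hiR : R⁻¹ * R = 1 := Matrix.nonsing_inv_mul R hRu
  set T := Matrix.toEuclideanCLM (n := Fin (m + 1)) (𝕜 := ℝ) R with hT
  set T' := Matrix.toEuclideanCLM (n := Fin (m + 1)) (𝕜 := ℝ) R⁻¹ with hT'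
  have hTT' : ∀ ξ, T (T' ξ) = ξ := by
    intro ξ
    have : (T * T') ξ = ξ := by rw [hT, hT', ← map_mul, hRi, map_one]; rfl
    exact this
  have hT'T : ∀ ξ, T' (T ξ) = ξ := by
    intro ξ
    have : (T' * T) ξ = ξ := by rw [hT, hT', ← map_mul, hiR, map_one]; rfl
    exact this
  have hopT : ∀ ξ, op g x (T' ξ) = T ξ := by
    intro ξ
    rw [IFib.op_eq g hg h]
    have : (Matrix.toEuclideanCLM (n := Fin (m + 1)) (𝕜 := ℝ) (gm g x) * T') ξ = T ξ := by
      rw [hT', hT, ← map_mul, ← hRR, Matrix.mul_assoc, hRi, Matrix.mul_one]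
    exact this
  have hTs : ∀ ξ η, inner ℝ (T ξ) η = inner ℝ ξ (T η) := by
    intro ξ η
    rw [real_inner_comm, hT, Matrix.inner_toEuclideanCLM, Matrix.inner_toEuclideanCLM,
      Matrix.dotProduct_mulVec, ← Matrix.mulVec_transpose, hRt, dotProduct_comm]
  have hval : ∀ ξ η, g.val x (T' ξ) (T' η) = inner ℝ ξ η := by
    intro ξ η
    rw [← hop x (T' ξ) (T' η), hopT, hTs, hTT']
  -- the unit vector
  have hu : ‖(ee 0 : E (m + 1))‖ = ‖T w‖ := by
    have h1 : ‖(ee 0 : E (m + 1))‖ = 1 := by simp [ee]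
    have h2 : ‖T w‖ ^ 2 = 1 := by
      rw [← real_inner_self_eq_norm_sq, ← hval, hT'T, hw]
    rw [h1]
    have h3 : 0 ≤ ‖T w‖ := norm_nonneg _
    nlinarith
  set R₀ : E (m + 1) ≃ₗᵢ[ℝ] E (m + 1) :=
    Submodule.reflection (Submodule.span ℝ {(ee 0 : E (m + 1)) - T w})ᗮ with hR₀
  have hRe : R₀ (ee 0) = T w := Submodule.reflection_sub hu
  let L₁ : E (m + 1) ≃L[ℝ] E (m + 1) :=
    ContinuousLinearEquiv.equivOfInverse T' T hTT' hT'T
  refine ⟨R₀.toContinuousLinearEquiv.trans L₁, ?_, ?_⟩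
  · show T' (R₀ (ee 0)) = w
    rw [hRe, hT'T]
  · intro ξ η
    show g.val x (T' (R₀ ξ)) (T' (R₀ η)) = inner ℝ ξ η
    rw [hval, LinearIsometryEquiv.inner_map_map]

end Pool.Agent.PIN
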