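import Pool.Agent.Work.MP_13b5d9_gt.PI.Stmts

set_option autoImplicit false

/-!
# Item Tay: Taylor's formula with a continuous remainder
-/

open MeasureTheory Set Filter Topology
open scoped ContDiff ENNReal

namespace Pool.Agent.PIN

open Pool.Agent.MLS Pool.Agent.STR

/-- item Tay -/
theorem pr_Tay : PiTay := by
  intro h h1 h2 hc hd1 hd2
  refine ⟨fun r t => ∫ θ in (0 : ℝ)..1, (1 - θ) * h2 (θ * r) t, ?_, ?_, ?_⟩
  · have hf : Continuous (Function.uncurry
        (fun (p : ℝ × ℝ) (θ : ℝ) => (1 - θ) * h2 (θ * p.1) p.2)) := by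
      have h3 : Continuous (fun q : (ℝ × ℝ) × ℝ => h2 (q.2 * q.1.1) q.1.2) :=
        hc.comp ((continuous_snd.mul (continuous_fst.comp continuous_fst)).prodMk
          (continuous_snd.comp continuous_fst))
      exact (continuous_const.sub continuous_snd).mul h3
    exact intervalIntegral.continuous_parametric_intervalIntegral_of_continuous' hf 0 1
  · intro r t
    have hcθ : Continuous (fun θ : ℝ => h2 (θ * r) t) :=
      hc.comp ((continuous_id.mul continuous_const).prodMk continuous_const)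
    have hm : ∀ θ : ℝ, HasDerivAt (fun θ : ℝ => θ * r) r θ := fun θ => by
      simpa using (hasDerivAt_id θ).mul_const r
    have hP : ∀ θ : ℝ, HasDerivAt (fun θ : ℝ => (1 - θ) * (h1 (θ * r) t * r) + h (θ * r) t)
        ((1 - θ) * (h2 (θ * r) t) * r ^ 2) θ := by
      intro θ
      have e1 : HasDerivAt (fun θ : ℝ => h (θ * r) t) (h1 (θ * r) t * r) θ :=
        HasDerivAt.comp (h₂ := fun r => h r t) (h := fun θ : ℝ => θ * r) θ (hd1 (θ * r) t) (hm θ)
      have e2 : HasDerivAt (fun θ : ℝ => h1 (θ * r) t) (h2 (θ * r) t * r) θ :=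
        HasDerivAt.comp (h₂ := fun r => h1 r t) (h := fun θ : ℝ => θ * r) θ (hd2 (θ * r) t) (hm θ)
      have e3 : HasDerivAt (fun θ : ℝ => 1 - θ) (-1) θ := by
        simpa using (hasDerivAt_id θ).const_sub 1
      have e4 := (e3.mul (e2.mul_const r)).add e1
      exact e4.congr_deriv (by ring)
    have hint : IntervalIntegrable (fun θ : ℝ => (1 - θ) * (h2 (θ * r) t) * r ^ 2) volume 0 1 :=
      (((continuous_const.sub continuous_id).mul hcθ).mul continuous_const).intervalIntegrable _ _
    have h5 := intervalIntegral.integral_eq_sub_of_hasDerivAt (fun θ _ => hP θ) hint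
    rw [intervalIntegral.integral_mul_const] at h5
    have h6 : (1 - (1 : ℝ)) * (h1 (1 * r) t * r) + h (1 * r) t -
        ((1 - (0 : ℝ)) * (h1 (0 * r) t * r) + h (0 * r) t) = h r t - (h1 0 t * r + h 0 t) := by
      rw [one_mul, zero_mul]
      ring
    rw [h6] at h5
    show h r t = h 0 t + r * h1 0 t + r ^ 2 * ∫ θ in (0 : ℝ)..1, (1 - θ) * h2 (θ * r) t
    linarith [h5, mul_comm (r ^ 2) (∫ θ in (0 : ℝ)..1, (1 - θ) * h2 (θ * r) t)]
  · intro t
    show ∫ θ in (0 : ℝ)..1, (1 - θ) * h2 (θ * 0) t = h2 0 t / 2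
    have h7 : (fun θ : ℝ => (1 - θ) * h2 (θ * 0) t) = fun θ : ℝ => (1 - θ) * h2 0 t := by
      funext θ
      rw [mul_zero]
    rw [h7, intervalIntegral.integral_mul_const]
    have h8 : ∫ θ in (0 : ℝ)..1, (1 - θ) = 1 / 2 := by
      rw [intervalIntegral.integral_sub (by simp) (by simp)]
      simp
      norm_num
    rw [h8]
    ring

end Pool.Agent.PIN
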