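import Pool.Agent.Work.MP_13b5d9_gt.PI.Stmts

set_option autoImplicit false

open MeasureTheory Set Filter Topology
open scoped ContDiff ENNReal

namespace Pool.Agent.PIN

open Pool.Agent.MLS Pool.Agent.STR

theorem pr_Th (hNC : StNC) (hAx : StAx) (hDom : PiDom) (hPin : PiPin) (hCnf : PiCnf)
    (hIso : PiIso) : PiTh := by
  intro m G _ _ hm hG g hg hI hn z hz hc
  have hmin : Minz g := hNC (m + 1) G hG g hg hI hn
  have hm0 : 0 < m := by omega
  refine ⟨hAx (m + 1) G hG g hg hI hn z hz hc, fun l V τ ψ hA => ⟨?_, ?_, ?_⟩⟩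
  · exact fun D hD hD' => hDom m G hm0 hG g hg hI hmin z l V τ ψ hA D hD hD'
  · exact fun h => hIso (m + 1) G g z l V τ ψ hA (hPin m G hm0 hG g hg hI hmin z l V τ ψ hA h)
  · rintro ⟨μ, hμ⟩
    exact hIso (m + 1) G g z l V τ ψ hA (hPin m G hm0 hG g hg hI hmin z l V τ ψ hA
      (hCnf m g hm hg V hA.unit μ hμ))

end Pool.Agent.PIN
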