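import Mathlib
import Pool.Agent.Work.MP_13b5d9_gt.ST.Defs

set_option autoImplicit false
set_option maxSynthPendingDepth 3

/-!
# MP_13b5d9_gt, block PI, first part: the Lie derivative is the derivative of the pull-back
-/

open MeasureTheory Set Filter Topology
open scoped ContDiff ENNReal

namespace Pool.Agent.STR

open Pool.Agent.MLS

/-- square of the length of the component of `v` orthogonal to `V` -/
noncomputable def bb {n : ℕ} (g : Form n) (V : E n → E n) (x v : E n) : ℝ :=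
  g.val x v v - g.val x (V x) v ^ 2

/-- index density -/
noncomputable def Fx {n : ℕ} (g : Form n) (V : E n → E n) (x v : E n) : ℝ :=
  g.val x v v * (Lie V (Lie V g.val) x v v / (2 * bb g V x v) -
    Lie V g.val x v v ^ 2 / (4 * bb g V x v ^ 2))

namespace PA

variable {n : ℕ}

theorem Lie_apply (V : E n → E n) (b : E n → E n →L[ℝ] E n →L[ℝ] ℝ) (x u v : E n) :
    Lie V b x u v = fderiv ℝ b x (V x) u v + b x (fderiv ℝ V x u) v + b x u (fderiv ℝ V x v) :=
  rfl

theorem Lie_smooth {V : E n → E n} {b : E n → E n →L[ℝ] E n →L[ℝ] ℝ} (hV : ContDiff ℝ ∞ V)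
    (hb : ContDiff ℝ ∞ b) : ContDiff ℝ ∞ (Lie V b) := by
  have h1 : ContDiff ℝ ∞ (fderiv ℝ V) := hV.fderiv_right (by norm_num)
  have h2 : ContDiff ℝ ∞ (fderiv ℝ b) := hb.fderiv_right (by norm_num)
  exact ((h2.clm_apply hV).add (hb.clm_comp h1)).add
    (((ContinuousLinearMap.contDiff _).comp h1).clm_comp hb)

section Flow

variable {V : E n → E n} {ψ : ℝ → E n → E n}

theorem slice (hF : ContDiff ℝ ∞ (fun p : ℝ × E n => ψ p.1 p.2)) (t : ℝ) (x : E n) :
    HasFDerivAt (ψ t) ((fderiv ℝ (fun p : ℝ × E n => ψ p.1 p.2) (t, x)).comp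
      (ContinuousLinearMap.inr ℝ ℝ (E n))) x := by
  have h1 : HasFDerivAt (fun p : ℝ × E n => ψ p.1 p.2)
      (fderiv ℝ (fun p : ℝ × E n => ψ p.1 p.2) (t, x)) (t, x) :=
    (hF.differentiable (by simp) _).hasFDerivAt
  have h2 : HasFDerivAt (fun y : E n => ((t, y) : ℝ × E n))
      (ContinuousLinearMap.inr ℝ ℝ (E n)) x := hasFDerivAt_prodMk_right t x
  exact h1.comp x h2

theorem fderiv_slice (hF : ContDiff ℝ ∞ (fun p : ℝ × E n => ψ p.1 p.2)) (t : ℝ) (x u : E n) :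
    fderiv ℝ (ψ t) x u = fderiv ℝ (fun p : ℝ × E n => ψ p.1 p.2) (t, x) (0, u) := by
  rw [(slice hF t x).fderiv]
  rfl

theorem fderiv_time (hF : ContDiff ℝ ∞ (fun p : ℝ × E n => ψ p.1 p.2))
    (hode : ∀ x t, HasDerivAt (fun s => ψ s x) (V (ψ t x)) t) (p : ℝ × E n) :
    fderiv ℝ (fun p : ℝ × E n => ψ p.1 p.2) p (1, 0) = V (ψ p.1 p.2) := by
  have h1 : HasFDerivAt (fun p : ℝ × E n => ψ p.1 p.2)
      (fderiv ℝ (fun p : ℝ × E n => ψ p.1 p.2) p) p :=
    (hF.differentiable (by simp) _).hasFDerivAt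
  have h2 : HasDerivAt (fun s : ℝ => ((s, p.2) : ℝ × E n)) ((1 : ℝ), (0 : E n)) p.1 :=
    (hasDerivAt_id p.1).prodMk (hasDerivAt_const p.1 p.2)
  have h3 : HasDerivAt (fun s => ψ s p.2)
      (fderiv ℝ (fun p : ℝ × E n => ψ p.1 p.2) p (1, 0)) p.1 := by
    have := HasFDerivAt.comp_hasDerivAt (f := fun s : ℝ => ((s, p.2) : ℝ × E n)) p.1
      (l := fun p : ℝ × E n => ψ p.1 p.2) (l' := fderiv ℝ (fun p : ℝ × E n => ψ p.1 p.2) p)
      (by simpa using h1) h2
    exact this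
  exact h3.unique (hode p.2 p.1)

/-- time derivative of the derivative of the flow -/
theorem deriv_slice (hV : ContDiff ℝ ∞ V) (hF : ContDiff ℝ ∞ (fun p : ℝ × E n => ψ p.1 p.2))
    (hode : ∀ x t, HasDerivAt (fun s => ψ s x) (V (ψ t x)) t) (t : ℝ) (x u : E n) :
    HasDerivAt (fun s => fderiv ℝ (ψ s) x u)
      (fderiv ℝ V (ψ t x) (fderiv ℝ (ψ t) x u)) t := by
  set Ψ : ℝ × E n → E n := fun p => ψ p.1 p.2 with hΨ
  have hF1 : ContDiff ℝ ∞ (fderiv ℝ Ψ) := hF.fderiv_right (by norm_num)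
  have h1 : HasFDerivAt (fderiv ℝ Ψ) (fderiv ℝ (fderiv ℝ Ψ) (t, x)) (t, x) :=
    (hF1.differentiable (by simp) _).hasFDerivAt
  have h2 : HasDerivAt (fun s : ℝ => ((s, x) : ℝ × E n)) ((1 : ℝ), (0 : E n)) t :=
    (hasDerivAt_id t).prodMk (hasDerivAt_const t x)
  have h3 : HasDerivAt (fun s => fderiv ℝ Ψ (s, x)) (fderiv ℝ (fderiv ℝ Ψ) (t, x) (1, 0)) t :=
    h1.comp_hasDerivAt t h2
  have h4 : HasDerivAt (fun s => fderiv ℝ Ψ (s, x) (0, u))
      (fderiv ℝ (fderiv ℝ Ψ) (t, x) (1, 0) (0, u)) t := by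
    have := h3.clm_apply (hasDerivAt_const t ((0 : ℝ), u))
    simpa using this
  have hsym : fderiv ℝ (fderiv ℝ Ψ) (t, x) (1, 0) (0, u) =
      fderiv ℝ (fderiv ℝ Ψ) (t, x) (0, u) (1, 0) := by
    have hs : IsSymmSndFDerivAt ℝ Ψ (t, x) :=
      ContDiffAt.isSymmSndFDerivAt (n := ∞) hF.contDiffAt (by
        rw [minSmoothness_of_isRCLikeNormedField]
        exact WithTop.coe_le_coe.2 (le_top : (2 : ℕ∞) ≤ ⊤))
    exact hs _ _
  have h5 : fderiv ℝ (fderiv ℝ Ψ) (t, x) (0, u) (1, 0) =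
      fderiv ℝ V (ψ t x) (fderiv ℝ (ψ t) x u) := by
    have h6 : HasFDerivAt (fun p => fderiv ℝ Ψ p (1, 0))
        ((fderiv ℝ (fderiv ℝ Ψ) (t, x)).flip ((1 : ℝ), (0 : E n))) (t, x) := by
      have := h1.clm_apply (hasFDerivAt_const ((1 : ℝ), (0 : E n)) (t, x))
      simpa using this
    have h7 : (fun p => fderiv ℝ Ψ p (1, 0)) = fun p => V (Ψ p) := by
      funext p
      exact fderiv_time hF hode p
    rw [h7] at h6
    have h8 : HasFDerivAt (fun p => V (Ψ p)) ((fderiv ℝ V (Ψ (t, x))).comp (fderiv ℝ Ψ (t, x)))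
        (t, x) :=
      ((hV.differentiable (by simp) _).hasFDerivAt).comp (t, x)
        ((hF.differentiable (by simp) _).hasFDerivAt)
    have h9 := h6.unique h8
    have h10 := congrArg (fun L : ℝ × E n →L[ℝ] E n => L (0, u)) h9
    rw [fderiv_slice hF t x u]
    exact h10
  rw [hsym, h5] at h4
  have h11 : (fun s => fderiv ℝ Ψ (s, x) (0, u)) = fun s => fderiv ℝ (ψ s) x u := by
    funext s
    exact (fderiv_slice hF s x u).symm
  rwa [h11] at h4

/-- the Lie derivative is the derivative of the pull-back -/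
theorem deriv_pull (hV : ContDiff ℝ ∞ V) (hF : ContDiff ℝ ∞ (fun p : ℝ × E n => ψ p.1 p.2))
    (hode : ∀ x t, HasDerivAt (fun s => ψ s x) (V (ψ t x)) t)
    {b : E n → E n →L[ℝ] E n →L[ℝ] ℝ} (hb : ContDiff ℝ ∞ b) (t : ℝ) (x u v : E n) :
    HasDerivAt (fun s => b (ψ s x) (fderiv ℝ (ψ s) x u) (fderiv ℝ (ψ s) x v))
      (Lie V b (ψ t x) (fderiv ℝ (ψ t) x u) (fderiv ℝ (ψ t) x v)) t := by
  have h1 : HasDerivAt (fun s => b (ψ s x)) (fderiv ℝ b (ψ t x) (V (ψ t x))) t :=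
    ((hb.differentiable (by simp) _).hasFDerivAt).comp_hasDerivAt t (hode x t)
  have h2 := (h1.clm_apply (deriv_slice hV hF hode t x u)).clm_apply
    (deriv_slice hV hF hode t x v)
  refine h2.congr_deriv ?_
  rw [Lie_apply, add_apply]

end Flow

section Axis

variable {G : Type} [Group G] [MulAction G (E n)] {g : Form n} {z : G} {l : ℝ}
  {V : E n → E n} {τ : E n → ℝ} {ψ : ℝ → E n → E n}

theorem d0 (h : Axis n G g z l V τ ψ) (x u : E n) : fderiv ℝ (ψ 0) x u = u := by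
  have h1 : ψ 0 = id := by
    funext y
    exact h.zero y
  rw [h1, fderiv_id]
  rfl

theorem dV (h : Axis n G g z l V τ ψ) (t : ℝ) (x : E n) :
    fderiv ℝ (ψ t) x (V x) = V (ψ t x) := by
  have h1 : HasDerivAt (fun s => ψ s x) (V x) 0 := by
    have := h.ode x 0
    rwa [h.zero] at this
  have h2 : HasDerivAt (fun s => ψ t (ψ s x)) (fderiv ℝ (ψ t) x (V x)) 0 := by
    have h3 : HasFDerivAt (ψ t) (fderiv ℝ (ψ t) x) (ψ 0 x) := by
      rw [h.zero]
      exact (slice h.smoothF t x).differentiableAt.hasFDerivAt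
    exact h3.comp_hasDerivAt 0 h1
  have h4 : HasDerivAt (fun s => ψ t (ψ s x)) (V (ψ t x)) 0 := by
    have h5 : (fun s => ψ t (ψ s x)) = fun s => ψ (s + t) x := by
      funext s
      rw [← h.add, add_comm]
    rw [h5]
    have h6 := (h.ode x (0 + t)).comp_add_const 0 t
    simpa using h6
  exact h2.unique h4

/-- the one form `g (V, .)` is invariant under the flow -/
theorem theta (h : Axis n G g z l V τ ψ) (t : ℝ) (x v : E n) :
    g.val (ψ t x) (V (ψ t x)) (fderiv ℝ (ψ t) x v) = g.val x (V x) v := by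
  rw [← h.grad, ← h.grad]
  have h1 : HasFDerivAt (fun y => τ (ψ t y)) ((fderiv ℝ τ (ψ t x)).comp (fderiv ℝ (ψ t) x)) x :=
    ((h.smoothT.differentiable (by simp) _).hasFDerivAt).comp x
      (slice h.smoothF t x).differentiableAt.hasFDerivAt
  have h2 : HasFDerivAt (fun y => τ (ψ t y)) (fderiv ℝ τ x) x := by
    have h3 : (fun y => τ (ψ t y)) = fun y => τ y + t := by
      funext y
      exact h.height t y
    rw [h3]
    exact ((h.smoothT.differentiable (by simp) _).hasFDerivAt).add_const t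
  have h4 := congrArg (fun L : E n →L[ℝ] ℝ => L v) (h1.unique h2)
  exact h4

theorem Lie_symm (h : Axis n G g z l V τ ψ) {b : E n → E n →L[ℝ] E n →L[ℝ] ℝ}
    (hb : ContDiff ℝ ∞ b) (hs : ∀ x u v, b x u v = b x v u) (x u v : E n) :
    Lie V b x u v = Lie V b x v u := by
  have h1 := deriv_pull h.smoothV h.smoothF h.ode hb 0 x u v
  have h2 := deriv_pull h.smoothV h.smoothF h.ode hb 0 x v u
  have h3 : (fun s => b (ψ s x) (fderiv ℝ (ψ s) x u) (fderiv ℝ (ψ s) x v)) =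
      fun s => b (ψ s x) (fderiv ℝ (ψ s) x v) (fderiv ℝ (ψ s) x u) := by
    funext s
    exact hs _ _ _
  rw [h3] at h1
  have h4 := h1.unique h2
  simpa only [h.zero, d0 h] using h4

theorem L1_V (h : Axis n G g z l V τ ψ) (x v : E n) : Lie V g.val x (V x) v = 0 := by
  have h1 := deriv_pull h.smoothV h.smoothF h.ode g.smooth 0 x (V x) v
  have h3 : (fun s => g.val (ψ s x) (fderiv ℝ (ψ s) x (V x)) (fderiv ℝ (ψ s) x v)) =
      fun _ => g.val x (V x) v := by
    funext s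
    rw [dV h, theta h]
  rw [h3] at h1
  have h4 := h1.unique (hasDerivAt_const (0 : ℝ) _)
  simpa only [h.zero, d0 h] using h4

theorem L2_V (h : Axis n G g z l V τ ψ) (x v : E n) : Lie V (Lie V g.val) x (V x) v = 0 := by
  have h1 := deriv_pull h.smoothV h.smoothF h.ode (Lie_smooth h.smoothV g.smooth) 0 x (V x) v
  have h3 : (fun s => Lie V g.val (ψ s x) (fderiv ℝ (ψ s) x (V x)) (fderiv ℝ (ψ s) x v)) =
      fun _ => (0 : ℝ) := by
    funext s
    rw [dV h, L1_V h]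
  rw [h3] at h1
  have h4 := h1.unique (hasDerivAt_const (0 : ℝ) _)
  simpa only [h.zero, d0 h] using h4

theorem L1_symm (h : Axis n G g z l V τ ψ) (x u v : E n) :
    Lie V g.val x u v = Lie V g.val x v u := Lie_symm h g.smooth g.symm x u v

theorem L2_symm (h : Axis n G g z l V τ ψ) (x u v : E n) :
    Lie V (Lie V g.val) x u v = Lie V (Lie V g.val) x v u :=
  Lie_symm h (Lie_smooth h.smoothV g.smooth) (L1_symm h) x u v

end Axis

end PA

end Pool.Agent.STR
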