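import Mathlib
import Pool.Agent.Work.MP_13b5d9_gt.PI.PA
import Pool.Agent.Work.MP_25cd3b_gt.M.I_Bnd

set_option autoImplicit false
set_option maxSynthPendingDepth 3

/-!
# MP_13b5d9_gt, block PI, second part: the slope of a geodesic
-/

open MeasureTheory Set Filter Topology
open scoped ContDiff ENNReal

namespace Pool.Agent.STR

open Pool.Agent.MLS

namespace PB

variable {n : ℕ}

section Geo

variable {g : Form n} {c : ℝ → E n}

theorem hasDeriv_c (hc : IsGeo g c) (t : ℝ) : HasDerivAt c (deriv c t) t :=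
  (hc.smooth.differentiable (by norm_num) t).hasDerivAt

theorem contDiff_dc (hc : IsGeo g c) : ContDiff ℝ 1 (deriv c) := by
  have h := hc.smooth
  rw [show (2 : WithTop ℕ∞) = 1 + 1 by norm_num, contDiff_succ_iff_deriv] at h
  exact h.2.2

theorem hasDeriv_dc (hc : IsGeo g c) (t : ℝ) : HasDerivAt (deriv c) (deriv (deriv c) t) t :=
  ((contDiff_dc hc).differentiable (by norm_num) t).hasDerivAt

/-- the momentum of a geodesic -/
theorem mom (hc : IsGeo g c) (t : ℝ) :
    HasDerivAt (fun s => g.val (c s) (deriv c s))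
      (fderiv ℝ g.val (c t) (deriv c t) (deriv c t) + g.val (c t) (deriv (deriv c) t)) t := by
  have h1 : HasDerivAt (fun s => g.val (c s)) (fderiv ℝ g.val (c t) (deriv c t)) t :=
    ((g.smooth.differentiable (by simp) _).hasFDerivAt).comp_hasDerivAt t (hasDeriv_c hc t)
  exact h1.clm_apply (hasDeriv_dc hc t)

theorem mom_eq (hc : IsGeo g c) (t : ℝ) (w : E n) :
    fderiv ℝ g.val (c t) (deriv c t) (deriv c t) w + g.val (c t) (deriv (deriv c) t) w =
      1 / 2 * fderiv ℝ g.val (c t) w (deriv c t) (deriv c t) := by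
  have h1 := (mom hc t).clm_apply (hasDerivAt_const t w)
  have h2 := h1.unique (hc.el t w)
  simpa using h2

theorem speed (hc : IsGeo g c) (t : ℝ) :
    HasDerivAt (fun s => g.val (c s) (deriv c s) (deriv c s)) 0 t := by
  have h1 := (mom hc t).clm_apply (hasDeriv_dc hc t)
  have h2 := mom_eq hc t (deriv c t)
  refine h1.congr_deriv ?_
  rw [add_apply, g.symm (c t) (deriv c t) (deriv (deriv c) t)]
  linarith

theorem speed_const (hc : IsGeo g c) (s t : ℝ) :
    g.val (c s) (deriv c s) (deriv c s) = g.val (c t) (deriv c t) (deriv c t) := by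
  have h := is_const_of_deriv_eq_zero (f := fun s => g.val (c s) (deriv c s) (deriv c s))
    (fun t => (speed hc t).differentiableAt) (fun t => (speed hc t).deriv)
  exact h s t

end Geo

section Axis

variable {G : Type} [Group G] [MulAction G (E n)] {g : Form n} {z : G} {l : ℝ}
  {V : E n → E n} {τ : E n → ℝ} {ψ : ℝ → E n → E n}

/-- derivative of the slope -/
theorem slope (h : Axis n G g z l V τ ψ) {c : ℝ → E n} (hc : IsGeo g c) (t : ℝ) :
    HasDerivAt (fun s => g.val (c s) (V (c s)) (deriv c s))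
      (1 / 2 * Lie V g.val (c t) (deriv c t) (deriv c t)) t := by
  have hV : HasDerivAt (fun s => V (c s)) (fderiv ℝ V (c t) (deriv c t)) t :=
    ((h.smoothV.differentiable (by simp) _).hasFDerivAt).comp_hasDerivAt t (hasDeriv_c hc t)
  have h1 := (mom hc t).clm_apply hV
  have h2 := mom_eq hc t (V (c t))
  have h3 : (fun s => g.val (c s) (V (c s)) (deriv c s)) =
      fun s => g.val (c s) (deriv c s) (V (c s)) := by
    funext s
    exact g.symm _ _ _
  rw [h3]
  refine h1.congr_deriv ?_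
  rw [PA.Lie_apply, g.symm (c t) (fderiv ℝ V (c t) (deriv c t)) (deriv c t), add_apply, h2]
  ring

/-- the component orthogonal to `V` -/
noncomputable def xi (g : Form n) (V : E n → E n) (x v : E n) : E n :=
  v - g.val x (V x) v • V x

theorem bb_eq (h : Axis n G g z l V τ ψ) (x v : E n) :
    bb g V x v = g.val x (xi g V x v) (xi g V x v) := by
  unfold bb xi
  simp only [map_sub, map_smul, sub_apply, smul_apply, smul_eq_mul, h.unit x]
  rw [g.symm x v (V x)]
  ring

theorem bb_nonneg (h : Axis n G g z l V τ ψ) (x v : E n) : 0 ≤ bb g V x v := by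
  rw [bb_eq h]
  exact g.nonneg _ _

theorem L1_red (h : Axis n G g z l V τ ψ) (x v : E n) :
    Lie V g.val x v v = Lie V g.val x (xi g V x v) (xi g V x v) := by
  unfold xi
  simp only [map_sub, map_smul, sub_apply, smul_apply, smul_eq_mul, PA.L1_V h,
    PA.L1_symm h x v (V x)]
  ring

theorem L2_red (h : Axis n G g z l V τ ψ) (x v : E n) :
    Lie V (Lie V g.val) x v v = Lie V (Lie V g.val) x (xi g V x v) (xi g V x v) := by
  unfold xi
  simp only [map_sub, map_smul, sub_apply, smul_apply, smul_eq_mul, PA.L2_V h,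
    PA.L2_symm h x v (V x)]
  ring

/-- bounds of forms by the metric on compact sets -/
theorem form_bound {g : Form n} (hg : Riem g) {b : E n → E n →L[ℝ] E n →L[ℝ] ℝ}
    (hb : Continuous b) (K : Set (E n)) (hK : IsCompact K) :
    ∃ C, 0 ≤ C ∧ ∀ x ∈ K, ∀ v, |b x v v| ≤ C * g.val x v v := by
  obtain ⟨C, hC, hC'⟩ := (pr_Bnd n g K hK).2 hg
  obtain ⟨M, hM⟩ := hK.exists_bound_of_continuousOn hb.continuousOn
  refine ⟨|M| * C ^ 2, by positivity, fun x hx v => ?_⟩
  have h1 : |b x v v| ≤ ‖b x‖ * ‖v‖ * ‖v‖ := by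
    rw [← Real.norm_eq_abs]
    exact (b x).le_opNorm₂ v v
  have h2 : ‖b x‖ ≤ |M| := (hM x hx).trans (le_abs_self M)
  have h3 : ‖v‖ ^ 2 ≤ C ^ 2 * g.val x v v := by
    have h4 := hC' x hx v
    have h5 : ‖v‖ ^ 2 ≤ (C * nrm g x v) ^ 2 :=
      pow_le_pow_left₀ (norm_nonneg v) h4 2
    rw [mul_pow, nrm, Real.sq_sqrt (g.nonneg x v)] at h5
    exact h5
  calc |b x v v| ≤ ‖b x‖ * ‖v‖ * ‖v‖ := h1
    _ = ‖b x‖ * ‖v‖ ^ 2 := by ring
    _ ≤ |M| * (C ^ 2 * g.val x v v) := by
      apply mul_le_mul h2 h3 (by positivity) (abs_nonneg M)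
    _ = |M| * C ^ 2 * g.val x v v := by ring

theorem L1_bound (hg : Riem g) (h : Axis n G g z l V τ ψ) (K : Set (E n)) (hK : IsCompact K) :
    ∃ C, 0 ≤ C ∧ ∀ x ∈ K, ∀ v, |Lie V g.val x v v| ≤ C * bb g V x v := by
  obtain ⟨C, hC, hC'⟩ := form_bound hg (PA.Lie_smooth h.smoothV g.smooth).continuous K hK
  refine ⟨C, hC, fun x hx v => ?_⟩
  rw [L1_red h, bb_eq h]
  exact hC' x hx _

theorem L2_bound (hg : Riem g) (h : Axis n G g z l V τ ψ) (K : Set (E n)) (hK : IsCompact K) :
    ∃ C, 0 ≤ C ∧ ∀ x ∈ K, ∀ v, |Lie V (Lie V g.val) x v v| ≤ C * bb g V x v := by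
  obtain ⟨C, hC, hC'⟩ := form_bound hg
    (PA.Lie_smooth h.smoothV (PA.Lie_smooth h.smoothV g.smooth)).continuous K hK
  refine ⟨C, hC, fun x hx v => ?_⟩
  rw [L2_red h, bb_eq h]
  exact hC' x hx _

/-- the index density is bounded on compact sets, in terms of the energy -/
theorem Fx_bound (hg : Riem g) (h : Axis n G g z l V τ ψ) (K : Set (E n)) (hK : IsCompact K) :
    ∃ C, 0 ≤ C ∧ ∀ x ∈ K, ∀ v, |Fx g V x v| ≤ C * g.val x v v := by
  obtain ⟨C1, hC1, hC1'⟩ := L1_bound hg h K hK
  obtain ⟨C2, hC2, hC2'⟩ := L2_bound hg h K hK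
  refine ⟨C2 / 2 + C1 ^ 2 / 4, by positivity, fun x hx v => ?_⟩
  unfold Fx
  rw [abs_mul, abs_of_nonneg (g.nonneg x v), mul_comm]
  apply mul_le_mul_of_nonneg_right _ (g.nonneg x v)
  set B := bb g V x v with hB
  have hB0 : 0 ≤ B := bb_nonneg h x v
  rcases hB0.eq_or_lt with hz | hpos
  · rw [← hz]
    simp
    positivity
  · have h1 : |Lie V (Lie V g.val) x v v / (2 * B)| ≤ C2 / 2 := by
      rw [abs_div, abs_of_pos (by positivity : 0 < 2 * B), div_le_iff₀ (by positivity)]
      have := hC2' x hx v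
      nlinarith
    have h2 : |Lie V g.val x v v ^ 2 / (4 * B ^ 2)| ≤ C1 ^ 2 / 4 := by
      rw [abs_div, abs_of_pos (by positivity : 0 < 4 * B ^ 2), div_le_iff₀ (by positivity),
        abs_pow]
      have h3 := hC1' x hx v
      have h4 : |Lie V g.val x v v| ^ 2 ≤ (C1 * B) ^ 2 :=
        pow_le_pow_left₀ (abs_nonneg _) h3 2
      nlinarith
    calc |Lie V (Lie V g.val) x v v / (2 * B) - Lie V g.val x v v ^ 2 / (4 * B ^ 2)| ≤
        |Lie V (Lie V g.val) x v v / (2 * B)| + |Lie V g.val x v v ^ 2 / (4 * B ^ 2)| :=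
          abs_sub _ _
      _ ≤ C2 / 2 + C1 ^ 2 / 4 := add_le_add h1 h2

theorem deriv_bb (h : Axis n G g z l V τ ψ) {c : ℝ → E n} (hc : IsGeo g c) (t : ℝ) :
    HasDerivAt (fun s => bb g V (c s) (deriv c s))
      (-(g.val (c t) (V (c t)) (deriv c t) * Lie V g.val (c t) (deriv c t) (deriv c t))) t := by
  have h1 := (speed hc t).sub ((slope h hc t).pow 2)
  refine h1.congr_deriv ?_
  simp
  ring

/-- a geodesic which is not tangent to `V` at one point is nowhere tangent to `V` -/
theorem pos (hg : Riem g) (h : Axis n G g z l V τ ψ) {c : ℝ → E n} (hc : IsGeo g c) (s : ℝ)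
    (hs : 0 < bb g V (c s) (deriv c s)) (t : ℝ) : 0 < bb g V (c t) (deriv c t) := by
  set B : ℝ → ℝ := fun s => bb g V (c s) (deriv c s) with hB
  set q : ℝ := g.val (c 0) (deriv c 0) (deriv c 0) with hq
  have hq' : ∀ t, g.val (c t) (deriv c t) (deriv c t) = q := fun t => speed_const hc t 0
  obtain ⟨C, hC, hC'⟩ := L1_bound hg h (c '' uIcc s t)
    (isCompact_uIcc.image (hc.smooth.continuous))
  set K : ℝ := Real.sqrt q * C with hK
  have hbd : ∀ r ∈ uIcc s t,
      |g.val (c r) (V (c r)) (deriv c r) * Lie V g.val (c r) (deriv c r) (deriv c r)| ≤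
        K * B r := by
    intro r hr
    rw [abs_mul, hK, mul_assoc]
    have h0 : 0 ≤ B r := bb_nonneg h _ _
    have h1 : |g.val (c r) (V (c r)) (deriv c r)| ≤ Real.sqrt q := by
      apply Real.abs_le_sqrt
      have : B r = q - g.val (c r) (V (c r)) (deriv c r) ^ 2 := by
        rw [hB, ← hq' r]
        rfl
      linarith
    exact mul_le_mul h1 (hC' _ ⟨r, hr, rfl⟩ _) (abs_nonneg _) (Real.sqrt_nonneg q)
  rcases le_total s t with hst | hst
  · rw [uIcc_of_le hst] at hbd
    have hmono : MonotoneOn (fun r => B r * Real.exp (K * r)) (Icc s t) := by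
      have hd : ∀ r, HasDerivAt (fun r => B r * Real.exp (K * r))
          (-(g.val (c r) (V (c r)) (deriv c r) * Lie V g.val (c r) (deriv c r) (deriv c r)) *
            Real.exp (K * r) + B r * (Real.exp (K * r) * K)) r := by
        intro r
        have he : HasDerivAt (fun r => Real.exp (K * r)) (Real.exp (K * r) * K) r := by
          simpa using ((hasDerivAt_id r).const_mul K).exp
        exact (deriv_bb h hc r).mul he
      apply monotoneOn_of_deriv_nonneg (convex_Icc s t)
        (fun r _ => (hd r).continuousAt.continuousWithinAt)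
        (fun r _ => (hd r).differentiableAt.differentiableWithinAt)
      intro r hr
      rw [interior_Icc] at hr
      rw [(hd r).deriv]
      have h1 := (abs_le.1 (hbd r ⟨hr.1.le, hr.2.le⟩)).2
      have h2 := Real.exp_pos (K * r)
      nlinarith
    have h1 := hmono (left_mem_Icc.2 hst) (right_mem_Icc.2 hst) hst
    have h2 : 0 < B s * Real.exp (K * s) := mul_pos hs (Real.exp_pos _)
    exact pos_of_mul_pos_left (h2.trans_le h1) (Real.exp_pos _).le
  · rw [uIcc_of_ge hst] at hbd
    have hanti : AntitoneOn (fun r => B r * Real.exp (-K * r)) (Icc t s) := by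
      have hd : ∀ r, HasDerivAt (fun r => B r * Real.exp (-K * r))
          (-(g.val (c r) (V (c r)) (deriv c r) * Lie V g.val (c r) (deriv c r) (deriv c r)) *
            Real.exp (-K * r) + B r * (Real.exp (-K * r) * -K)) r := by
        intro r
        have he : HasDerivAt (fun r => Real.exp (-K * r)) (Real.exp (-K * r) * -K) r := by
          simpa using ((hasDerivAt_id r).const_mul (-K)).exp
        exact (deriv_bb h hc r).mul he
      apply antitoneOn_of_deriv_nonpos (convex_Icc t s)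
        (fun r _ => (hd r).continuousAt.continuousWithinAt)
        (fun r _ => (hd r).differentiableAt.differentiableWithinAt)
      intro r hr
      rw [interior_Icc] at hr
      rw [(hd r).deriv]
      have h1 := (abs_le.1 (hbd r ⟨hr.1.le, hr.2.le⟩)).1
      have h2 := Real.exp_pos (-K * r)
      nlinarith
    have h1 := hanti (left_mem_Icc.2 hst) (right_mem_Icc.2 hst) hst
    have h2 : 0 < B s * Real.exp (-K * s) := mul_pos hs (Real.exp_pos _)
    exact pos_of_mul_pos_left (h2.trans_le h1) (Real.exp_pos _).le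

end Axis

end PB

end Pool.Agent.STR
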